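import Pool.Agent.SplPat.Total

set_option autoImplicit false

namespace Pool.Agent.SplPat

open BinaryTree Pool.Agent.MP_c42954_lc.Scan

/-- The list of requests `X` avoids the pattern `π`: there are no positions `i_1 < ... < i_k` in the
list such that the requests there are in the relative order `π`. -/
def AvoidsL {k : ℕ} (π : Equiv.Perm (Fin k)) (X : List ℕ) : Prop :=
  ¬ ∃ f : Fin k → Fin X.length, StrictMono f ∧ ∀ i j, π i < π j → X.get (f i) < X.get (f j)

/-- The number of keys below `v`. -/
def REL_rank (K : List ℕ) (v : ℕ) : ℕ := (K.filter (fun a => a < v)).length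

theorem REL_rank_mono (K : List ℕ) {v w : ℕ} (h : v ≤ w) : REL_rank K v ≤ REL_rank K w := by
  unfold REL_rank
  induction K with
  | nil => simp
  | cons a K ih =>
    rw [List.filter_cons, List.filter_cons]
    by_cases h1 : a < v
    · have h2 : a < w := by omega
      simp [h1, h2, ih]
    · by_cases h2 : a < w
      · simp only [h1, h2, decide_false, decide_true, if_true, List.length_cons]
        simp only [Bool.false_eq_true, if_false]
        omega
      · simp [h1, h2, ih]

theorem REL_rank_lt (K : List ℕ) {v w : ℕ} (hv : v ∈ K) (h : v < w) :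
    REL_rank K v < REL_rank K w := by
  induction K with
  | nil => simp at hv
  | cons a K ih =>
    have hm := REL_rank_mono K h.le
    unfold REL_rank at *
    rw [List.filter_cons, List.filter_cons]
    rcases List.mem_cons.mp hv with h1 | h1
    · subst h1
      have h2 : ¬ v < v := by omega
      simp only [h2, h, decide_false, decide_true, if_true, List.length_cons]
      simp only [Bool.false_eq_true, if_false]
      omega
    · have h2 := ih h1
      by_cases h3 : a < v
      · have h4 : a < w := by omega
        simp [h3, h4]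
        exact h2
      · by_cases h4 : a < w
        · simp only [h3, h4, decide_false, decide_true, if_true, List.length_cons]
          simp only [Bool.false_eq_true, if_false]
          omega
        · simp [h3, h4]
          exact h2

theorem REL_rank_len (K : List ℕ) {v : ℕ} (hv : v ∈ K) : REL_rank K v < K.length := by
  unfold REL_rank
  rw [List.length_filter_lt_length_iff_exists]
  exact ⟨v, hv, by simp⟩

theorem REL_mono (K : List ℕ) {x : ℕ} (hx : x ∈ K) : Mono (REL_rank K) x K :=
  fun _ ha => ⟨fun h => REL_rank_lt K hx h, fun h => REL_rank_lt K ha h⟩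

theorem REL_cost {f : ℕ → ℕ} {K : List ℕ} (hf : ∀ x ∈ K, Mono f x K) :
    ∀ (X : List ℕ) (T : BinaryTree ℕ), IsBST T → inorder T = K → (∀ x ∈ X, x ∈ K) →
    splayCost (X.map f) (mapT f T) = splayCost X T
  | [], T, _, _, _ => rfl
  | x :: X, T, hb, hK, hX => by
      have hxK : x ∈ K := hX x (by simp)
      have hxT : x ∈ inorder T := hK ▸ hxK
      have hfx : Mono f x (inorder T) := by rw [hK]; exact hf x hxK
      simp only [List.map_cons, splayCost]
      rw [mapT_splay hb hxT hfx, mapT_depth hfx,
        REL_cost hf X (splay x T) (splay_bst hb hxT)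
          (by rw [splay_inorder hb hxT]; exact hK) (fun y hy => hX y (by simp [hy]))]

/-- The trees. -/
noncomputable def REL_tr (T : BinaryTree ℕ) (Y : ℕ → ℕ) : ℕ → BinaryTree ℕ
  | 0 => T
  | t + 1 => splay (Y t) (REL_tr T Y t)

theorem REL_tr_succ (T : BinaryTree ℕ) (Y : ℕ → ℕ) : ∀ t,
    REL_tr T Y (t + 1) = REL_tr (splay (Y 0) T) (fun i => Y (i + 1)) t
  | 0 => rfl
  | t + 1 => by
      rw [REL_tr, REL_tr_succ T Y t]
      rfl

theorem REL_sum : ∀ (X : List ℕ) (T : BinaryTree ℕ),
    splayCost X T = X.length + ∑ t ∈ Finset.range X.length,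
      depth (X.getD t 0) (REL_tr T (fun i => X.getD i 0) t)
  | [], T => by simp [splayCost]
  | x :: X, T => by
      rw [splayCost, REL_sum X (splay x T), List.length_cons, Finset.sum_range_succ']
      have h1 : ∀ t, depth ((x :: X).getD (t + 1) 0) (REL_tr T (fun i => (x :: X).getD i 0) (t + 1))
          = depth (X.getD t 0) (REL_tr (splay x T) (fun i => X.getD i 0) t) := by
        intro t
        rw [REL_tr_succ]
        rfl
      simp only [h1]
      have h2 : depth ((x :: X).getD 0 0) (REL_tr T (fun i => (x :: X).getD i 0) 0) =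
          depth x T := rfl
      rw [h2]
      ring

theorem REL_run {X : List ℕ} {T : BinaryTree ℕ} (hb : IsBST T) (hX : ∀ x ∈ X, x ∈ inorder T) :
    Run (REL_tr T (fun i => X.getD i 0)) (fun i => X.getD i 0) X.length := by
  have hmem : ∀ t < X.length, X.getD t 0 ∈ inorder T := by
    intro t ht
    rw [List.getD_eq_getElem X 0 ht]
    exact hX _ (List.getElem_mem ht)
  have h1 : ∀ t ≤ X.length, IsBST (REL_tr T (fun i => X.getD i 0) t) ∧
      inorder (REL_tr T (fun i => X.getD i 0) t) = inorder T := by
    intro t
    induction t with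
    | zero => exact fun _ => ⟨hb, rfl⟩
    | succ t ih =>
      intro ht
      obtain ⟨h2, h3⟩ := ih (by omega)
      have h4 : X.getD t 0 ∈ inorder (REL_tr T (fun i => X.getD i 0) t) := by
        rw [h3]
        exact hmem t (by omega)
      exact ⟨splay_bst h2 h4, (splay_inorder h2 h4).trans h3⟩
  refine ⟨fun t ht => (h1 t ht).1, fun t ht => ?_, fun t ht => rfl⟩
  rw [(h1 t ht.le).2]
  exact hmem t ht

theorem REL_avoids {k : ℕ} (π : Equiv.Perm (Fin k)) (K : List ℕ) (X : List ℕ) (h : AvoidsL π X) :
    Avoids π X.length (fun i => (X.map (REL_rank K)).getD i 0) := by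
  rintro ⟨f, hf, hm, hp⟩
  apply h
  refine ⟨fun i => ⟨f i, hm i⟩, fun i j hij => hf hij, fun i j hij => ?_⟩
  have h1 := hp i j hij
  have h2 : ∀ i, (X.map (REL_rank K)).getD (f i) 0 = REL_rank K (X.get ⟨f i, hm i⟩) := by
    intro i
    rw [List.getD_eq_getElem _ 0 (by rw [List.length_map]; exact hm i), List.getElem_map]
    rfl
  simp only [h2] at h1
  by_contra h3
  exact absurd h1 (not_lt.mpr (REL_rank_mono K (not_lt.mp h3)))

/-! HINT (REL).  Relabel the keys by their ranks r(v) = number of keys < v (`mapT_splay`, `mapT_depth`; r is strictly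
monotone on the keys), so that all keys are < n = (inorder T).length; T t, X t from the list. -/
theorem splay_total (k : ℕ) : ∃ C : ℕ, ∀ (π : Equiv.Perm (Fin k)) (T : BinaryTree ℕ) (X : List ℕ),
    IsBST T → (∀ x ∈ X, x ∈ inorder T) → AvoidsL π X →
    splayCost X T ≤ C * (X.length + (inorder T).length) *
      (1 + Nat.log 2 (Nat.log 2 (inorder T).length + 1)) := by
  obtain ⟨C, hC⟩ := total k
  refine ⟨C + 1, fun π T X hb hX hav => ?_⟩
  rcases Nat.eq_zero_or_pos X.length with h0 | h0
  · have : X = [] := List.length_eq_zero_iff.mp h0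
    subst this
    simp [splayCost]
  set K := inorder T with hK
  have hn : 1 ≤ K.length := by
    obtain ⟨x, hx⟩ := List.exists_mem_of_length_pos h0
    exact List.length_pos_of_mem (hX x hx)
  set X' := X.map (REL_rank K) with hX'
  set T' := mapT (REL_rank K) T with hT'
  have hlen : X'.length = X.length := List.length_map _
  have hb' : IsBST T' := by
    have h1 : (K.map (REL_rank K)).Pairwise (· < ·) := by
      rw [List.pairwise_map]
      have hpw : K.Pairwise (· < ·) := hb
      refine List.Pairwise.imp_of_mem (fun {a b} ha hb' hab => ?_) hpw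
      exact REL_rank_lt K ha hab
    unfold IsBST
    rw [hT', mapT_inorder]
    exact h1
  have hmem' : ∀ x ∈ X', x ∈ inorder T' := by
    intro x hx
    rw [hX', List.mem_map] at hx
    obtain ⟨y, hy, rfl⟩ := hx
    rw [hT', mapT_inorder]
    exact List.mem_map_of_mem (hX y hy)
  have hcost : splayCost X' T' = splayCost X T :=
    REL_cost (fun x hx => REL_mono K hx) X T hb rfl hX
  have hrun := REL_run hb' hmem'
  have hlt : ∀ v ∈ inorder (REL_tr T' (fun i => X'.getD i 0) 0), v < K.length := by
    intro v hv
    have hv' : v ∈ inorder T' := hv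
    rw [hT', mapT_inorder, List.mem_map] at hv'
    obtain ⟨y, hy, rfl⟩ := hv'
    exact REL_rank_len K hy
  have hav' := REL_avoids π K X hav
  have h5 := hC π _ _ X'.length K.length hrun hlt hn (by rw [hlen]; exact hav')
  have h6 := REL_sum X' T'
  rw [hcost] at h6
  rw [h6, hlen]
  rw [hlen] at h5
  have h7 : X.length ≤ 1 * (X.length + K.length) * (1 + Nat.log 2 (Nat.log 2 K.length + 1)) := by
    rw [one_mul]
    calc X.length ≤ (X.length + K.length) * 1 := by omega
      _ ≤ (X.length + K.length) * (1 + Nat.log 2 (Nat.log 2 K.length + 1)) :=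
          Nat.mul_le_mul_left _ (by omega)
  calc X.length + ∑ t ∈ Finset.range X.length,
        depth (X'.getD t 0) (REL_tr T' (fun i => X'.getD i 0) t)
      ≤ 1 * (X.length + K.length) * (1 + Nat.log 2 (Nat.log 2 K.length + 1)) +
        C * (X.length + K.length) * (1 + Nat.log 2 (Nat.log 2 K.length + 1)) :=
        Nat.add_le_add h7 h5
    _ = (C + 1) * (X.length + K.length) * (1 + Nat.log 2 (Nat.log 2 K.length + 1)) := by ring

end Pool.Agent.SplPat
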