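import Pool.Agent.SplPat.F2

set_option autoImplicit false

namespace Pool.Agent.SplPat

open BinaryTree Pool.Agent.MP_c42954_lc.Scan

/-! HINT (FS).  `Rg a t ∩ [a, a')` and `Lg a' t ∩ [a, a')` have at most one common element (`spine_unique`).
x < a: by F1R the first set loses exactly `pop` elements; by F2L (gap a') the second one gains at most one
element v in [a, a'), with (v, g) a pair, v < g, g ∈ Lg a' t; then g is lost by the first set (F1R with c = a ≤ v;
g ∈ Rg a t by anc_Rg).  x in [a, a'): F2R with c = a and F2L with c = a'. -/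

theorem sig_le {a a' : ℕ} {t : BinaryTree ℕ} (hb : IsBST t) : sig a a' t ≤ (a' - a) + 1 := by
  unfold sig
  rw [← Finset.card_union_add_card_inter]
  have h1 : ((Rg a t).filter (fun v => v < a') ∪ (Lg a' t).filter (fun v => a ≤ v)).card ≤
      a' - a := by
    rw [← Nat.card_Ico]
    refine Finset.card_le_card fun v hv => ?_
    rw [Finset.mem_union, Finset.mem_filter, Finset.mem_filter, mem_Rg, mem_Lg] at hv
    rw [Finset.mem_Ico]
    rcases hv with h | h
    · exact ⟨h.1.2, h.2⟩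
    · exact ⟨h.2, h.1.2⟩
  have h2 : ((Rg a t).filter (fun v => v < a') ∩ (Lg a' t).filter (fun v => a ≤ v)).card ≤ 1 := by
    rw [Finset.card_le_one]
    intro v hv w hw
    rw [Finset.mem_inter, Finset.mem_filter, Finset.mem_filter] at hv hw
    exact spine_unique hb hv.1.1 hv.2.1 hw.1.1 hw.2.1
  omega

theorem FS_uniqL {x c v v' : ℕ} {t : BinaryTree ℕ} (hb : IsBST t) (hm : x ∈ inorder t)
    (h : x < c) (hv : v ∈ Lg c (splay x t)) (hvx : v ≠ x) (hvn : v ∉ Lg c t)
    (hv' : v' ∈ Lg c (splay x t)) (hvx' : v' ≠ x) (hvn' : v' ∉ Lg c t) : v = v' := by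
  rcases (F2L hb hm h).1 hv with h1 | ⟨h1, h2 | ⟨g, h2, h3, h4⟩⟩
  · exact absurd h1 hvx
  · exact absurd h2 hvn
  rcases (F2L hb hm h).1 hv' with h1' | ⟨h1', h2' | ⟨g', h2', h3', h4'⟩⟩
  · exact absurd h1' hvx'
  · exact absurd h2' hvn'
  obtain rfl := lca_L hb hm h h4 (mem_pairUp h2).2 (h1.trans h3) h4' (mem_pairUp h2').2
    (h1'.trans h3')
  exact pairUp_snd_inj (ancs_nodup hb hm) h2 h2'

theorem FS_uniqR {x c v v' : ℕ} {t : BinaryTree ℕ} (hb : IsBST t) (hm : x ∈ inorder t)
    (h : c ≤ x) (hv : v ∈ Rg c (splay x t)) (hvx : v ≠ x) (hvn : v ∉ Rg c t)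
    (hv' : v' ∈ Rg c (splay x t)) (hvx' : v' ≠ x) (hvn' : v' ∉ Rg c t) : v = v' := by
  rcases (F2R hb hm h).1 hv with h1 | ⟨h1, h2 | ⟨g, h2, h3, h4⟩⟩
  · exact absurd h1 hvx
  · exact absurd h2 hvn
  rcases (F2R hb hm h).1 hv' with h1' | ⟨h1', h2' | ⟨g', h2', h3', h4'⟩⟩
  · exact absurd h1' hvx'
  · exact absurd h2' hvn'
  obtain rfl := lca_R hb hm h h4 (mem_pairUp h2).2 (h3.trans h1) h4' (mem_pairUp h2').2
    (h3'.trans h1')
  exact pairUp_snd_inj (ancs_nodup hb hm) h2 h2'

/-- counting: one side loses `pop` elements, the other one gains at most `min 1 pop`. -/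
theorem FS_count {A A' B B' P : Finset ℕ} (hA : A ∩ P = A')
    (h1 : (B' \ B).card ≤ 1) (h2 : (B' \ B).Nonempty → (A \ P).Nonempty) :
    A'.card + B'.card + (A \ P).card ≤ A.card + B.card + min 1 (A \ P).card := by
  have e1 : (A \ P).card + (A ∩ P).card = A.card := Finset.card_sdiff_add_card_inter A P
  have e2 : B'.card ≤ (B' \ B).card + B.card := Finset.card_le_card_sdiff_add_card
  rw [hA] at e1
  by_cases h : (B' \ B).Nonempty
  · have h3 := (h2 h).card_pos
    omega
  · rw [Finset.not_nonempty_iff_eq_empty] at h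
    rw [h, Finset.card_empty] at e2
    omega

theorem FS1 {x a a' : ℕ} {t : BinaryTree ℕ} (hb : IsBST t) (hm : x ∈ inorder t) (ha : a ≤ a')
    (hx : x < a ∨ a' ≤ x) :
    sig a a' (splay x t) + pop x a a' t ≤ sig a a' t + min 1 (pop x a a' t) := by
  by_cases hxa : x < a
  · have hxa' : x < a' := lt_of_lt_of_le hxa ha
    unfold sig pop
    rw [if_pos hxa]
    refine FS_count ?_ ?_ ?_
    · ext v
      rw [Finset.mem_inter, Finset.mem_filter, Finset.mem_filter]
      exact ⟨fun h => ⟨h.2, h.1.2⟩, fun h => ⟨⟨((F1R hb hm hxa).1 h.1).1, h.2⟩, h.1⟩⟩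
    · rw [Finset.card_le_one]
      intro v hv w hw
      rw [Finset.mem_sdiff, Finset.mem_filter, Finset.mem_filter, not_and] at hv hw
      exact FS_uniqL hb hm hxa' hv.1.1 (by have := hv.1.2; omega) (fun h => hv.2 h hv.1.2)
        hw.1.1 (by have := hw.1.2; omega) (fun h => hw.2 h hw.1.2)
    · rintro ⟨v, hv⟩
      rw [Finset.mem_sdiff, Finset.mem_filter, Finset.mem_filter, not_and] at hv
      obtain ⟨⟨h1, h2⟩, h3⟩ := hv
      rcases (F2L hb hm hxa').1 h1 with h4 | ⟨h4, h5 | ⟨g, h5, h6, h7⟩⟩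
      · omega
      · exact absurd h2 (h3 h5)
      refine ⟨g, ?_⟩
      rw [Finset.mem_sdiff, Finset.mem_filter]
      refine ⟨⟨anc_Rg hb hm hxa (mem_pairUp h5).2 (by omega), (mem_Lg.1 h7).2⟩, fun h8 => ?_⟩
      exact ((F1R hb hm hxa).1 h8).2 ⟨v, h5, h2⟩
  · have hxa' : a' ≤ x := by omega
    have hax : a ≤ x := by omega
    unfold sig pop
    rw [if_neg hxa, add_comm (Finset.card _) (Finset.card (Finset.filter (fun v => a ≤ v) _)),
      add_comm (Finset.card (Finset.filter (fun v => v < a') (Rg a t)))]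
    refine FS_count ?_ ?_ ?_
    · ext v
      rw [Finset.mem_inter, Finset.mem_filter, Finset.mem_filter]
      exact ⟨fun h => ⟨h.2, h.1.2⟩, fun h => ⟨⟨((F1L hb hm hxa').1 h.1).1, h.2⟩, h.1⟩⟩
    · rw [Finset.card_le_one]
      intro v hv w hw
      rw [Finset.mem_sdiff, Finset.mem_filter, Finset.mem_filter, not_and] at hv hw
      exact FS_uniqR hb hm hax hv.1.1 (by have := hv.1.2; omega) (fun h => hv.2 h hv.1.2)
        hw.1.1 (by have := hw.1.2; omega) (fun h => hw.2 h hw.1.2)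
    · rintro ⟨v, hv⟩
      rw [Finset.mem_sdiff, Finset.mem_filter, Finset.mem_filter, not_and] at hv
      obtain ⟨⟨h1, h2⟩, h3⟩ := hv
      rcases (F2R hb hm hax).1 h1 with h4 | ⟨h4, h5 | ⟨g, h5, h6, h7⟩⟩
      · omega
      · exact absurd h2 (h3 h5)
      refine ⟨g, ?_⟩
      rw [Finset.mem_sdiff, Finset.mem_filter]
      refine ⟨⟨anc_Lg hb hm hxa' (mem_pairUp h5).2 (by omega), (mem_Rg.1 h7).2⟩, fun h8 => ?_⟩
      exact ((F1L hb hm hxa').1 h8).2 ⟨v, h5, h2⟩

theorem FS_count2 {A A' C : Finset ℕ} {x : ℕ} (p : ℕ → Prop) [DecidablePred p]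
    (h1 : (A' \ insert x (A.filter p)).card ≤ 1) (h2 : C ⊆ A.filter (fun v => ¬ p v)) :
    A'.card + C.card ≤ A.card + 2 := by
  have e1 : A'.card ≤ (A' \ insert x (A.filter p)).card + (insert x (A.filter p)).card :=
    Finset.card_le_card_sdiff_add_card
  have e2 : (insert x (A.filter p)).card ≤ (A.filter p).card + 1 := Finset.card_insert_le _ _
  have e3 : (A.filter p).card + (A.filter (fun v => ¬ p v)).card = A.card := by
    rw [← Finset.card_union_of_disjoint (Finset.disjoint_filter_filter_not A A p),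
      Finset.filter_union_filter_not_eq]
  have e4 := Finset.card_le_card h2
  omega

theorem FS2 {x a a' : ℕ} {t : BinaryTree ℕ} (hb : IsBST t) (hm : x ∈ inorder t) (hx : a ≤ x)
    (hx' : x < a') : sig a a' (splay x t) + van x a a' t ≤ sig a a' t + 4 := by
  have e1 : ((Rg a (splay x t)).filter (fun v => v < a')).card +
      ((Rg a t).filter (fun u => x < u ∧ u < a')).card ≤
      ((Rg a t).filter (fun v => v < a')).card + 2 := by
    refine FS_count2 (x := x) (fun v => v < x) ?_ ?_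
    · rw [Finset.card_le_one]
      intro v hv w hw
      rw [Finset.mem_sdiff, Finset.mem_filter, Finset.mem_insert, Finset.mem_filter,
        Finset.mem_filter, not_or, not_and] at hv hw
      obtain ⟨⟨h1, h2⟩, h3, h4⟩ := hv
      obtain ⟨⟨h1', h2'⟩, h3', h4'⟩ := hw
      have h5 : v < x := by
        rcases (F2R hb hm hx).1 h1 with h | h
        · exact absurd h h3
        · exact h.1
      have h5' : w < x := by
        rcases (F2R hb hm hx).1 h1' with h | h
        · exact absurd h h3'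
        · exact h.1
      exact FS_uniqR hb hm hx h1 h3 (fun h => h4 ⟨h, h2⟩ h5) h1' h3' (fun h => h4' ⟨h, h2'⟩ h5')
    · intro v hv
      rw [Finset.mem_filter] at hv
      rw [Finset.mem_filter, Finset.mem_filter]
      exact ⟨⟨hv.1, hv.2.2⟩, by omega⟩
  have e2 : ((Lg a' (splay x t)).filter (fun v => a ≤ v)).card +
      ((Lg a' t).filter (fun u => u < x ∧ a ≤ u)).card ≤
      ((Lg a' t).filter (fun v => a ≤ v)).card + 2 := by
    refine FS_count2 (x := x) (fun v => x < v) ?_ ?_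
    · rw [Finset.card_le_one]
      intro v hv w hw
      rw [Finset.mem_sdiff, Finset.mem_filter, Finset.mem_insert, Finset.mem_filter,
        Finset.mem_filter, not_or, not_and] at hv hw
      obtain ⟨⟨h1, h2⟩, h3, h4⟩ := hv
      obtain ⟨⟨h1', h2'⟩, h3', h4'⟩ := hw
      have h5 : x < v := by
        rcases (F2L hb hm hx').1 h1 with h | h
        · exact absurd h h3
        · exact h.1
      have h5' : x < w := by
        rcases (F2L hb hm hx').1 h1' with h | h
        · exact absurd h h3'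
        · exact h.1
      exact FS_uniqL hb hm hx' h1 h3 (fun h => h4 ⟨h, h2⟩ h5) h1' h3' (fun h => h4' ⟨h, h2'⟩ h5')
    · intro v hv
      rw [Finset.mem_filter] at hv
      rw [Finset.mem_filter, Finset.mem_filter]
      exact ⟨⟨hv.1, hv.2.2⟩, by omega⟩
  unfold sig van
  omega

/-- A loss means that the path to `x` meets the block. -/
theorem pop_cnt {b i x : ℕ} {t : BinaryTree ℕ} (hb : IsBST t) (hm : x ∈ inorder t) (hi : i ≠ x / b)
    (h0 : 0 < b) : min 1 (pop x (i * b) ((i + 1) * b) t) ≤ cnt b i x t := by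
  rcases Nat.eq_zero_or_pos (pop x (i * b) ((i + 1) * b) t) with hp | hp
  · rw [hp]
    simp
  have key : ∀ v, v ∈ ancs x t → i * b ≤ v → v < (i + 1) * b → 0 < cnt b i x t := by
    intro v hv h1 h2
    unfold cnt
    rw [List.length_pos_iff_exists_mem]
    refine ⟨v, List.mem_filter.2 ⟨hv, ?_⟩⟩
    have h3 : v / b = i := by
      apply le_antisymm
      · exact Nat.lt_succ_iff.1 ((Nat.div_lt_iff_lt_mul h0).2 h2)
      · exact (Nat.le_div_iff_mul_le h0).2 h1
    simpa using h3
  suffices h : 0 < cnt b i x t by omega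
  by_cases hx : x < i * b
  · unfold pop at hp
    rw [if_pos hx] at hp
    obtain ⟨v, hv⟩ := Finset.card_pos.1 hp
    rw [Finset.mem_sdiff, Finset.mem_filter, F1R hb hm hx, not_and, not_not] at hv
    obtain ⟨⟨h1, h2⟩, h3⟩ := hv
    obtain ⟨p, hp1, hp2⟩ := h3 h1
    exact key v (mem_pairUp hp1).2 (mem_Rg.1 h1).2 h2
  · have hx' : (i + 1) * b ≤ x := by
      by_contra hc
      apply hi
      apply le_antisymm
      · exact (Nat.le_div_iff_mul_le h0).2 (by omega)
      · exact Nat.lt_succ_iff.1 ((Nat.div_lt_iff_lt_mul h0).2 (not_le.1 hc))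
    unfold pop at hp
    rw [if_neg hx] at hp
    obtain ⟨v, hv⟩ := Finset.card_pos.1 hp
    rw [Finset.mem_sdiff, Finset.mem_filter, F1L hb hm hx', not_and, not_not] at hv
    obtain ⟨⟨h1, h2⟩, h3⟩ := hv
    obtain ⟨p, hp1, hp2⟩ := h3 h1
    exact key v (mem_pairUp hp1).2 h2 (mem_Lg.1 h1).2

end Pool.Agent.SplPat
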