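import Pool.Agent.SplPat.Defs

set_option autoImplicit false

namespace Pool.Agent.SplPat

open BinaryTree Pool.Agent.MP_c42954_lc.Scan

/-! HINT (SPREL).  By strong induction on the depth (At / depth of Scan.Tree, `splay_induct`), or: both sides are
determined by the double steps from the bottom.  `splay x t = (splayStep x)^[depth x t] t`. -/

theorem SPREL_ev {x p g : ℕ} {t' A B : BinaryTree ℕ} (h : Ev x t' A B) :
    ∀ t, Dbl x p g t t' → Ev x t A B := by
  induction h with
  | base A B =>
    intro t hd
    cases hd with
    | ll A B C D h1 h2 => exact .ll h1 h2 (.base _ _)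
    | rr A B C D h1 h2 => exact .rr h1 h2 (.base _ _)
    | lr A B C D h1 h2 => exact .lr h1 h2 (.base _ _)
    | rl A B C D h1 h2 => exact .rl h1 h2 (.base _ _)
    | inL a r h1 h2 => omega
    | inR a l h1 h2 => omega
  | ll h1 h2 h3 ih =>
    intro t hd
    cases hd with
    | ll => omega
    | rr => omega
    | lr => omega
    | rl => omega
    | inL _ _ h4 h5 =>
      cases h5 with
      | ll => omega
      | rr => omega
      | lr => omega
      | rl => omega
      | inL _ _ h6 h7 => exact .ll h1 h2 (ih _ h7)
      | inR _ _ h6 h7 => omega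
    | inR _ _ h4 h5 => omega
  | lr h1 h2 h3 ih =>
    intro t hd
    cases hd with
    | ll => omega
    | rr => omega
    | lr => omega
    | rl => omega
    | inL _ _ h4 h5 =>
      cases h5 with
      | ll => omega
      | rr => omega
      | lr => omega
      | rl => omega
      | inL _ _ h6 h7 => omega
      | inR _ _ h6 h7 => exact .lr h1 h2 (ih _ h7)
    | inR _ _ h4 h5 => omega
  | rr h1 h2 h3 ih =>
    intro t hd
    cases hd with
    | ll => omega
    | rr => omega
    | lr => omega
    | rl => omega
    | inR _ _ h4 h5 =>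
      cases h5 with
      | ll => omega
      | rr => omega
      | lr => omega
      | rl => omega
      | inL _ _ h6 h7 => omega
      | inR _ _ h6 h7 => exact .rr h1 h2 (ih _ h7)
    | inL _ _ h4 h5 => omega
  | rl h1 h2 h3 ih =>
    intro t hd
    cases hd with
    | ll => omega
    | rr => omega
    | lr => omega
    | rl => omega
    | inR _ _ h4 h5 =>
      cases h5 with
      | ll => omega
      | rr => omega
      | lr => omega
      | rl => omega
      | inR _ _ h6 h7 => omega
      | inL _ _ h6 h7 => exact .rl h1 h2 (ih _ h7)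
    | inL _ _ h4 h5 => omega

theorem SPREL_spl {x p g : ℕ} {t t' A B : BinaryTree ℕ} (h : Spl x t' A B)
    (hd : Dbl x p g t t') : Spl x t A B := by
  cases h with
  | ev h => exact .ev (SPREL_ev h _ hd)
  | zl h1 h2 =>
    cases hd with
    | ll => omega
    | rr => omega
    | lr => omega
    | rl => omega
    | inR _ _ h4 h5 => omega
    | inL _ _ h4 h5 => exact .zl h1 (SPREL_ev h2 _ h5)
  | zr h1 h2 =>
    cases hd with
    | ll => omega
    | rr => omega
    | lr => omega
    | rl => omega
    | inL _ _ h4 h5 => omega
    | inR _ _ h4 h5 => exact .zr h1 (SPREL_ev h2 _ h5)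

/-- Splaying `x` gives `node x A B` with `Spl x t A B`. -/
theorem spl_exists {x : ℕ} {t : BinaryTree ℕ} (hb : IsBST t) (hm : x ∈ inorder t) :
    ∃ A B, Spl x t A B ∧ splay x t = .node x A B := by
  refine splay_induct (P := fun t t' => ∃ A B, Spl x t A B ∧ t' = .node x A B) ?_ ?_ ?_ hb hm
  · intro t _ h
    cases t with
    | nil => simp [At] at h
    | node a l r =>
      simp only [At] at h
      subst h
      exact ⟨l, r, .ev (.base l r), rfl⟩
  · intro y t t' _ _ _ hz
    cases hz with
    | left A B C h1 => exact ⟨A, .node y B C, .zl h1 (.base _ _), rfl⟩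
    | right A B C h1 => exact ⟨.node y C B, A, .zr h1 (.base _ _), rfl⟩
  · intro p g d t t' t'' _ _ _ _ _ hd ih
    obtain ⟨A, B, h1, h2⟩ := ih
    exact ⟨A, B, SPREL_spl h1 hd, h2⟩

end Pool.Agent.SplPat
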