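import Pool.Agent.SplPat.F2
import Pool.Agent.SplPat.SpRel

set_option autoImplicit false

namespace Pool.Agent.SplPat

open BinaryTree Pool.Agent.MP_c42954_lc.Scan

/-! HINT (FX).  By symmetry let x < lo (the other case: mirror, or the same proof with sides exchanged).  Only the
zigzigs with both nodes in [lo, hi) change `res lo hi t`: each is a rotation on the left spine of `res lo hi t`, which
changes only the edge from the upper node g to its parent and the edge from p to its right child C, so `edg`
grows by at most 2; and their upper nodes are exactly the nodes counted by `pop` (F1R with c = lo).  Induction over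
`Spl x t A B` (SpRel): for x < lo: `edg b (res lo hi B) ≤ edg b (res lo hi t) + 2 * (number of pairs in [lo, hi))`, with
a correction term for the root edge. -/

/-- The pairs with both nodes in `[lo, hi)`. -/
def FX_n (lo hi x : ℕ) (t : BinaryTree ℕ) : ℕ :=
  ((pairUp (ancs x t)).filter (fun q => lo ≤ q.1 ∧ q.1 < hi ∧ lo ≤ q.2 ∧ q.2 < hi)).length

theorem FX_pair : ∀ (l : List ℕ), Even l.length → ∀ p g : ℕ,
    pairUp (l ++ [p, g]) = pairUp l ++ [(p, g)] ∧ pairUp (l ++ [g]) = pairUp l
  | [], _, p, g => by simp [pairUp]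
  | [a], h, p, g => by simp at h
  | a :: c :: l, h, p, g => by
      have h' : Even l.length := by
        simp only [List.length_cons] at h
        rw [Nat.even_iff] at h ⊢
        omega
      obtain ⟨h1, h2⟩ := FX_pair l h' p g
      simp only [List.cons_append, pairUp, h1, h2, and_self]

theorem FX_ll {x p g : ℕ} {L C D : BinaryTree ℕ} (h1 : x < p) (h2 : x < g) :
    ancs x (.node g (.node p L C) D) = ancs x L ++ [p, g] := by
  simp only [ancs, if_neg (ne_of_lt h1), if_pos h1, if_neg (ne_of_lt h2), if_pos h2,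
    List.append_assoc, List.cons_append, List.nil_append]

theorem FX_lr {x p g : ℕ} {R C D : BinaryTree ℕ} (h1 : p < x) (h2 : x < g) :
    ancs x (.node g (.node p C R) D) = ancs x R ++ [p, g] := by
  simp only [ancs, if_neg (ne_of_gt h1), if_neg (not_lt.2 h1.le), if_neg (ne_of_lt h2), if_pos h2,
    List.append_assoc, List.cons_append, List.nil_append]

theorem FX_rr {x p g : ℕ} {R C D : BinaryTree ℕ} (h1 : p < x) (h2 : g < x) :
    ancs x (.node g D (.node p C R)) = ancs x R ++ [p, g] := by
  simp only [ancs, if_neg (ne_of_gt h1), if_neg (not_lt.2 h1.le), if_neg (ne_of_gt h2),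
    if_neg (not_lt.2 h2.le), List.append_assoc, List.cons_append, List.nil_append]

theorem FX_rl {x p g : ℕ} {L C D : BinaryTree ℕ} (h1 : x < p) (h2 : g < x) :
    ancs x (.node g D (.node p L C)) = ancs x L ++ [p, g] := by
  simp only [ancs, if_neg (ne_of_lt h1), if_pos h1, if_neg (ne_of_gt h2),
    if_neg (not_lt.2 h2.le), List.append_assoc, List.cons_append, List.nil_append]

theorem FX_even2 {l : List ℕ} {p g : ℕ} (h : Even l.length) : Even (l ++ [p, g]).length := by
  simp only [List.length_append, List.length_cons, List.length_nil]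
  rw [Nat.even_iff] at h ⊢
  omega

theorem FX_even {x : ℕ} {t A B : BinaryTree ℕ} (h : Ev x t A B) : Even (ancs x t).length := by
  induction h with
  | base A B => simp [ancs]
  | ll h1 h2 _ ih => rw [FX_ll h1 h2]; exact FX_even2 ih
  | lr h1 h2 _ ih => rw [FX_lr h1 h2]; exact FX_even2 ih
  | rr h1 h2 _ ih => rw [FX_rr h1 h2]; exact FX_even2 ih
  | rl h1 h2 _ ih => rw [FX_rl h1 h2]; exact FX_even2 ih

theorem FX_n_two {lo hi x p g : ℕ} {t L : BinaryTree ℕ} (he : Even (ancs x L).length)
    (h : ancs x t = ancs x L ++ [p, g]) :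
    FX_n lo hi x L ≤ FX_n lo hi x t ∧
      (lo ≤ p → p < hi → lo ≤ g → g < hi → FX_n lo hi x t = FX_n lo hi x L + 1) := by
  have h1 := (FX_pair (ancs x L) he p g).1
  constructor
  · simp only [FX_n, h, h1, List.filter_append, List.length_append]
    omega
  · intro k1 k2 k3 k4
    simp only [FX_n, h, h1, List.filter_append, List.length_append]
    simp [k1, k2, k3, k4]

theorem FX_n_one {lo hi x g : ℕ} {t L : BinaryTree ℕ} (he : Even (ancs x L).length)
    (h : ancs x t = ancs x L ++ [g]) : FX_n lo hi x t = FX_n lo hi x L := by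
  have h1 := (FX_pair (ancs x L) he g g).2
  simp only [FX_n, h, h1]

theorem FX_cross_le (b a : ℕ) (t : BinaryTree ℕ) : cross b a t ≤ 1 := by
  cases t with
  | nil => simp [cross]
  | node c l r =>
    simp only [cross]
    split_ifs <;> omega

theorem FX_cn (b a c : ℕ) (l r : BinaryTree ℕ) :
    cross b a (.node c l r) = if c / b = a / b then 0 else 1 := rfl

/-- The double rotation. -/
theorem FX_rot1 (b p g n : ℕ) (U V C D : BinaryTree ℕ)
    (h : edg b V + cross b p V ≤ edg b U + cross b p U + 2 * n) (a : ℕ) :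
    edg b (.node p V (.node g C D)) + cross b a (.node p V (.node g C D)) ≤
      edg b (.node g (.node p U C) D) + cross b a (.node g (.node p U C) D) + 2 * (n + 1) ∧
    edg b (.node p V (.node g C D)) ≤ edg b (.node g (.node p U C) D) + 2 * (n + 1) := by
  have h1 := FX_cross_le b g C
  simp only [edg]
  have e : cross b p (.node g C D) = cross b g (.node p U C) := by
    simp only [cross]
    by_cases h2 : g / b = p / b
    · rw [if_pos h2, if_pos h2.symm]
    · rw [if_neg h2, if_neg (fun h => h2 h.symm)]
  have h3 := FX_cross_le b a (.node p V (.node g C D))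
  omega

theorem FX_rot2 (b p g n : ℕ) (U V C D : BinaryTree ℕ)
    (h : edg b V + cross b p V ≤ edg b U + cross b p U + 2 * n) (a : ℕ) :
    edg b (.node p (.node g D C) V) + cross b a (.node p (.node g D C) V) ≤
      edg b (.node g D (.node p C U)) + cross b a (.node g D (.node p C U)) + 2 * (n + 1) ∧
    edg b (.node p (.node g D C) V) ≤ edg b (.node g D (.node p C U)) + 2 * (n + 1) := by
  have h1 := FX_cross_le b g C
  simp only [edg]
  have e : cross b p (.node g D C) = cross b g (.node p C U) := by
    simp only [cross]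
    by_cases h2 : g / b = p / b
    · rw [if_pos h2, if_pos h2.symm]
    · rw [if_neg h2, if_neg (fun h => h2 h.symm)]
  have h3 := FX_cross_le b a (.node p (.node g D C) V)
  omega

theorem FX_left {b lo hi x : ℕ} (hx : x < lo) {t A B : BinaryTree ℕ} (h : Ev x t A B)
    (hb : IsBST t) :
    (∀ a, edg b (res lo hi B) + cross b a (res lo hi B) ≤
      edg b (res lo hi t) + cross b a (res lo hi t) + 2 * FX_n lo hi x t) ∧
    edg b (res lo hi B) ≤ edg b (res lo hi t) + 2 * FX_n lo hi x t := by
  induction h with
  | base A B =>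
    have e : res lo hi (.node x A B) = res lo hi B := by simp only [res, if_pos hx]
    rw [e]
    exact ⟨fun a => by omega, by omega⟩
  | @ll p g L C D A B h1 h2 h3 ih =>
    obtain ⟨hb1, hb2, hb3, hb4⟩ := bst_node.1 hb
    have hpg : p < g := hb3 p (by simp [inorder])
    obtain ⟨ih1, ih2⟩ := ih (bst_node.1 hb1).1
    obtain ⟨n1, n2⟩ := FX_n_two (lo := lo) (hi := hi) (FX_even h3) (FX_ll (C := C) (D := D) h1 h2)
    by_cases hp : p < lo
    · by_cases hg : g < lo
      · simp only [res, if_pos hp, if_pos hg]
        exact ⟨fun a => by omega, by omega⟩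
      · by_cases hg2 : hi ≤ g
        · simp only [res, if_pos hp, if_neg hg, if_pos hg2]
          exact ⟨fun a => by omega, by omega⟩
        · simp only [res, if_pos hp, if_neg hg, if_neg hg2]
          exact ⟨fun a => by omega, by omega⟩
    · have hg : ¬ g < lo := by omega
      by_cases hp2 : hi ≤ p
      · have hg2 : hi ≤ g := by omega
        simp only [res, if_neg hp, if_neg hg, if_pos hp2, if_pos hg2]
        exact ⟨fun a => by have := ih1 a; omega, by omega⟩
      · by_cases hg2 : hi ≤ g
        · simp only [res, if_neg hp, if_neg hg, if_neg hp2, if_pos hg2, edg, FX_cn]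
          have := ih1 p
          exact ⟨fun a => by omega, by omega⟩
        · have n3 := n2 (not_lt.1 hp) (not_le.1 hp2) (not_lt.1 hg) (not_le.1 hg2)
          simp only [res, if_neg hp, if_neg hg, if_neg hp2, if_neg hg2]
          rw [n3]
          have key := FX_rot1 b p g (FX_n lo hi x L) (res lo hi L) (res lo hi B) (res lo hi C)
            (res lo hi D) (ih1 p)
          exact ⟨fun a => (key a).1, (key 0).2⟩
  | @lr p g R C D A B h1 h2 h3 ih =>
    obtain ⟨hb1, hb2, hb3, hb4⟩ := bst_node.1 hb
    obtain ⟨ih1, ih2⟩ := ih (bst_node.1 hb1).2.1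
    obtain ⟨n1, n2⟩ := FX_n_two (lo := lo) (hi := hi) (FX_even h3) (FX_lr (C := C) (D := D) h1 h2)
    have hp : p < lo := by omega
    by_cases hg : g < lo
    · simp only [res, if_pos hg]
      exact ⟨fun a => by omega, by omega⟩
    · by_cases hg2 : hi ≤ g
      · simp only [res, if_pos hp, if_neg hg, if_pos hg2]
        exact ⟨fun a => by have := ih1 a; omega, by omega⟩
      · simp only [res, if_pos hp, if_neg hg, if_neg hg2, edg, FX_cn]
        have := ih1 g
        exact ⟨fun a => by omega, by omega⟩
  | @rr p g R C D A B h1 h2 h3 ih =>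
    obtain ⟨hb1, hb2, hb3, hb4⟩ := bst_node.1 hb
    obtain ⟨ih1, ih2⟩ := ih (bst_node.1 hb2).2.1
    obtain ⟨n1, n2⟩ := FX_n_two (lo := lo) (hi := hi) (FX_even h3) (FX_rr (C := C) (D := D) h1 h2)
    have hp : p < lo := by omega
    have hg : g < lo := by omega
    simp only [res, if_pos hp, if_pos hg]
    exact ⟨fun a => by have := ih1 a; omega, by omega⟩
  | @rl p g L C D A B h1 h2 h3 ih =>
    obtain ⟨hb1, hb2, hb3, hb4⟩ := bst_node.1 hb
    obtain ⟨ih1, ih2⟩ := ih (bst_node.1 hb2).1
    obtain ⟨n1, n2⟩ := FX_n_two (lo := lo) (hi := hi) (FX_even h3) (FX_rl (C := C) (D := D) h1 h2)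
    have hg : g < lo := by omega
    by_cases hp : p < lo
    · simp only [res, if_pos hp, if_pos hg]
      exact ⟨fun a => by omega, by omega⟩
    · by_cases hp2 : hi ≤ p
      · simp only [res, if_neg hp, if_pos hg, if_pos hp2]
        exact ⟨fun a => by have := ih1 a; omega, by omega⟩
      · simp only [res, if_neg hp, if_pos hg, if_neg hp2, edg, FX_cn]
        have := ih1 p
        exact ⟨fun a => by omega, by omega⟩

theorem FX_right {b lo hi x : ℕ} (hx : hi ≤ x) (hlh : lo ≤ hi) {t A B : BinaryTree ℕ}
    (h : Ev x t A B) (hb : IsBST t) :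
    (∀ a, edg b (res lo hi A) + cross b a (res lo hi A) ≤
      edg b (res lo hi t) + cross b a (res lo hi t) + 2 * FX_n lo hi x t) ∧
    edg b (res lo hi A) ≤ edg b (res lo hi t) + 2 * FX_n lo hi x t := by
  induction h with
  | base A B =>
    have e : res lo hi (.node x A B) = res lo hi A := by
      simp only [res, if_neg (show ¬ x < lo by omega), if_pos hx]
    rw [e]
    exact ⟨fun a => by omega, by omega⟩
  | @ll p g L C D A B h1 h2 h3 ih =>
    obtain ⟨hb1, hb2, hb3, hb4⟩ := bst_node.1 hb
    obtain ⟨ih1, ih2⟩ := ih (bst_node.1 hb1).1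
    obtain ⟨n1, n2⟩ := FX_n_two (lo := lo) (hi := hi) (FX_even h3) (FX_ll (C := C) (D := D) h1 h2)
    have hp : ¬ p < lo := by omega
    have hg : ¬ g < lo := by omega
    have hp2 : hi ≤ p := by omega
    have hg2 : hi ≤ g := by omega
    simp only [res, if_neg hp, if_neg hg, if_pos hp2, if_pos hg2]
    exact ⟨fun a => by have := ih1 a; omega, by omega⟩
  | @lr p g R C D A B h1 h2 h3 ih =>
    obtain ⟨hb1, hb2, hb3, hb4⟩ := bst_node.1 hb
    obtain ⟨ih1, ih2⟩ := ih (bst_node.1 hb1).2.1
    obtain ⟨n1, n2⟩ := FX_n_two (lo := lo) (hi := hi) (FX_even h3) (FX_lr (C := C) (D := D) h1 h2)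
    have hg : ¬ g < lo := by omega
    have hg2 : hi ≤ g := by omega
    by_cases hp : p < lo
    · simp only [res, if_pos hp, if_neg hg, if_pos hg2]
      exact ⟨fun a => by have := ih1 a; omega, by omega⟩
    · by_cases hp2 : hi ≤ p
      · simp only [res, if_neg hp, if_neg hg, if_pos hp2, if_pos hg2]
        exact ⟨fun a => by omega, by omega⟩
      · simp only [res, if_neg hp, if_neg hg, if_neg hp2, if_pos hg2, edg, FX_cn]
        have := ih1 p
        exact ⟨fun a => by omega, by omega⟩
  | @rr p g R C D A B h1 h2 h3 ih =>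
    obtain ⟨hb1, hb2, hb3, hb4⟩ := bst_node.1 hb
    have hpg : g < p := hb4 p (by simp [inorder])
    obtain ⟨ih1, ih2⟩ := ih (bst_node.1 hb2).2.1
    obtain ⟨n1, n2⟩ := FX_n_two (lo := lo) (hi := hi) (FX_even h3) (FX_rr (C := C) (D := D) h1 h2)
    by_cases hp2 : hi ≤ p
    · have hp : ¬ p < lo := by omega
      by_cases hg2 : hi ≤ g
      · have hg : ¬ g < lo := by omega
        simp only [res, if_neg hp, if_neg hg, if_pos hp2, if_pos hg2]
        exact ⟨fun a => by omega, by omega⟩
      · by_cases hg : g < lo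
        · simp only [res, if_neg hp, if_pos hg, if_pos hp2]
          exact ⟨fun a => by omega, by omega⟩
        · simp only [res, if_neg hp, if_neg hg, if_pos hp2, if_neg hg2]
          exact ⟨fun a => by omega, by omega⟩
    · have hg2 : ¬ hi ≤ g := by omega
      by_cases hp : p < lo
      · have hg : g < lo := by omega
        simp only [res, if_pos hp, if_pos hg]
        exact ⟨fun a => by have := ih1 a; omega, by omega⟩
      · by_cases hg : g < lo
        · simp only [res, if_neg hp, if_pos hg, if_neg hp2, edg, FX_cn]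
          have := ih1 p
          exact ⟨fun a => by omega, by omega⟩
        · have n3 := n2 (not_lt.1 hp) (not_le.1 hp2) (not_lt.1 hg) (not_le.1 hg2)
          simp only [res, if_neg hp, if_neg hg, if_neg hp2, if_neg hg2]
          rw [n3]
          have key := FX_rot2 b p g (FX_n lo hi x R) (res lo hi R) (res lo hi A) (res lo hi C)
            (res lo hi D) (ih1 p)
          exact ⟨fun a => (key a).1, (key 0).2⟩
  | @rl p g L C D A B h1 h2 h3 ih =>
    obtain ⟨hb1, hb2, hb3, hb4⟩ := bst_node.1 hb
    obtain ⟨ih1, ih2⟩ := ih (bst_node.1 hb2).1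
    obtain ⟨n1, n2⟩ := FX_n_two (lo := lo) (hi := hi) (FX_even h3) (FX_rl (C := C) (D := D) h1 h2)
    have hp : ¬ p < lo := by omega
    have hp2 : hi ≤ p := by omega
    by_cases hg2 : hi ≤ g
    · have hg : ¬ g < lo := by omega
      simp only [res, if_neg hg, if_pos hg2]
      exact ⟨fun a => by omega, by omega⟩
    · by_cases hg : g < lo
      · simp only [res, if_neg hp, if_pos hg, if_pos hp2]
        exact ⟨fun a => by have := ih1 a; omega, by omega⟩
      · simp only [res, if_neg hp, if_neg hg, if_pos hp2, if_neg hg2, edg, FX_cn]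
        have := ih1 g
        exact ⟨fun a => by omega, by omega⟩

theorem FX_snd : ∀ l : List ℕ, ((pairUp l).map Prod.snd).Sublist l
  | [] => by simp [pairUp]
  | [a] => by simp [pairUp]
  | a :: c :: l => by
      simp only [pairUp, List.map_cons]
      exact ((FX_snd l).cons_cons c).cons a

theorem FX_pop {x lo hi : ℕ} {t : BinaryTree ℕ} (hb : IsBST t) (hm : x ∈ inorder t)
    (h1 : x < lo ∨ hi ≤ x) (h2 : lo ≤ hi) : FX_n lo hi x t ≤ pop x lo hi t := by
  set F := (pairUp (ancs x t)).filter (fun q => lo ≤ q.1 ∧ q.1 < hi ∧ lo ≤ q.2 ∧ q.2 < hi) with hF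
  have hnd : (F.map Prod.snd).Nodup :=
    ((List.filter_sublist.map Prod.snd).trans (FX_snd (ancs x t))).nodup (ancs_nodup hb hm)
  have hlen : FX_n lo hi x t = (F.map Prod.snd).toFinset.card := by
    rw [List.toFinset_card_of_nodup hnd, List.length_map]
    rfl
  have hmem : ∀ v, v ∈ (F.map Prod.snd).toFinset → ∃ p, (p, v) ∈ pairUp (ancs x t) ∧ lo ≤ p ∧
      p < hi ∧ lo ≤ v ∧ v < hi := by
    intro v hv
    rw [List.mem_toFinset, List.mem_map] at hv
    obtain ⟨⟨p, g⟩, hq, rfl⟩ := hv
    rw [hF, List.mem_filter] at hq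
    obtain ⟨hq1, hq2⟩ := hq
    simp only [decide_eq_true_eq] at hq2
    exact ⟨p, hq1, hq2⟩
  rw [hlen, pop]
  rcases h1 with h1 | h1
  · rw [if_pos h1]
    apply Finset.card_le_card
    intro v hv
    obtain ⟨p, hp, k1, k2, k3, k4⟩ := hmem v hv
    rw [Finset.mem_sdiff, Finset.mem_filter]
    refine ⟨⟨anc_Rg hb hm h1 (mem_pairUp hp).2 k3, k4⟩, ?_⟩
    rw [F1R hb hm h1]
    rintro ⟨_, h3⟩
    exact h3 ⟨p, hp, k1⟩
  · rw [if_neg (show ¬ x < lo by omega)]
    apply Finset.card_le_card
    intro v hv
    obtain ⟨p, hp, k1, k2, k3, k4⟩ := hmem v hv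
    rw [Finset.mem_sdiff, Finset.mem_filter]
    refine ⟨⟨anc_Lg hb hm h1 (mem_pairUp hp).2 k4, k3⟩, ?_⟩
    rw [F1L hb hm h1]
    rintro ⟨_, h3⟩
    exact h3 ⟨p, hp, k2⟩

theorem FX {b lo hi x : ℕ} {t : BinaryTree ℕ} (hb : IsBST t) (hm : x ∈ inorder t) (h0 : 0 < b)
    (h1 : x < lo ∨ hi ≤ x) (h2 : lo ≤ hi) :
    edg b (res lo hi (splay x t)) ≤ edg b (res lo hi t) + 2 * pop x lo hi t := by
  have hpop := FX_pop hb hm h1 h2
  obtain ⟨A, B, hS, hs⟩ := spl_exists hb hm
  rw [hs]
  suffices h : edg b (res lo hi (.node x A B)) ≤ edg b (res lo hi t) + 2 * FX_n lo hi x t by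
    omega
  rcases h1 with h1 | h1
  · have e : res lo hi (.node x A B) = res lo hi B := by simp only [res, if_pos h1]
    rw [e]
    cases hS with
    | ev h => exact (FX_left h1 h hb).2
    | @zl g L D A B h3 h =>
      have hn := FX_n_one (t := .node g L D) (lo := lo) (hi := hi) (g := g) (FX_even h)
        (by simp only [ancs, if_neg (ne_of_lt h3), if_pos h3])
      obtain ⟨k1, k2⟩ := FX_left (b := b) (hi := hi) h1 h (bst_node.1 hb).1
      rw [hn]
      by_cases hg : g < lo
      · simp only [res, if_pos hg]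
        omega
      · by_cases hg2 : hi ≤ g
        · simp only [res, if_neg hg, if_pos hg2]
          omega
        · simp only [res, if_neg hg, if_neg hg2, edg]
          have := k1 g
          omega
    | @zr g R D A B h3 h =>
      have hn := FX_n_one (t := .node g D R) (lo := lo) (hi := hi) (g := g) (FX_even h)
        (by simp only [ancs, if_neg (ne_of_gt h3), if_neg (not_lt.2 h3.le)])
      obtain ⟨k1, k2⟩ := FX_left (b := b) (hi := hi) h1 h (bst_node.1 hb).2.1
      rw [hn]
      have hg : g < lo := by omega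
      simp only [res, if_pos hg]
      exact k2
  · have e : res lo hi (.node x A B) = res lo hi A := by
      simp only [res, if_neg (show ¬ x < lo by omega), if_pos h1]
    rw [e]
    cases hS with
    | ev h => exact (FX_right h1 h2 h hb).2
    | @zl g L D A B h3 h =>
      have hn := FX_n_one (t := .node g L D) (lo := lo) (hi := hi) (g := g) (FX_even h)
        (by simp only [ancs, if_neg (ne_of_lt h3), if_pos h3])
      obtain ⟨k1, k2⟩ := FX_right (b := b) h1 h2 h (bst_node.1 hb).1
      rw [hn]
      have hg : ¬ g < lo := by omega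
      have hg2 : hi ≤ g := by omega
      simp only [res, if_neg hg, if_pos hg2]
      exact k2
    | @zr g R D A B h3 h =>
      have hn := FX_n_one (t := .node g D R) (lo := lo) (hi := hi) (g := g) (FX_even h)
        (by simp only [ancs, if_neg (ne_of_gt h3), if_neg (not_lt.2 h3.le)])
      obtain ⟨k1, k2⟩ := FX_right (b := b) h1 h2 h (bst_node.1 hb).2.1
      rw [hn]
      by_cases hg : g < lo
      · simp only [res, if_pos hg]
        exact k2
      · by_cases hg2 : hi ≤ g
        · simp only [res, if_neg hg, if_pos hg2]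
          omega
        · simp only [res, if_neg hg, if_neg hg2, edg]
          have := k1 g
          omega

/-- The number of nodes. -/
def FX_size : BinaryTree ℕ → ℕ
  | .nil => 0
  | .node _ l r => FX_size l + FX_size r + 1

theorem FX_edg_le (b : ℕ) : ∀ t : BinaryTree ℕ, edg b t ≤ FX_size t ∧
    ∀ a, edg b t + cross b a t ≤ FX_size t
  | .nil => by simp [edg, cross, FX_size]
  | .node c l r => by
      have h1 := (FX_edg_le b l).2 c
      have h2 := (FX_edg_le b r).2 c
      simp only [edg, FX_size]
      refine ⟨by omega, fun a => ?_⟩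
      have := FX_cross_le b a (.node c l r)
      omega

theorem FX_res_inorder (lo hi : ℕ) : ∀ t : BinaryTree ℕ,
    (inorder (res lo hi t)).Sublist (inorder t) ∧
    (∀ v ∈ inorder (res lo hi t), lo ≤ v ∧ v < hi) ∧
    (inorder (res lo hi t)).length = FX_size (res lo hi t)
  | .nil => by simp [res, inorder, FX_size]
  | .node a l r => by
      obtain ⟨l1, l2, l3⟩ := FX_res_inorder lo hi l
      obtain ⟨r1, r2, r3⟩ := FX_res_inorder lo hi r
      by_cases h : a < lo
      · simp only [res, if_pos h]
        refine ⟨?_, r2, r3⟩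
        exact (r1.trans (List.sublist_cons_self _ _)).trans (List.sublist_append_right _ _)
      · by_cases h2 : hi ≤ a
        · simp only [res, if_neg h, if_pos h2]
          exact ⟨l1.trans (List.sublist_append_left _ _), l2, l3⟩
        · simp only [res, if_neg h, if_neg h2, inorder]
          refine ⟨l1.append (r1.cons_cons a), ?_, ?_⟩
          · intro v hv
            rw [List.mem_append, List.mem_cons] at hv
            rcases hv with hv | rfl | hv
            · exact l2 v hv
            · exact ⟨by omega, by omega⟩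
            · exact r2 v hv
          · simp only [List.length_append, List.length_cons, FX_size, l3, r3]
            omega

theorem edg_res_le {b lo hi : ℕ} {t : BinaryTree ℕ} (hb : IsBST t) :
    edg b (res lo hi t) ≤ hi - lo := by
  obtain ⟨h1, h2, h3⟩ := FX_res_inorder lo hi t
  refine (FX_edg_le b (res lo hi t)).1.trans ?_
  rw [← h3]
  have hnd : (inorder (res lo hi t)).Nodup := (List.Pairwise.sublist h1 hb).imp (fun h => ne_of_lt h)
  rw [← List.toFinset_card_of_nodup hnd, ← Nat.card_Ico]
  apply Finset.card_le_card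
  intro v hv
  rw [List.mem_toFinset] at hv
  rw [Finset.mem_Ico]
  exact h2 v hv

end Pool.Agent.SplPat
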