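import Pool.Agent.SplPat.Defs

set_option autoImplicit false

namespace Pool.Agent.SplPat

open BinaryTree Pool.Agent.MP_c42954_lc.Scan

/-! HINT (DEPTH).  Every proper ancestor v of x has v ≠ x; let j be the largest index ≤ l with v / bs j ≠ x / bs j
(bs 0 = 1, so j = 0 qualifies): v is counted at level j (if j < l then v / bs (j+1) = x / bs (j+1)). -/

private theorem DEPTH_list (l : ℕ) (P : ℕ → ℕ → Prop) (Q : ℕ → Prop)
    [∀ j, DecidablePred (P j)] [DecidablePred Q] :
    ∀ L : List ℕ, (∀ v ∈ L, (∃ j < l, P j v) ∨ Q v) →
    L.length ≤ ∑ j ∈ Finset.range l, (L.filter (fun v => P j v)).length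
      + (L.filter (fun v => Q v)).length
  | [], _ => by simp
  | a :: L, h => by
      have ih := DEPTH_list l P Q L (fun v hv => h v (List.mem_cons_of_mem _ hv))
      have h1 : ∀ j, ((a :: L).filter (fun v => P j v)).length =
          (if P j a then 1 else 0) + (L.filter (fun v => P j v)).length := by
        intro j
        by_cases hp : P j a
        · simp [hp, add_comm]
        · simp [hp]
      have h2 : ((a :: L).filter (fun v => Q v)).length =
          (if Q a then 1 else 0) + (L.filter (fun v => Q v)).length := by
        by_cases hp : Q a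
        · simp [hp, add_comm]
        · simp [hp]
      simp only [h1, h2, Finset.sum_add_distrib, List.length_cons]
      have h3 : 1 ≤ ∑ j ∈ Finset.range l, (if P j a then 1 else 0) + (if Q a then 1 else 0) := by
        rcases h a List.mem_cons_self with ⟨j, hj, hp⟩ | hq
        · have : (if P j a then 1 else 0) ≤ ∑ j ∈ Finset.range l, (if P j a then 1 else 0) :=
            Finset.single_le_sum (f := fun j => if P j a then 1 else 0)
              (fun i _ => Nat.zero_le _) (Finset.mem_range.2 hj)
          rw [if_pos hp] at this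
          omega
        · rw [if_pos hq]
          omega
      omega

theorem depth_le {x M l : ℕ} {t : BinaryTree ℕ} (bs : ℕ → ℕ) (hb : IsBST t) (hx : x ∈ inorder t)
    (hM : ∀ v ∈ inorder t, v < M) (h0 : bs 0 = 1) (hpos : ∀ j, 0 < bs j) :
    depth x t ≤ ∑ j ∈ Finset.range l, dJ (bs j) (bs (j + 1) * (x / bs (j + 1)))
        (bs (j + 1) * (x / bs (j + 1)) + bs (j + 1)) x t + dJ (bs l) 0 M x t := by
  rw [← ancs_length]
  have key := DEPTH_list l
    (fun j v => (bs (j + 1) * (x / bs (j + 1)) ≤ v ∧
      v < bs (j + 1) * (x / bs (j + 1)) + bs (j + 1)) ∧ v / bs j ≠ x / bs j)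
    (fun v => (0 ≤ v ∧ v < M) ∧ v / bs l ≠ x / bs l) (ancs x t) ?_
  · refine key.trans (le_of_eq ?_)
    unfold dJ ancJ
    congr 1
    · refine Finset.sum_congr rfl (fun j _ => ?_)
      rw [List.filter_filter]
      congr 1
      refine List.filter_congr (fun v _ => ?_)
      simp [and_comm]
    · rw [List.filter_filter]
      congr 1
      refine List.filter_congr (fun v _ => ?_)
      simp [and_comm]
  · intro v hv
    obtain ⟨hv1, hv2⟩ := (mem_ancs hb hx).1 hv
    have hvM := hM v (onP_mem hv1)
    by_cases hl : v / bs l = x / bs l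
    · left
      -- the least `j` with equality from `j` on
      have hex : ∃ j, v / bs j = x / bs j := ⟨l, hl⟩
      -- induction on l
      have aux : ∀ l, v / bs l = x / bs l → ∃ j < l, v / bs (j + 1) = x / bs (j + 1) ∧
          v / bs j ≠ x / bs j := by
        intro l
        induction l with
        | zero =>
          intro h
          rw [h0, Nat.div_one, Nat.div_one] at h
          exact absurd h hv2
        | succ l ih =>
          intro h
          by_cases h' : v / bs l = x / bs l
          · obtain ⟨j, hj, hj'⟩ := ih h'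
            exact ⟨j, by omega, hj'⟩
          · exact ⟨l, by omega, h, h'⟩
      obtain ⟨j, hj, h1, h2⟩ := aux l hl
      refine ⟨j, hj, ⟨?_, ?_⟩, h2⟩
      · rw [← h1]
        exact Nat.mul_div_le _ _
      · rw [← h1]
        have h3 := Nat.div_add_mod v (bs (j + 1))
        have h4 := Nat.mod_lt v (hpos (j + 1))
        omega
    · right
      exact ⟨⟨Nat.zero_le _, hvM⟩, hl⟩

end Pool.Agent.SplPat
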