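import Pool.Agent.SplPat.F2

set_option autoImplicit false

namespace Pool.Agent.SplPat

open BinaryTree Pool.Agent.MP_c42954_lc.Scan

/-! HINT (FD).  The elements of `ancs x t` in the block i form `rs` maximal runs of adjacent nodes; all of them are
on the same side of x.  A run of length k contains at least (k - 2) / 2 pairs of `pairUp (ancs x t)` (consecutive
elements of the list are paired from the front), and by F1R (x < i b) or F1L (x ≥ (i+1) b) each pair inside the block
loses its upper node.  Pure list induction: for every list l and decidable S,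
`(l.filter S).length ≤ 2 * ((pairUp l).filter (fun q => S q.1 ∧ S q.2)).length + 2 * runs S false l`. -/

theorem FD_runs (S : ℕ → Bool) : ∀ (l : List ℕ) (prev : Bool),
    (l.filter S).length ≤
      2 * ((pairUp l).filter (fun q => S q.1 && S q.2)).length + 2 * runs S prev l +
        (if prev then 1 else 0)
  | [], prev => by simp
  | [a], prev => by
      cases hprev : prev <;> cases ha : S a <;> simp [pairUp, runs, ha]
  | a :: b :: l, prev => by
      have ih := FD_runs S l (S b)
      cases hprev : prev <;> cases ha : S a <;> cases hb : S b <;>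
        simp only [hb] at ih <;> simp [pairUp, runs, ha, hb] at ih ⊢ <;> omega

theorem runs_pairs (S : ℕ → Bool) (l : List ℕ) :
    (l.filter S).length ≤
      2 * ((pairUp l).filter (fun q => S q.1 && S q.2)).length + 2 * runs S false l := by
  have := FD_runs S l false
  simpa using this

theorem FD_snd_sublist : ∀ l : List ℕ, ((pairUp l).map Prod.snd).Sublist l
  | [] => by simp [pairUp]
  | [a] => by simp [pairUp]
  | a :: b :: l => by
      simp only [pairUp, List.map_cons]
      exact ((FD_snd_sublist l).cons_cons b).cons a

theorem FD {b i x : ℕ} {t : BinaryTree ℕ} (hb : IsBST t) (hm : x ∈ inorder t) (h0 : 0 < b)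
    (hi : i ≠ x / b) :
    cnt b i x t ≤ 2 * pop x (i * b) ((i + 1) * b) t + 2 * rs b i x t := by
  set S : ℕ → Bool := fun v => decide (v / b = i) with hS
  have h1 := runs_pairs S (ancs x t)
  have h2 : ((pairUp (ancs x t)).filter (fun q => S q.1 && S q.2)).length ≤
      pop x (i * b) ((i + 1) * b) t := by
    set L := (pairUp (ancs x t)).filter (fun q => S q.1 && S q.2) with hL
    have hnd : (L.map Prod.snd).Nodup := by
      refine List.Nodup.sublist ?_ (ancs_nodup hb hm)
      exact (List.Sublist.map Prod.snd List.filter_sublist).trans (FD_snd_sublist _)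
    have hlen : L.length = (L.map Prod.snd).toFinset.card := by
      rw [List.toFinset_card_of_nodup hnd, List.length_map]
    rw [hlen]
    have hmem : ∀ v ∈ (L.map Prod.snd).toFinset, ∃ p, (p, v) ∈ pairUp (ancs x t) ∧
        p / b = i ∧ v / b = i := by
      intro v hv
      rw [List.mem_toFinset, List.mem_map] at hv
      obtain ⟨⟨p, w⟩, hq, rfl⟩ := hv
      rw [hL, List.mem_filter] at hq
      obtain ⟨hq1, hq2⟩ := hq
      simp only [hS, Bool.and_eq_true, decide_eq_true_eq] at hq2
      exact ⟨p, hq1, hq2.1, hq2.2⟩
    have hblk : ∀ v, v / b = i → i * b ≤ v ∧ v < (i + 1) * b := by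
      intro v hv
      rw [← hv]
      exact ⟨Nat.div_mul_le_self v b, by
        have h9 := Nat.lt_mul_div_succ v h0
        rw [mul_comm] at h9
        exact h9⟩
    unfold pop
    by_cases hx : x < i * b
    · rw [if_pos hx]
      refine Finset.card_le_card fun v hv => ?_
      obtain ⟨p, hp, hpi, hvi⟩ := hmem v hv
      have h3 := mem_pairUp hp
      obtain ⟨h4, h5⟩ := hblk v hvi
      obtain ⟨h6, h7⟩ := hblk p hpi
      rw [Finset.mem_sdiff, Finset.mem_filter, F1R hb hm hx]
      refine ⟨⟨anc_Rg hb hm hx h3.2 h4, h5⟩, ?_⟩
      rintro ⟨_, h8⟩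
      exact h8 ⟨p, hp, h6⟩
    · rw [if_neg hx]
      have hx' : (i + 1) * b ≤ x := by
        by_contra hcon
        apply hi
        symm
        rw [Nat.div_eq_iff h0]
        push Not at hx hcon
        constructor
        · exact hx
        · have : (i + 1) * b = i * b + b := by ring
          omega
      refine Finset.card_le_card fun v hv => ?_
      obtain ⟨p, hp, hpi, hvi⟩ := hmem v hv
      have h3 := mem_pairUp hp
      obtain ⟨h4, h5⟩ := hblk v hvi
      obtain ⟨h6, h7⟩ := hblk p hpi
      rw [Finset.mem_sdiff, Finset.mem_filter, F1L hb hm hx']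
      refine ⟨⟨anc_Lg hb hm hx' h3.2 h5, h4⟩, ?_⟩
      rintro ⟨_, h8⟩
      exact h8 ⟨p, hp, h7⟩
  have h3 : cnt b i x t = ((ancs x t).filter S).length := rfl
  have h4 : rs b i x t = runs S false (ancs x t) := rfl
  rw [h3, h4]
  omega

end Pool.Agent.SplPat
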