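import Pool.Agent.SplPat.SpRel

set_option autoImplicit false

namespace Pool.Agent.SplPat

open BinaryTree Pool.Agent.MP_c42954_lc.Scan

/-- The block of the last element of a list (`k` if the list is empty). -/
def FElast (b : ℕ) : ℕ → List ℕ → ℕ
  | k, [] => k
  | _, a :: l => FElast b (a / b) l

theorem FE_chg_append' (b k g : ℕ) (l : List ℕ) :
    chg b k (l ++ [g]) = chg b k l + chg b (FElast b k l) [g] := by
  induction l generalizing k with
  | nil =>
    show chg b k [g] = 0 + chg b k [g]
    rw [zero_add]
  | cons a l ih =>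
    show (if a / b = k then 0 else 1) + chg b (a / b) (l ++ [g]) =
      ((if a / b = k then 0 else 1) + chg b (a / b) l) + chg b (FElast b (a / b) l) [g]
    rw [ih, add_assoc]

theorem FE_chg_append (b k g : ℕ) (l : List ℕ) :
    chg b k (l ++ [g]) = chg b k l + (if g / b = FElast b k l then 0 else 1) := by
  rw [FE_chg_append']
  rfl

theorem FE_last_append (b k g : ℕ) (l : List ℕ) : FElast b k (l ++ [g]) = g / b := by
  induction l generalizing k with
  | nil => rfl
  | cons a l ih => simp only [List.cons_append, FElast, ih]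

theorem FE_ancs_lt {x a : ℕ} {l r : BinaryTree ℕ} (h : x < a) :
    ancs x (.node a l r) = ancs x l ++ [a] := by
  have h1 : x ≠ a := by omega
  simp [ancs, h1, h]

theorem FE_ancs_gt {x a : ℕ} {l r : BinaryTree ℕ} (h : a < x) :
    ancs x (.node a l r) = ancs x r ++ [a] := by
  have h1 : x ≠ a := by omega
  have h2 : ¬ x < a := by omega
  simp [ancs, h1, h2]

theorem FE_ancJ_lt_in {lo hi x a : ℕ} {l r : BinaryTree ℕ} (h : x < a) (h1 : lo ≤ a)
    (h2 : a < hi) : ancJ lo hi x (.node a l r) = ancJ lo hi x l ++ [a] := by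
  unfold ancJ
  rw [FE_ancs_lt h, List.filter_append]
  simp [h1, h2]

theorem FE_ancJ_lt_out {lo hi x a : ℕ} {l r : BinaryTree ℕ} (h : x < a)
    (h2 : hi ≤ a) : ancJ lo hi x (.node a l r) = ancJ lo hi x l := by
  unfold ancJ
  rw [FE_ancs_lt h, List.filter_append]
  have : ¬ a < hi := by omega
  simp [this]

theorem FE_ancJ_gt_in {lo hi x a : ℕ} {l r : BinaryTree ℕ} (h : a < x) (h1 : lo ≤ a)
    (h2 : a < hi) : ancJ lo hi x (.node a l r) = ancJ lo hi x r ++ [a] := by
  unfold ancJ
  rw [FE_ancs_gt h, List.filter_append]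
  simp [h1, h2]

theorem FE_ancJ_gt_out {lo hi x a : ℕ} {l r : BinaryTree ℕ} (h : a < x)
    (h2 : a < lo) : ancJ lo hi x (.node a l r) = ancJ lo hi x r := by
  unfold ancJ
  rw [FE_ancs_gt h, List.filter_append]
  have : ¬ lo ≤ a := by omega
  simp [this]

theorem FE_res_lo {lo hi a : ℕ} {l r : BinaryTree ℕ} (h : a < lo) :
    res lo hi (.node a l r) = res lo hi r := by
  simp [res, h]

theorem FE_res_hi {lo hi a : ℕ} {l r : BinaryTree ℕ} (h1 : lo ≤ a) (h : hi ≤ a) :
    res lo hi (.node a l r) = res lo hi l := by
  have h2 : ¬ a < lo := by omega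
  simp [res, h, h2]

theorem FE_res_in {lo hi a : ℕ} {l r : BinaryTree ℕ} (h1 : lo ≤ a) (h : a < hi) :
    res lo hi (.node a l r) = .node a (res lo hi l) (res lo hi r) := by
  have h2 : ¬ a < lo := by omega
  have h3 : ¬ hi ≤ a := by omega
  simp [res, h2, h3]

theorem FE_res_mem {lo hi v : ℕ} : ∀ {t : BinaryTree ℕ}, v ∈ inorder (res lo hi t) →
    v ∈ inorder t ∧ lo ≤ v ∧ v < hi
  | .nil, h => by simp [res, inorder] at h
  | .node a l r, h => by
      rcases lt_or_ge a lo with h1 | h1
      · rw [FE_res_lo h1] at h
        obtain ⟨h2, h3⟩ := FE_res_mem h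
        exact ⟨by simp [inorder, h2], h3⟩
      · rcases lt_or_ge a hi with h4 | h4
        · rw [FE_res_in h1 h4] at h
          simp only [inorder, List.mem_append, List.mem_cons] at h
          rcases h with h | h | h
          · obtain ⟨h2, h3⟩ := FE_res_mem h
            exact ⟨by simp [inorder, h2], h3⟩
          · subst h
            exact ⟨by simp [inorder], h1, h4⟩
          · obtain ⟨h2, h3⟩ := FE_res_mem h
            exact ⟨by simp [inorder, h2], h3⟩
        · rw [FE_res_hi h1 h4] at h
          obtain ⟨h2, h3⟩ := FE_res_mem h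
          exact ⟨by simp [inorder, h2], h3⟩

theorem FE_res_root {lo hi r : ℕ} {t l1 l2 : BinaryTree ℕ} (h : res lo hi t = .node r l1 l2) :
    r ∈ inorder t ∧ lo ≤ r ∧ r < hi := by
  apply FE_res_mem
  rw [h]; simp [inorder]

theorem FE_cross_node (b a c : ℕ) (l r : BinaryTree ℕ) :
    cross b a (.node c l r) = if c / b = a / b then 0 else 1 := rfl

theorem FE_cross_le (b a : ℕ) (t : BinaryTree ℕ) : cross b a t ≤ 1 := by
  cases t with
  | nil => simp [cross]
  | node c l r => simp only [cross]; split_ifs <;> omega

theorem FE_cross_eq {b a a' : ℕ} (h : a / b = a' / b) (t : BinaryTree ℕ) :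
    cross b a t = cross b a' t := by
  cases t with
  | nil => simp [cross]
  | node c l r => simp only [cross, h]

/-- The restricted tree of a subtree containing `x` has the last path node as root. -/
theorem FE_cross_res {b lo hi x p : ℕ} (h1 : lo ≤ x) (h2 : x < hi) : ∀ {t : BinaryTree ℕ},
    IsBST t → x ∈ inorder t →
    cross b p (res lo hi t) = if p / b = FElast b (x / b) (ancJ lo hi x t) then 0 else 1
  | .nil, _, h => by simp [inorder] at h
  | .node a l r, hb, h => by
      obtain ⟨hl, hr, hla, hra⟩ := bst_node.1 hb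
      simp only [inorder, List.mem_append, List.mem_cons] at h
      rcases h with h | h | h
      · have hx := hla x h
        rcases lt_or_ge a hi with h4 | h4
        · rw [FE_res_in (by omega) h4, FE_ancJ_lt_in hx (by omega) h4, FE_last_append]
          simp only [cross, eq_comm]
        · rw [FE_res_hi (by omega) h4, FE_ancJ_lt_out hx h4]
          exact FE_cross_res h1 h2 hl h
      · subst h
        rw [FE_res_in h1 h2]
        simp only [cross, ancJ, ancs, if_true, List.filter_nil, FElast, eq_comm]
      · have hx := hra x h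
        rcases lt_or_ge a lo with h4 | h4
        · rw [FE_res_lo h4, FE_ancJ_gt_out hx h4]
          exact FE_cross_res h1 h2 hr h
        · rw [FE_res_in h4 (by omega), FE_ancJ_gt_in hx h4 (by omega), FE_last_append]
          simp only [cross, eq_comm]

theorem FE_ch_lt_in {b lo hi x a : ℕ} {l r : BinaryTree ℕ} (h1 : lo ≤ x) (h2 : x < hi)
    (hb : IsBST l) (hm : x ∈ inorder l) (h : x < a) (h3 : a < hi) :
    ch b lo hi x (.node a l r) = ch b lo hi x l + cross b a (res lo hi l) := by
  unfold ch
  rw [FE_ancJ_lt_in h (by omega) h3, FE_chg_append, FE_cross_res h1 h2 hb hm]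

theorem FE_ch_lt_out {b lo hi x a : ℕ} {l r : BinaryTree ℕ} (h : x < a) (h3 : hi ≤ a) :
    ch b lo hi x (.node a l r) = ch b lo hi x l := by
  unfold ch
  rw [FE_ancJ_lt_out h h3]

theorem FE_ch_gt_in {b lo hi x a : ℕ} {l r : BinaryTree ℕ} (h1 : lo ≤ x) (h2 : x < hi)
    (hb : IsBST r) (hm : x ∈ inorder r) (h : a < x) (h3 : lo ≤ a) :
    ch b lo hi x (.node a l r) = ch b lo hi x r + cross b a (res lo hi r) := by
  unfold ch
  rw [FE_ancJ_gt_in h h3 (by omega), FE_chg_append, FE_cross_res h1 h2 hb hm]

theorem FE_ch_gt_out {b lo hi x a : ℕ} {l r : BinaryTree ℕ} (h : a < x) (h3 : a < lo) :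
    ch b lo hi x (.node a l r) = ch b lo hi x r := by
  unfold ch
  rw [FE_ancJ_gt_out h h3]

/-! ### the counting of the blocks -/

theorem FE_qR_mono {b hi x a : ℕ} {l r : BinaryTree ℕ} (h : x < a) :
    qR b hi x l ≤ qR b hi x (.node a l r) := by
  unfold qR
  rw [FE_ancs_lt h, List.filter_append, List.map_append, List.toFinset_append]
  exact Finset.card_le_card Finset.subset_union_left

theorem FE_qR_new {b hi x a : ℕ} {l r : BinaryTree ℕ} (h : x < a) (h1 : a < hi)
    (h2 : x / b < a / b) (h3 : ∀ u ∈ ancs x l, u < hi → u / b ≠ a / b) :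
    qR b hi x l + 1 ≤ qR b hi x (.node a l r) := by
  unfold qR
  rw [FE_ancs_lt h, List.filter_append, List.map_append, List.toFinset_append]
  have e : ((List.filter (fun v => decide (x / b < v / b ∧ v < hi)) [a]).map
      (fun v => v / b)).toFinset = {a / b} := by
    simp [h1, h2]
  rw [e, Finset.union_comm, ← Finset.insert_eq, Finset.card_insert_of_notMem]
  simp only [List.mem_toFinset, List.mem_map, List.mem_filter, decide_eq_true_eq, not_exists,
    not_and]
  rintro u ⟨hu, _, hu2⟩
  exact h3 u hu hu2

theorem FE_qR_gt {b hi x a : ℕ} {l r : BinaryTree ℕ} (h : a < x) :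
    qR b hi x (.node a l r) = qR b hi x r := by
  unfold qR
  rw [FE_ancs_gt h, List.filter_append]
  have : ¬ x / b < a / b := by
    have := Nat.div_le_div_right (c := b) h.le
    omega
  simp [this]

theorem FE_qL_mono {b lo x a : ℕ} {l r : BinaryTree ℕ} (h : a < x) :
    qL b lo x r ≤ qL b lo x (.node a l r) := by
  unfold qL
  rw [FE_ancs_gt h, List.filter_append, List.map_append, List.toFinset_append]
  exact Finset.card_le_card Finset.subset_union_left

theorem FE_qL_new {b lo x a : ℕ} {l r : BinaryTree ℕ} (h : a < x) (h1 : lo ≤ a)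
    (h2 : a / b < x / b) (h3 : ∀ u ∈ ancs x r, lo ≤ u → u / b ≠ a / b) :
    qL b lo x r + 1 ≤ qL b lo x (.node a l r) := by
  unfold qL
  rw [FE_ancs_gt h, List.filter_append, List.map_append, List.toFinset_append]
  have e : ((List.filter (fun v => decide (v / b < x / b ∧ lo ≤ v)) [a]).map
      (fun v => v / b)).toFinset = {a / b} := by
    simp [h1, h2]
  rw [e, Finset.union_comm, ← Finset.insert_eq, Finset.card_insert_of_notMem]
  simp only [List.mem_toFinset, List.mem_map, List.mem_filter, decide_eq_true_eq, not_exists,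
    not_and]
  rintro u ⟨hu, _, hu2⟩
  exact h3 u hu hu2

theorem FE_qL_lt {b lo x a : ℕ} {l r : BinaryTree ℕ} (h : x < a) :
    qL b lo x (.node a l r) = qL b lo x l := by
  unfold qL
  rw [FE_ancs_lt h, List.filter_append]
  have : ¬ a / b < x / b := by
    have := Nat.div_le_div_right (c := b) h.le
    omega
  simp [this]

/-! ### the invariant -/

/-- The invariant along the double steps. -/
def FEinv (b lo hi x : ℕ) (t A B : BinaryTree ℕ) : Prop :=
  ∃ βR βL : ℕ, edg b (res lo hi A) + edg b (res lo hi B) + ch b lo hi x t + βR + βL ≤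
      edg b (res lo hi t) + 3 * (qR b hi x t + qL b lo x t) ∧
    (∀ r l1 l2, res lo hi B = .node r l1 l2 → ∀ u ∈ ancs x t, x < u → u < hi →
      r / b < u / b → 1 ≤ βR) ∧
    (∀ r l1 l2, res lo hi A = .node r l1 l2 → ∀ u ∈ ancs x t, u < x → lo ≤ u →
      u / b < r / b → 1 ≤ βL)

theorem FE_ancs_mem {x v : ℕ} {t : BinaryTree ℕ} (hb : IsBST t) (hm : x ∈ inorder t)
    (h : v ∈ ancs x t) : v ∈ inorder t := onP_mem ((mem_ancs hb hm).1 h).1

/-- The crossing of the first edge of `B` is paid by `βR` or by a new block. -/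
theorem FE_payR {b lo hi x p βR : ℕ} {t A B C : BinaryTree ℕ} (hb : IsBST (.node p t C))
    (hin : inorder t = inorder A ++ x :: inorder B) (hp : x < p) (hph : p < hi)
    (hR : ∀ r l1 l2, res lo hi B = .node r l1 l2 → ∀ u ∈ ancs x t, x < u → u < hi →
      r / b < u / b → 1 ≤ βR) :
    cross b p (res lo hi B) + 3 * qR b hi x t ≤ βR + 3 * qR b hi x (.node p t C) := by
  obtain ⟨hl, hr, hla, hra⟩ := bst_node.1 hb
  have hm : x ∈ inorder t := by rw [hin]; simp
  have hmono := FE_qR_mono (b := b) (hi := hi) (l := t) (r := C) hp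
  · rcases hB : res lo hi B with _ | ⟨r, l1, l2⟩
    · simp only [cross]; omega
    · by_cases hc : r / b = p / b
      · simp only [cross, hc, if_true]; omega
      · simp only [cross, hc, if_false]
        obtain ⟨hrB, hr1, hr2⟩ := FE_res_root hB
        have hrp : r < p := hla r (by rw [hin]; simp [hrB])
        have hxr : x < r := by
          have hl' := hl
          unfold IsBST at hl'
          rw [hin, List.pairwise_append, List.pairwise_cons] at hl'
          exact hl'.2.1.1 r hrB
        have d1 : r / b ≤ p / b := Nat.div_le_div_right hrp.le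
        have d2 : x / b ≤ r / b := Nat.div_le_div_right hxr.le
        by_cases hn : ∃ u ∈ ancs x t, u < hi ∧ u / b = p / b
        · obtain ⟨u, hu, hu1, hu2⟩ := hn
          have hxu : x < u := by
            by_contra hcon
            have := Nat.div_le_div_right (c := b) (not_lt.1 hcon)
            omega
          have := hR r l1 l2 hB u hu hxu hu1 (by omega)
          omega
        · have := FE_qR_new (b := b) (hi := hi) (l := t) (r := C) hp hph (by omega)
            (fun u hu hu1 hu2 => hn ⟨u, hu, hu1, hu2⟩)
          omega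

theorem FE_payL {b lo hi x p βL : ℕ} {t A B C : BinaryTree ℕ} (hb : IsBST (.node p C t))
    (hin : inorder t = inorder A ++ x :: inorder B) (hp : p < x) (hph : lo ≤ p)
    (hL : ∀ r l1 l2, res lo hi A = .node r l1 l2 → ∀ u ∈ ancs x t, u < x → lo ≤ u →
      u / b < r / b → 1 ≤ βL) :
    cross b p (res lo hi A) + 3 * qL b lo x t ≤ βL + 3 * qL b lo x (.node p C t) := by
  obtain ⟨hl, hr, hla, hra⟩ := bst_node.1 hb
  have hm : x ∈ inorder t := by rw [hin]; simp
  have hmono := FE_qL_mono (b := b) (lo := lo) (l := C) (r := t) hp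
  rcases hB : res lo hi A with _ | ⟨r, l1, l2⟩
  · simp only [cross]; omega
  · by_cases hc : r / b = p / b
    · simp only [cross, hc, if_true]; omega
    · simp only [cross, hc, if_false]
      obtain ⟨hrB, hr1, hr2⟩ := FE_res_root hB
      have hrp : p < r := hra r (by rw [hin]; simp [hrB])
      have hxr : r < x := by
        have hl' := hr
        unfold IsBST at hl'
        rw [hin, List.pairwise_append] at hl'
        exact hl'.2.2 r hrB x (by simp)
      have d1 : p / b ≤ r / b := Nat.div_le_div_right hrp.le
      have d2 : r / b ≤ x / b := Nat.div_le_div_right hxr.le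
      by_cases hn : ∃ u ∈ ancs x t, lo ≤ u ∧ u / b = p / b
      · obtain ⟨u, hu, hu1, hu2⟩ := hn
        have hxu : u < x := by
          by_contra hcon
          have := Nat.div_le_div_right (c := b) (not_lt.1 hcon)
          omega
        have := hL r l1 l2 hB u hu hxu hu1 (by omega)
        omega
      · have := FE_qL_new (b := b) (lo := lo) (l := C) (r := t) hp hph (by omega)
          (fun u hu hu1 hu2 => hn ⟨u, hu, hu1, hu2⟩)
        omega

theorem FE_frameR {b lo hi x p : ℕ} {t A B C : BinaryTree ℕ} (hb : IsBST (.node p t C))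
    (hin : inorder t = inorder A ++ x :: inorder B) (h1 : lo ≤ x) (h2 : x < hi) (hp : x < p)
    (h : FEinv b lo hi x t A B) : FEinv b lo hi x (.node p t C) A (.node p B C) := by
  obtain ⟨hl, hr, hla, hra⟩ := bst_node.1 hb
  have hm : x ∈ inorder t := by rw [hin]; simp
  obtain ⟨βR, βL, h3, hR, hL⟩ := h
  rcases lt_or_ge p hi with hph | hph
  · refine ⟨0, βL, ?_, ?_, ?_⟩
    · have k1 := FE_payR hb hin hp hph hR
      rw [FE_res_in (by omega) hph, FE_res_in (by omega) hph, FE_ch_lt_in h1 h2 hl hm hp hph,
        FE_qL_lt hp]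
      simp only [edg]
      omega
    · intro r l1 l2 hB u hu hxu huh hru
      rw [FE_res_in (by omega) hph] at hB
      injection hB with e1
      subst e1
      rw [FE_ancs_lt hp, List.mem_append, List.mem_singleton] at hu
      rcases hu with hu | hu
      · have h5 := hla u (FE_ancs_mem hl hm hu)
        have := Nat.div_le_div_right (c := b) h5.le
        omega
      · subst hu; omega
    · intro r l1 l2 hA u hu hxu huh hru
      rw [FE_ancs_lt hp, List.mem_append, List.mem_singleton] at hu
      rcases hu with hu | hu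
      · exact hL r l1 l2 hA u hu hxu huh hru
      · omega
  · refine ⟨βR, βL, ?_, ?_, ?_⟩
    · have k1 := FE_qR_mono (b := b) (hi := hi) (l := t) (r := C) hp
      rw [FE_res_hi (by omega) hph, FE_res_hi (by omega) hph, FE_ch_lt_out hp hph, FE_qL_lt hp]
      omega
    · intro r l1 l2 hB u hu hxu huh hru
      rw [FE_res_hi (by omega) hph] at hB
      rw [FE_ancs_lt hp, List.mem_append, List.mem_singleton] at hu
      rcases hu with hu | hu
      · exact hR r l1 l2 hB u hu hxu huh hru
      · omega
    · intro r l1 l2 hA u hu hxu huh hru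
      rw [FE_ancs_lt hp, List.mem_append, List.mem_singleton] at hu
      rcases hu with hu | hu
      · exact hL r l1 l2 hA u hu hxu huh hru
      · omega

theorem FE_frameL {b lo hi x p : ℕ} {t A B C : BinaryTree ℕ} (hb : IsBST (.node p C t))
    (hin : inorder t = inorder A ++ x :: inorder B) (h1 : lo ≤ x) (h2 : x < hi) (hp : p < x)
    (h : FEinv b lo hi x t A B) : FEinv b lo hi x (.node p C t) (.node p C A) B := by
  obtain ⟨hl, hr, hla, hra⟩ := bst_node.1 hb
  have hm : x ∈ inorder t := by rw [hin]; simp
  obtain ⟨βR, βL, h3, hR, hL⟩ := h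
  rcases lt_or_ge p lo with hph | hph
  · refine ⟨βR, βL, ?_, ?_, ?_⟩
    · have k1 := FE_qL_mono (b := b) (lo := lo) (l := C) (r := t) hp
      rw [FE_res_lo hph, FE_res_lo hph, FE_ch_gt_out hp hph, FE_qR_gt hp]
      omega
    · intro r l1 l2 hB u hu hxu huh hru
      rw [FE_ancs_gt hp, List.mem_append, List.mem_singleton] at hu
      rcases hu with hu | hu
      · exact hR r l1 l2 hB u hu hxu huh hru
      · omega
    · intro r l1 l2 hA u hu hxu huh hru
      rw [FE_res_lo hph] at hA
      rw [FE_ancs_gt hp, List.mem_append, List.mem_singleton] at hu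
      rcases hu with hu | hu
      · exact hL r l1 l2 hA u hu hxu huh hru
      · omega
  · refine ⟨βR, 0, ?_, ?_, ?_⟩
    · have k1 := FE_payL hb hin hp hph hL
      rw [FE_res_in hph (by omega), FE_res_in hph (by omega), FE_ch_gt_in h1 h2 hr hm hp hph,
        FE_qR_gt hp]
      simp only [edg]
      omega
    · intro r l1 l2 hB u hu hxu huh hru
      rw [FE_ancs_gt hp, List.mem_append, List.mem_singleton] at hu
      rcases hu with hu | hu
      · exact hR r l1 l2 hB u hu hxu huh hru
      · omega
    · intro r l1 l2 hA u hu hxu huh hru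
      rw [FE_res_in hph (by omega)] at hA
      injection hA with e1
      subst e1
      rw [FE_ancs_gt hp, List.mem_append, List.mem_singleton] at hu
      rcases hu with hu | hu
      · have h5 := hra u (FE_ancs_mem hr hm hu)
        have := Nat.div_le_div_right (c := b) h5.le
        omega
      · subst hu; omega

theorem FE_zzR {b lo hi x p g : ℕ} {t A B C D : BinaryTree ℕ}
    (hb : IsBST (.node g (.node p t C) D))
    (hin : inorder t = inorder A ++ x :: inorder B) (h1 : lo ≤ x) (h2 : x < hi) (hp : x < p)
    (h : FEinv b lo hi x t A B) :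
    FEinv b lo hi x (.node g (.node p t C) D) A (.node p B (.node g C D)) := by
  obtain ⟨hb1, hb2, hb3, hb4⟩ := bst_node.1 hb
  obtain ⟨hl, hr, hla, hra⟩ := bst_node.1 hb1
  have hm : x ∈ inorder t := by rw [hin]; simp
  have hm1 : x ∈ inorder (.node p t C) := by simp [inorder, hm]
  have hpg : p < g := hb3 p (by simp [inorder])
  have hxg : x < g := by omega
  rcases lt_or_ge g hi with hgh | hgh
  · obtain ⟨βR, βL, h3, hR, hL⟩ := h
    have hph : p < hi := by omega
    refine ⟨if p / b = g / b then 0 else 1, βL, ?_, ?_, ?_⟩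
    · have k1 := FE_payR hb1 hin hp hph hR
      have k2 := FE_cross_le b g (res lo hi C)
      have k3 := FE_qR_mono (b := b) (hi := hi) (l := .node p t C) (r := D) hxg
      rw [FE_res_in (a := g) (by omega) hgh, FE_res_in (a := p) (by omega) hph,
        FE_res_in (a := p) (by omega) hph, FE_res_in (a := g) (by omega) hgh,
        FE_ch_lt_in h1 h2 hb1 hm1 hxg hgh, FE_ch_lt_in h1 h2 hl hm hp hph,
        FE_qL_lt hxg, FE_qL_lt hp, FE_res_in (a := p) (by omega) hph]
      by_cases hc : p / b = g / b
      · have k4 := FE_cross_eq hc (res lo hi C)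
        simp only [edg, FE_cross_node, hc, if_true]
        omega
      · have hc' : ¬ g / b = p / b := fun hh => hc hh.symm
        have d1 : p / b ≤ g / b := Nat.div_le_div_right hpg.le
        have d2 : x / b ≤ p / b := Nat.div_le_div_right hp.le
        have k5 := FE_qR_new (b := b) (hi := hi) (l := .node p t C) (r := D) hxg hgh (by omega)
          (by
            intro u hu hu1 hu2
            rw [FE_ancs_lt hp, List.mem_append, List.mem_singleton] at hu
            rcases hu with hu | hu
            · have h5 := hla u (FE_ancs_mem hl hm hu)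
              have := Nat.div_le_div_right (c := b) h5.le
              omega
            · subst hu; omega)
        simp only [edg, FE_cross_node, hc, hc', if_false]
        omega
    · intro r l1 l2 hB u hu hxu huh hru
      rw [FE_res_in (by omega) hph] at hB
      injection hB with e1
      subst e1
      rw [if_neg]
      have hug : u ≤ g := by
        rw [FE_ancs_lt hxg, List.mem_append, List.mem_singleton] at hu
        rcases hu with hu | hu
        · exact (hb3 u (FE_ancs_mem hb1 hm1 hu)).le
        · omega
      have := Nat.div_le_div_right (c := b) hug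
      omega
    · intro r l1 l2 hA u hu hxu huh hru
      rw [FE_ancs_lt hxg, FE_ancs_lt hp, List.mem_append, List.mem_append,
        List.mem_singleton, List.mem_singleton] at hu
      rcases hu with (hu | hu) | hu
      · exact hL r l1 l2 hA u hu hxu huh hru
      · omega
      · omega
  · -- `g` is outside: a single frame
    obtain ⟨βR, βL, h3, hR, hL⟩ := FE_frameR hb1 hin h1 h2 hp h
    have eB : res lo hi (.node p B (.node g C D)) = res lo hi (.node p B C) := by
      rcases lt_or_ge p hi with hph | hph
      · rw [FE_res_in (by omega) hph, FE_res_in (by omega) hph, FE_res_hi (by omega) hgh]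
      · rw [FE_res_hi (by omega) hph, FE_res_hi (by omega) hph]
    have k3 := FE_qR_mono (b := b) (hi := hi) (l := .node p t C) (r := D) hxg
    refine ⟨βR, βL, ?_, ?_, ?_⟩
    · rw [eB, FE_res_hi (a := g) (by omega) hgh, FE_ch_lt_out hxg hgh, FE_qL_lt hxg]
      omega
    · intro r l1 l2 hB u hu hxu huh hru
      rw [eB] at hB
      rw [FE_ancs_lt hxg, List.mem_append, List.mem_singleton] at hu
      rcases hu with hu | hu
      · exact hR r l1 l2 hB u hu hxu huh hru
      · omega
    · intro r l1 l2 hA u hu hxu huh hru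
      rw [FE_ancs_lt hxg, List.mem_append, List.mem_singleton] at hu
      rcases hu with hu | hu
      · exact hL r l1 l2 hA u hu hxu huh hru
      · omega

theorem FE_zzL {b lo hi x p g : ℕ} {t A B C D : BinaryTree ℕ}
    (hb : IsBST (.node g D (.node p C t)))
    (hin : inorder t = inorder A ++ x :: inorder B) (h1 : lo ≤ x) (h2 : x < hi) (hp : p < x)
    (h : FEinv b lo hi x t A B) :
    FEinv b lo hi x (.node g D (.node p C t)) (.node p (.node g D C) A) B := by
  obtain ⟨hb2, hb1, hb4, hb3⟩ := bst_node.1 hb
  obtain ⟨hl, hr, hla, hra⟩ := bst_node.1 hb1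
  have hm : x ∈ inorder t := by rw [hin]; simp
  have hm1 : x ∈ inorder (.node p C t) := by simp [inorder, hm]
  have hpg : g < p := hb3 p (by simp [inorder])
  have hxg : g < x := by omega
  rcases lt_or_ge g lo with hgh | hgh
  · -- `g` is outside: a single frame
    obtain ⟨βR, βL, h3, hR, hL⟩ := FE_frameL hb1 hin h1 h2 hp h
    have eA : res lo hi (.node p (.node g D C) A) = res lo hi (.node p C A) := by
      rcases lt_or_ge p lo with hph | hph
      · rw [FE_res_lo hph, FE_res_lo hph]
      · rw [FE_res_in hph (by omega), FE_res_in hph (by omega), FE_res_lo hgh]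
    have k3 := FE_qL_mono (b := b) (lo := lo) (l := D) (r := .node p C t) hxg
    refine ⟨βR, βL, ?_, ?_, ?_⟩
    · rw [eA, FE_res_lo (a := g) hgh, FE_ch_gt_out hxg hgh, FE_qR_gt hxg]
      omega
    · intro r l1 l2 hB u hu hxu huh hru
      rw [FE_ancs_gt hxg, List.mem_append, List.mem_singleton] at hu
      rcases hu with hu | hu
      · exact hR r l1 l2 hB u hu hxu huh hru
      · omega
    · intro r l1 l2 hA u hu hxu huh hru
      rw [eA] at hA
      rw [FE_ancs_gt hxg, List.mem_append, List.mem_singleton] at hu
      rcases hu with hu | hu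
      · exact hL r l1 l2 hA u hu hxu huh hru
      · omega
  · obtain ⟨βR, βL, h3, hR, hL⟩ := h
    have hph : lo ≤ p := by omega
    refine ⟨βR, if p / b = g / b then 0 else 1, ?_, ?_, ?_⟩
    · have k1 := FE_payL hb1 hin hp hph hL
      have k2 := FE_cross_le b g (res lo hi C)
      have k3 := FE_qL_mono (b := b) (lo := lo) (l := D) (r := .node p C t) hxg
      rw [FE_res_in (a := g) hgh (by omega), FE_res_in (a := p) hph (by omega),
        FE_res_in (a := p) hph (by omega), FE_res_in (a := g) hgh (by omega),
        FE_ch_gt_in h1 h2 hb1 hm1 hxg hgh, FE_ch_gt_in h1 h2 hr hm hp hph,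
        FE_qR_gt hxg, FE_qR_gt hp, FE_res_in (a := p) hph (by omega)]
      by_cases hc : p / b = g / b
      · have k4 := FE_cross_eq hc (res lo hi C)
        simp only [edg, FE_cross_node, hc, if_true]
        omega
      · have hc' : ¬ g / b = p / b := fun hh => hc hh.symm
        have d1 : g / b ≤ p / b := Nat.div_le_div_right hpg.le
        have d2 : p / b ≤ x / b := Nat.div_le_div_right hp.le
        have k5 := FE_qL_new (b := b) (lo := lo) (l := D) (r := .node p C t) hxg hgh (by omega)
          (by
            intro u hu hu1 hu2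
            rw [FE_ancs_gt hp, List.mem_append, List.mem_singleton] at hu
            rcases hu with hu | hu
            · have h5 := hra u (FE_ancs_mem hr hm hu)
              have := Nat.div_le_div_right (c := b) h5.le
              omega
            · subst hu; omega)
        simp only [edg, FE_cross_node, hc, hc', if_false]
        omega
    · intro r l1 l2 hB u hu hxu huh hru
      rw [FE_ancs_gt hxg, FE_ancs_gt hp, List.mem_append, List.mem_append,
        List.mem_singleton, List.mem_singleton] at hu
      rcases hu with (hu | hu) | hu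
      · exact hR r l1 l2 hB u hu hxu huh hru
      · omega
      · omega
    · intro r l1 l2 hA u hu hxu huh hru
      rw [FE_res_in hph (by omega)] at hA
      injection hA with e1
      subst e1
      rw [if_neg]
      have hug : g ≤ u := by
        rw [FE_ancs_gt hxg, List.mem_append, List.mem_singleton] at hu
        rcases hu with hu | hu
        · exact (hb3 u (FE_ancs_mem hb1 hm1 hu)).le
        · omega
      have := Nat.div_le_div_right (c := b) hug
      omega

theorem FE_ev_inorder {x : ℕ} {t A B : BinaryTree ℕ} (h : Ev x t A B) :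
    inorder t = inorder A ++ x :: inorder B := by
  induction h with
  | base A B => simp [inorder]
  | ll h1 h2 h3 ih => simp [inorder, ih]
  | lr h1 h2 h3 ih => simp [inorder, ih]
  | rr h1 h2 h3 ih => simp [inorder, ih]
  | rl h1 h2 h3 ih => simp [inorder, ih]

theorem FE_ev {b lo hi x : ℕ} (h1 : lo ≤ x) (h2 : x < hi) {t A B : BinaryTree ℕ}
    (h : Ev x t A B) (hb : IsBST t) : FEinv b lo hi x t A B := by
  induction h with
  | base A B =>
    refine ⟨0, 0, ?_, ?_, ?_⟩
    · rw [FE_res_in h1 h2]
      simp only [edg, ch, ancJ, ancs, if_true, List.filter_nil, chg]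
      omega
    · intro r l1 l2 _ u hu
      simp [ancs] at hu
    · intro r l1 l2 _ u hu
      simp [ancs] at hu
  | ll h3 h4 h5 ih =>
    have hb1 := (bst_node.1 hb).1
    have hb2 := (bst_node.1 hb1).1
    exact FE_zzR hb (FE_ev_inorder h5) h1 h2 h3 (ih hb2)
  | @lr p g R C D A B h3 h4 h5 ih =>
    have hb1 := (bst_node.1 hb).1
    have hb2 := (bst_node.1 hb1).2.1
    refine FE_frameR (A := .node p C A) hb ?_ h1 h2 h4
      (FE_frameL hb1 (FE_ev_inorder h5) h1 h2 h3 (ih hb2))
    simp [inorder, FE_ev_inorder h5]
  | rr h3 h4 h5 ih =>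
    have hb1 := (bst_node.1 hb).2.1
    have hb2 := (bst_node.1 hb1).2.1
    exact FE_zzL hb (FE_ev_inorder h5) h1 h2 h3 (ih hb2)
  | @rl p g L C D A B h3 h4 h5 ih =>
    have hb1 := (bst_node.1 hb).2.1
    have hb2 := (bst_node.1 hb1).1
    refine FE_frameL (B := .node p B C) hb ?_ h1 h2 h4
      (FE_frameR hb1 (FE_ev_inorder h5) h1 h2 h3 (ih hb2))
    simp [inorder, FE_ev_inorder h5]

theorem FE {b lo hi x : ℕ} {t : BinaryTree ℕ} (hb : IsBST t) (hm : x ∈ inorder t) (h0 : 0 < b)
    (h1 : lo ≤ x) (h2 : x < hi) :
    edg b (res lo hi (splay x t)) + ch b lo hi x t ≤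
      edg b (res lo hi t) + 3 * (qR b hi x t + qL b lo x t) + 2 := by
  obtain ⟨A, B, hs, he⟩ := spl_exists hb hm
  have hinv : FEinv b lo hi x t A B := by
    cases hs with
    | ev h => exact FE_ev h1 h2 h hb
    | @zl g L D A B' h3 h =>
      exact FE_frameR hb (FE_ev_inorder h) h1 h2 h3 (FE_ev h1 h2 h (bst_node.1 hb).1)
    | @zr g R D A' B h3 h =>
      exact FE_frameL hb (FE_ev_inorder h) h1 h2 h3 (FE_ev h1 h2 h (bst_node.1 hb).2.1)
  obtain ⟨βR, βL, h3, -, -⟩ := hinv
  rw [he, FE_res_in h1 h2]
  simp only [edg]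
  have k1 := FE_cross_le b x (res lo hi A)
  have k2 := FE_cross_le b x (res lo hi B)
  omega

end Pool.Agent.SplPat
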