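import Pool.Agent.SplPat.Gap

set_option autoImplicit false

namespace Pool.Agent.SplPat

open BinaryTree Pool.Agent.MP_c42954_lc.Scan

/-! HINT (RSB).  Plain counting: `dJ` counts the ancestors in [j0 b, j1 b) outside the block of x, i.e. in the blocks
i ∈ Ico j0 j1, i ≠ x / b; `qR`, `qL` count the touched blocks right and left of the block of x. -/

theorem RSB_len (S : Finset ℕ) (f : ℕ → ℕ) (l : List ℕ) :
    (l.filter (fun v => decide (f v ∈ S))).length =
      ∑ i ∈ S, (l.filter (fun v => decide (f v = i))).length := by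
  induction l with
  | nil => simp
  | cons a l ih =>
    have h1 : ∀ i, ((a :: l).filter (fun v => decide (f v = i))).length =
        (if f a = i then 1 else 0) + (l.filter (fun v => decide (f v = i))).length := by
      intro i
      rw [List.filter_cons]
      by_cases h : f a = i
      · simp [h, add_comm]
      · simp [h]
    simp only [h1, Finset.sum_add_distrib, ← ih, Finset.sum_ite_eq]
    rw [List.filter_cons]
    by_cases h : f a ∈ S
    · simp [h, add_comm]
    · simp [h]

theorem DS {b j0 j1 x : ℕ} {t : BinaryTree ℕ} (h0 : 0 < b) :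
    dJ b (j0 * b) (j1 * b) x t = ∑ i ∈ (Finset.Ico j0 j1).erase (x / b), cnt b i x t := by
  have h1 := RSB_len ((Finset.Ico j0 j1).erase (x / b)) (fun v => v / b) (ancs x t)
  unfold cnt
  rw [← h1, dJ, ancJ, List.filter_filter]
  congr 1
  apply List.filter_congr
  intro v _
  have e1 : j0 * b ≤ v ↔ j0 ≤ v / b := (Nat.le_div_iff_mul_le h0).symm
  have e2 : v < j1 * b ↔ v / b < j1 := (Nat.div_lt_iff_lt_mul h0).symm
  rw [← Bool.decide_and, decide_eq_decide, Finset.mem_erase, Finset.mem_Ico, e1, e2]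

/-- Touched blocks are counted by `qR`, `qL`. -/
theorem QS {b j0 j1 x : ℕ} {t : BinaryTree ℕ} (h0 : 0 < b) (h1 : j0 * b ≤ x) (h2 : x < j1 * b) :
    ∑ i ∈ (Finset.Ico j0 j1).erase (x / b), min 1 (cnt b i x t) ≤
      qR b (j1 * b) x t + qL b (j0 * b) x t := by
  classical
  set A := (((ancs x t).filter (fun v => x / b < v / b ∧ v < j1 * b)).map (fun v => v / b)).toFinset
    with hA
  set B := (((ancs x t).filter (fun v => v / b < x / b ∧ j0 * b ≤ v)).map (fun v => v / b)).toFinset
    with hB
  have hmem : ∀ i ∈ (Finset.Ico j0 j1).erase (x / b), 1 ≤ cnt b i x t → i ∈ A ∪ B := by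
    intro i hi hc
    rw [Finset.mem_erase, Finset.mem_Ico] at hi
    obtain ⟨hne, h3, h4⟩ := hi
    obtain ⟨v, hv⟩ := List.exists_mem_of_length_pos hc
    rw [List.mem_filter, decide_eq_true_eq] at hv
    obtain ⟨hv1, hv2⟩ := hv
    rw [Finset.mem_union, hA, hB, List.mem_toFinset, List.mem_toFinset, List.mem_map, List.mem_map]
    rcases lt_or_gt_of_ne hne with h5 | h5
    · right
      refine ⟨v, ?_, hv2⟩
      rw [List.mem_filter, decide_eq_true_eq]
      refine ⟨hv1, by rw [hv2]; exact h5, ?_⟩
      exact (Nat.le_div_iff_mul_le h0).1 (by rw [hv2]; exact h3)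
    · left
      refine ⟨v, ?_, hv2⟩
      rw [List.mem_filter, decide_eq_true_eq]
      refine ⟨hv1, by rw [hv2]; exact h5, ?_⟩
      exact (Nat.div_lt_iff_lt_mul h0).1 (by rw [hv2]; exact h4)
  have h3 : ∑ i ∈ (Finset.Ico j0 j1).erase (x / b), min 1 (cnt b i x t) ≤
      ∑ i ∈ (Finset.Ico j0 j1).erase (x / b), (if i ∈ A ∪ B then 1 else 0) := by
    apply Finset.sum_le_sum
    intro i hi
    by_cases h4 : i ∈ A ∪ B
    · rw [if_pos h4]
      exact min_le_left _ _
    · rw [if_neg h4]
      have h5 : cnt b i x t = 0 := by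
        by_contra h6
        exact h4 (hmem i hi (Nat.one_le_iff_ne_zero.2 h6))
      rw [h5]
      simp
  refine h3.trans ?_
  rw [← Finset.sum_filter, ← Finset.card_eq_sum_ones, Finset.filter_mem_eq_inter]
  refine (Finset.card_le_card Finset.inter_subset_right).trans ?_
  exact Finset.card_union_le A B

theorem qR_le {b j x : ℕ} {t : BinaryTree ℕ} (h0 : 0 < b) : qR b (j * b) x t ≤ j - x / b := by
  have h1 : (((ancs x t).filter (fun v => x / b < v / b ∧ v < j * b)).map
      (fun v => v / b)).toFinset ⊆ Finset.Ico (x / b + 1) j := by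
    intro i hi
    rw [List.mem_toFinset, List.mem_map] at hi
    obtain ⟨v, hv, rfl⟩ := hi
    rw [List.mem_filter, decide_eq_true_eq] at hv
    rw [Finset.mem_Ico]
    exact ⟨hv.2.1, (Nat.div_lt_iff_lt_mul h0).2 hv.2.2⟩
  have h2 := Finset.card_le_card h1
  rw [Nat.card_Ico] at h2
  exact h2.trans (by omega)

end Pool.Agent.SplPat
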