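import Pool.Agent.SplPat.Tin
import Pool.Agent.SplPat.FS
import Pool.Agent.SplPat.RS

set_option autoImplicit false

namespace Pool.Agent.SplPat

open BinaryTree Pool.Agent.MP_c42954_lc.Scan

/-! HINT (PSUM).  Potential Φ(t) = ∑ i ∈ Ico j0 j1, sig (i b) ((i+1) b) (T t) ≤ (j1 - j0) (b + 1) (`sig_le`).
A request in [j0 b, j1 b): FS1 for the blocks i ≠ X t / b and FS2 for i = X t / b; `pop_cnt` and `QS` for the sum of
min 1 pop.  A request outside: FS1 for all blocks (Φ does not grow).  Induction on s'. -/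

theorem PSUM_in {b j0 j1 x : ℕ} {t : BinaryTree ℕ} (hb : IsBST t) (hm : x ∈ inorder t)
    (h0 : 0 < b) (h1 : j0 * b ≤ x) (h2 : x < j1 * b) :
    ∑ i ∈ Finset.Ico j0 j1, sig (i * b) ((i + 1) * b) (splay x t) +
      ∑ i ∈ (Finset.Ico j0 j1).erase (x / b), pop x (i * b) ((i + 1) * b) t ≤
    ∑ i ∈ Finset.Ico j0 j1, sig (i * b) ((i + 1) * b) t + 4 +
      (qR b (j1 * b) x t + qL b (j0 * b) x t) := by
  have hmem : x / b ∈ Finset.Ico j0 j1 := by
    rw [Finset.mem_Ico]
    exact ⟨(Nat.le_div_iff_mul_le h0).2 h1, (Nat.div_lt_iff_lt_mul h0).2 h2⟩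
  rw [← Finset.add_sum_erase _ _ hmem, ← Finset.add_sum_erase _ (fun i => sig (i * b) ((i + 1) * b) t) hmem]
  have hx1 : x / b * b ≤ x := Nat.div_mul_le_self x b
  have hx2 : x < (x / b + 1) * b := by
    have := Nat.lt_div_mul_add h0 (a := x)
    rw [Nat.add_mul, one_mul]
    exact this
  have hF2 := FS2 hb hm hx1 hx2
  have hF1 : ∑ i ∈ (Finset.Ico j0 j1).erase (x / b), sig (i * b) ((i + 1) * b) (splay x t) +
      ∑ i ∈ (Finset.Ico j0 j1).erase (x / b), pop x (i * b) ((i + 1) * b) t ≤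
      ∑ i ∈ (Finset.Ico j0 j1).erase (x / b), sig (i * b) ((i + 1) * b) t +
      ∑ i ∈ (Finset.Ico j0 j1).erase (x / b), min 1 (cnt b i x t) := by
    rw [← Finset.sum_add_distrib, ← Finset.sum_add_distrib]
    refine Finset.sum_le_sum fun i hi => ?_
    have hne : i ≠ x / b := (Finset.mem_erase.1 hi).1
    have ha : i * b ≤ (i + 1) * b := Nat.mul_le_mul_right b (Nat.le_succ i)
    have hx : x < i * b ∨ (i + 1) * b ≤ x := by
      rcases Nat.lt_or_ge x (i * b) with h | h
      · exact Or.inl h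
      · right
        by_contra h3
        push Not at h3
        apply hne
        exact (Nat.div_eq_of_lt_le h h3).symm
    have h4 := FS1 hb hm ha hx
    have h5 := pop_cnt (i := i) hb hm hne h0
    have h6 : min 1 (pop x (i * b) ((i + 1) * b) t) ≤ min 1 (cnt b i x t) :=
      le_min (min_le_left _ _) h5
    omega
  have hQ := QS (t := t) h0 h1 h2
  omega

theorem PSUM_out {b j0 j1 x : ℕ} {t : BinaryTree ℕ} (hb : IsBST t) (hm : x ∈ inorder t)
    (h : x < j0 * b ∨ j1 * b ≤ x) :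
    ∑ i ∈ Finset.Ico j0 j1, sig (i * b) ((i + 1) * b) (splay x t) ≤
    ∑ i ∈ Finset.Ico j0 j1, sig (i * b) ((i + 1) * b) t := by
  refine Finset.sum_le_sum fun i hi => ?_
  rw [Finset.mem_Ico] at hi
  have ha : i * b ≤ (i + 1) * b := Nat.mul_le_mul_right b (Nat.le_succ i)
  have hx : x < i * b ∨ (i + 1) * b ≤ x := by
    rcases h with h | h
    · exact Or.inl (lt_of_lt_of_le h (Nat.mul_le_mul_right b hi.1))
    · exact Or.inr (le_trans (Nat.mul_le_mul_right b hi.2) h)
  have h4 := FS1 hb hm ha hx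
  have h5 : min 1 (pop x (i * b) ((i + 1) * b) t) ≤ pop x (i * b) ((i + 1) * b) t :=
    min_le_right _ _
  omega

theorem PSUM_main {T : ℕ → BinaryTree ℕ} {X : ℕ → ℕ} {m b j0 j1 s : ℕ} (hR : Run T X m)
    (h0 : 0 < b) : ∀ s', s ≤ s' → s' ≤ m →
    ∑ i ∈ Finset.Ico j0 j1, sig (i * b) ((i + 1) * b) (T s') +
    ∑ t ∈ tin s s' (j0 * b) (j1 * b) X, ∑ i ∈ (Finset.Ico j0 j1).erase (X t / b),
        pop (X t) (i * b) ((i + 1) * b) (T t) ≤
      ∑ i ∈ Finset.Ico j0 j1, sig (i * b) ((i + 1) * b) (T s) + 4 * (s' - s) +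
        ∑ t ∈ tin s s' (j0 * b) (j1 * b) X, qq b j0 j1 T X t := by
  intro s' hs
  induction s', hs using Nat.le_induction with
  | base =>
    intro _
    simp [tin]
  | succ n hn ih =>
    intro hnm
    have ih := ih (by omega)
    have hlt : n < m := by omega
    have hb := hR.bst n hlt.le
    have hm := hR.mem n hlt
    have hT := hR.next n hlt
    by_cases hin : j0 * b ≤ X n ∧ X n < j1 * b
    · have e : tin s (n + 1) (j0 * b) (j1 * b) X = insert n (tin s n (j0 * b) (j1 * b) X) := by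
        ext u
        simp only [tin, Finset.mem_filter, Finset.mem_insert, Finset.mem_Ico]
        constructor
        · rintro ⟨⟨h1, h2⟩, h3⟩
          by_cases h4 : u = n
          · exact Or.inl h4
          · exact Or.inr ⟨⟨h1, by omega⟩, h3⟩
        · rintro (rfl | ⟨⟨h1, h2⟩, h3⟩)
          · exact ⟨⟨hn, by omega⟩, hin⟩
          · exact ⟨⟨h1, by omega⟩, h3⟩
      have hni : n ∉ tin s n (j0 * b) (j1 * b) X := by
        simp [tin]
      rw [e, Finset.sum_insert hni, Finset.sum_insert hni, hT]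
      have := PSUM_in hb hm h0 hin.1 hin.2
      simp only [qq]
      simp only [qq] at ih
      omega
    · have e : tin s (n + 1) (j0 * b) (j1 * b) X = tin s n (j0 * b) (j1 * b) X := by
        ext u
        simp only [tin, Finset.mem_filter, Finset.mem_Ico]
        constructor
        · rintro ⟨⟨h1, h2⟩, h3⟩
          refine ⟨⟨h1, ?_⟩, h3⟩
          by_contra h4
          have : u = n := by omega
          subst this
          exact hin h3
        · rintro ⟨⟨h1, h2⟩, h3⟩
          exact ⟨⟨h1, by omega⟩, h3⟩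
      rw [e, hT]
      have hout : X n < j0 * b ∨ j1 * b ≤ X n := by
        by_contra h
        push Not at h
        exact hin h
      have := PSUM_out hb hm hout
      omega

theorem sum_pop {T : ℕ → BinaryTree ℕ} {X : ℕ → ℕ} {m b j0 j1 s s' : ℕ} (hR : Run T X m)
    (h0 : 0 < b) (hs : s ≤ s') (hs' : s' ≤ m) (hj : j0 ≤ j1) :
    ∑ t ∈ tin s s' (j0 * b) (j1 * b) X, ∑ i ∈ (Finset.Ico j0 j1).erase (X t / b),
        pop (X t) (i * b) ((i + 1) * b) (T t) ≤
      (j1 - j0) * (b + 1) + 4 * (s' - s) + ∑ t ∈ tin s s' (j0 * b) (j1 * b) X, qq b j0 j1 T X t := by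
  have h := PSUM_main (j0 := j0) (j1 := j1) hR h0 s' hs hs'
  have h1 : ∑ i ∈ Finset.Ico j0 j1, sig (i * b) ((i + 1) * b) (T s) ≤ (j1 - j0) * (b + 1) := by
    calc ∑ i ∈ Finset.Ico j0 j1, sig (i * b) ((i + 1) * b) (T s)
        ≤ ∑ i ∈ Finset.Ico j0 j1, (b + 1) := by
          refine Finset.sum_le_sum fun i _ => ?_
          have := sig_le (a := i * b) (a' := (i + 1) * b) (hR.bst s (hs.trans hs'))
          have e : (i + 1) * b - i * b = b := by
            rw [Nat.add_mul, one_mul, Nat.add_sub_cancel_left]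
          rw [e] at this
          exact this
      _ = (j1 - j0) * (b + 1) := by
          rw [Finset.sum_const, Nat.card_Ico, smul_eq_mul]
  omega

end Pool.Agent.SplPat
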