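import Pool.Agent.SplPat.F1

set_option autoImplicit false

namespace Pool.Agent.SplPat

open BinaryTree Pool.Agent.MP_c42954_lc.Scan

/-! HINT (F2).  From `splay_gain_right`, `splay_gain_left` (their hypothesis `c ∈ inorder t` is only used for
the case `g = c`, which does not occur for a gap), `onP_root` (nodes beyond the new root `x`), and the same
transfer as in F1; or by induction over `Spl` (SpRel).  `lca_L`, `lca_R` give the uniqueness. -/

theorem F2_conv_right {x p g c : ℕ} {t t' : BinaryTree ℕ} (h : Dbl x p g t t') (hb : IsBST t)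
    (h1 : x < p) (h2 : p < g) (h3 : g < c) (ho : OnP g c t) : OnP p c t' := by
  induction h with
  | ll A B C D h4 h5 =>
    simp only [OnP]
    exact Or.inr (Or.inr ⟨by omega, Or.inl trivial⟩)
  | rr A B C D h4 h5 => omega
  | lr A B C D h4 h5 => omega
  | rl A B C D h4 h5 => omega
  | inL a r h4 h5 ih =>
    obtain ⟨hl, hr, hla, hra⟩ := bst_node.1 hb
    obtain ⟨m1, m2, m3⟩ := dbl_mem h5
    have k := hla _ m3
    simp only [OnP] at ho ⊢
    rcases ho with ho | ⟨h6, ho⟩ | ⟨h6, ho⟩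
    · omega
    · exact Or.inr (Or.inl ⟨h6, ih hl ho⟩)
    · have := hra _ (onP_mem ho)
      omega
  | inR a l h4 h5 ih =>
    obtain ⟨hl, hr, hla, hra⟩ := bst_node.1 hb
    obtain ⟨m1, m2, m3⟩ := dbl_mem h5
    have k := hra _ m3
    simp only [OnP] at ho ⊢
    rcases ho with ho | ⟨h6, ho⟩ | ⟨h6, ho⟩
    · omega
    · have := hla _ (onP_mem ho)
      omega
    · exact Or.inr (Or.inr ⟨h6, ih hr ho⟩)

theorem F2_conv_left {x p g c : ℕ} {t t' : BinaryTree ℕ} (h : Dbl x p g t t') (hb : IsBST t)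
    (h1 : p < x) (h2 : g < p) (h3 : c < g) (ho : OnP g c t) : OnP p c t' := by
  induction h with
  | rr A B C D h4 h5 =>
    simp only [OnP]
    exact Or.inr (Or.inl ⟨by omega, Or.inl trivial⟩)
  | ll A B C D h4 h5 => omega
  | lr A B C D h4 h5 => omega
  | rl A B C D h4 h5 => omega
  | inL a r h4 h5 ih =>
    obtain ⟨hl, hr, hla, hra⟩ := bst_node.1 hb
    obtain ⟨m1, m2, m3⟩ := dbl_mem h5
    have k := hla _ m3
    simp only [OnP] at ho ⊢
    rcases ho with ho | ⟨h6, ho⟩ | ⟨h6, ho⟩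
    · omega
    · exact Or.inr (Or.inl ⟨h6, ih hl ho⟩)
    · have := hra _ (onP_mem ho)
      omega
  | inR a l h4 h5 ih =>
    obtain ⟨hl, hr, hla, hra⟩ := bst_node.1 hb
    obtain ⟨m1, m2, m3⟩ := dbl_mem h5
    have k := hra _ m3
    simp only [OnP] at ho ⊢
    rcases ho with ho | ⟨h6, ho⟩ | ⟨h6, ho⟩
    · omega
    · have := hla _ (onP_mem ho)
      omega
    · exact Or.inr (Or.inr ⟨h6, ih hr ho⟩)

theorem F2_gain_right {x v c : ℕ} {t : BinaryTree ℕ} (hb : IsBST t) (hm : x ∈ inorder t)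
    (hc : c ∉ inorder t) (h1 : x < v) (h2 : v < c) :
    OnP v c (splay x t) ↔ OnP v c t ∨
      ∃ g, (v, g) ∈ pairUp (ancs x t) ∧ v < g ∧ g < c ∧ OnP g c t := by
  have key := splay_induct (x := x) (P := fun t t' => x ∈ inorder t → c ∉ inorder t →
      (OnP v c t' ↔ OnP v c t ∨
        ∃ g, (v, g) ∈ pairUp (ancs x t) ∧ v < g ∧ g < c ∧ OnP g c t)) ?_ ?_ ?_ hb hm
  · exact key hm hc
  · intro t hb h0 _ _
    rw [ancs_of_at0 h0]
    simp [pairUp]
  · intro y t t' hb h3 h4 hz _ _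
    rw [zig_right hz (h1.trans h2) h1, zig_ancs hz]
    simp [pairUp]
  · intro p g d t t' t'' hb h3 h4 h5 h6 hz ih hx hc
    have hin := dbl_inorder hz
    have ih := ih (by rw [hin]; exact hx) (by rw [hin]; exact hc)
    obtain ⟨j1, j2⟩ := dbl_gain_right hz hb h1 h2
    have hnd := ancs_nodup hb hx
    rw [dbl_ancs hz] at hnd ⊢
    simp only [List.nodup_cons, List.mem_cons, not_or] at hnd
    simp only [pairUp, List.mem_cons, Prod.mk.injEq]
    rw [ih]
    constructor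
    · rintro (h7 | ⟨g', k1, k2, k3, k4⟩)
      · by_cases hn : OnP v c t
        · exact Or.inl hn
        · obtain ⟨k1, k2, k3, k4⟩ := j2 h7 hn
          have k5 : g ≠ c := fun e => hc (e ▸ onP_mem k4)
          exact Or.inr ⟨g, Or.inl ⟨k1, rfl⟩, k2, by omega, k4⟩
      · right
        refine ⟨g', Or.inr k1, k2, k3, ?_⟩
        by_contra h9
        have := (dbl_gain_right hz hb (h1.trans k2) k3).2 k4 h9
        exact hnd.1.2 (this.1 ▸ (mem_pairUp k1).2)
    · rintro (h7 | ⟨g', ⟨k0, k1⟩ | k1, k2, k3, k4⟩)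
      · exact Or.inl (j1 h7)
      · subst k0 k1
        exact Or.inl (F2_conv_right hz hb h1 k2 k3 k4)
      · exact Or.inr ⟨g', k1, k2, k3, (dbl_gain_right hz hb (h1.trans k2) k3).1 k4⟩

theorem F2_gain_left {x v c : ℕ} {t : BinaryTree ℕ} (hb : IsBST t) (hm : x ∈ inorder t)
    (hc : c ∉ inorder t) (h1 : v < x) (h2 : c < v) :
    OnP v c (splay x t) ↔ OnP v c t ∨
      ∃ g, (v, g) ∈ pairUp (ancs x t) ∧ g < v ∧ c < g ∧ OnP g c t := by
  have key := splay_induct (x := x) (P := fun t t' => x ∈ inorder t → c ∉ inorder t →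
      (OnP v c t' ↔ OnP v c t ∨
        ∃ g, (v, g) ∈ pairUp (ancs x t) ∧ g < v ∧ c < g ∧ OnP g c t)) ?_ ?_ ?_ hb hm
  · exact key hm hc
  · intro t hb h0 _ _
    rw [ancs_of_at0 h0]
    simp [pairUp]
  · intro y t t' hb h3 h4 hz _ _
    rw [zig_left hz (h2.trans h1) h1, zig_ancs hz]
    simp [pairUp]
  · intro p g d t t' t'' hb h3 h4 h5 h6 hz ih hx hc
    have hin := dbl_inorder hz
    have ih := ih (by rw [hin]; exact hx) (by rw [hin]; exact hc)
    obtain ⟨j1, j2⟩ := dbl_gain_left hz hb h1 h2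
    have hnd := ancs_nodup hb hx
    rw [dbl_ancs hz] at hnd ⊢
    simp only [List.nodup_cons, List.mem_cons, not_or] at hnd
    simp only [pairUp, List.mem_cons, Prod.mk.injEq]
    rw [ih]
    constructor
    · rintro (h7 | ⟨g', k1, k2, k3, k4⟩)
      · by_cases hn : OnP v c t
        · exact Or.inl hn
        · obtain ⟨k1, k2, k3, k4⟩ := j2 h7 hn
          have k5 : g ≠ c := fun e => hc (e ▸ onP_mem k4)
          exact Or.inr ⟨g, Or.inl ⟨k1, rfl⟩, k2, by omega, k4⟩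
      · right
        refine ⟨g', Or.inr k1, k2, k3, ?_⟩
        by_contra h9
        have := (dbl_gain_left hz hb (k2.trans h1) k3).2 k4 h9
        exact hnd.1.2 (this.1 ▸ (mem_pairUp k1).2)
    · rintro (h7 | ⟨g', ⟨k0, k1⟩ | k1, k2, k3, k4⟩)
      · exact Or.inl (j1 h7)
      · subst k0 k1
        exact Or.inl (F2_conv_left hz hb h1 k2 k3 k4)
      · exact Or.inr ⟨g', k1, k2, k3, (dbl_gain_left hz hb (k2.trans h1) k3).1 k4⟩

theorem F2_gap_notMem {c : ℕ} {t : BinaryTree ℕ} :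
    2 * c ∉ inorder (mapT (fun v => 2 * v + 1) t) := by
  rw [mapT_inorder, List.mem_map]
  rintro ⟨a, _, h⟩
  have h' : 2 * a + 1 = 2 * c := h
  omega

/-- The pairs of the renamed tree, the lower node given. -/
theorem F2_pairs {x g v : ℕ} {t : BinaryTree ℕ} :
    (2 * v + 1, g) ∈ pairUp (ancs (2 * x + 1) (mapT (fun v => 2 * v + 1) t)) ↔
      ∃ q, g = 2 * q + 1 ∧ (v, q) ∈ pairUp (ancs x t) := by
  have h : ancs (2 * x + 1) (mapT (fun v => 2 * v + 1) t) = (ancs x t).map (fun v => 2 * v + 1) :=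
    ancs_mapT (F1_mono x _)
  rw [h, F1_pairUp, List.mem_map]
  constructor
  · rintro ⟨⟨a, b⟩, h1, h2⟩
    simp only [Prod.map_apply, Prod.mk.injEq] at h2
    have : a = v := by omega
    subst this
    exact ⟨b, h2.2.symm, h1⟩
  · rintro ⟨q, rfl, h1⟩
    exact ⟨(v, q), h1, rfl⟩

theorem F2_root {x u : ℕ} {t : BinaryTree ℕ} (h : At x 0 t) : OnP x u t := by
  cases t with
  | nil => simp [At] at h
  | node a l r =>
    simp only [At] at h
    exact Or.inl h

/-- The left ancestors of the gap `c > x` after the splay. -/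
theorem F2L {x c v : ℕ} {t : BinaryTree ℕ} (hb : IsBST t) (hm : x ∈ inorder t) (h : x < c) :
    v ∈ Lg c (splay x t) ↔ v = x ∨ (x < v ∧ (v ∈ Lg c t ∨
      ∃ g, (v, g) ∈ pairUp (ancs x t) ∧ v < g ∧ g ∈ Lg c t)) := by
  simp only [mem_Lg, mem_gp_iff]
  rw [F1_splay hb hm]
  have hb' := F1_bst hb
  have hm' := F1_mem.2 hm
  have hr := splay_root hb' hm'
  rcases Nat.lt_trichotomy v x with h1 | h1 | h1
  · constructor
    · rintro ⟨h2, -⟩
      exact absurd h2 (onP_root hr (splay_bst hb' hm') (Or.inl ⟨by omega, by omega⟩))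
    · rintro (h2 | ⟨h2, -⟩) <;> omega
  · subst h1
    exact ⟨fun _ => Or.inl rfl, fun _ => ⟨F2_root hr, h⟩⟩
  · by_cases hc : v < c
    · rw [F2_gain_right hb' hm' F2_gap_notMem (by omega) (by omega)]
      simp only [F2_pairs]
      constructor
      · rintro ⟨h2 | ⟨g, ⟨q, rfl, h3⟩, h4, h5, h6⟩, -⟩
        · exact Or.inr ⟨h1, Or.inl ⟨h2, hc⟩⟩
        · exact Or.inr ⟨h1, Or.inr ⟨q, h3, by omega, h6, by omega⟩⟩
      · rintro (h2 | ⟨-, ⟨h2, -⟩ | ⟨q, h3, h4, h6, h5⟩⟩)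
        · omega
        · exact ⟨Or.inl h2, hc⟩
        · exact ⟨Or.inr ⟨2 * q + 1, ⟨q, rfl, h3⟩, by omega, by omega, h6⟩, hc⟩
    · constructor
      · rintro ⟨-, h2⟩
        exact absurd h2 hc
      · rintro (h2 | ⟨-, ⟨-, h2⟩ | ⟨q, h3, h4, h6, h5⟩⟩) <;> omega

/-- The right ancestors of the gap `c ≤ x` after the splay. -/
theorem F2R {x c v : ℕ} {t : BinaryTree ℕ} (hb : IsBST t) (hm : x ∈ inorder t) (h : c ≤ x) :
    v ∈ Rg c (splay x t) ↔ v = x ∨ (v < x ∧ (v ∈ Rg c t ∨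
      ∃ g, (v, g) ∈ pairUp (ancs x t) ∧ g < v ∧ g ∈ Rg c t)) := by
  simp only [mem_Rg, mem_gp_iff]
  rw [F1_splay hb hm]
  have hb' := F1_bst hb
  have hm' := F1_mem.2 hm
  have hr := splay_root hb' hm'
  rcases Nat.lt_trichotomy v x with h1 | h1 | h1
  · by_cases hc : c ≤ v
    · rw [F2_gain_left hb' hm' F2_gap_notMem (by omega) (by omega)]
      simp only [F2_pairs]
      constructor
      · rintro ⟨h2 | ⟨g, ⟨q, rfl, h3⟩, h4, h5, h6⟩, -⟩
        · exact Or.inr ⟨h1, Or.inl ⟨h2, hc⟩⟩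
        · exact Or.inr ⟨h1, Or.inr ⟨q, h3, by omega, h6, by omega⟩⟩
      · rintro (h2 | ⟨-, ⟨h2, -⟩ | ⟨q, h3, h4, h6, h5⟩⟩)
        · omega
        · exact ⟨Or.inl h2, hc⟩
        · exact ⟨Or.inr ⟨2 * q + 1, ⟨q, rfl, h3⟩, by omega, by omega, h6⟩, hc⟩
    · constructor
      · rintro ⟨-, h2⟩
        exact absurd h2 hc
      · rintro (h2 | ⟨-, ⟨-, h2⟩ | ⟨q, h3, h4, h6, h5⟩⟩) <;> omega
  · subst h1
    exact ⟨fun _ => Or.inl rfl, fun _ => ⟨F2_root hr, h⟩⟩
  · constructor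
    · rintro ⟨h2, -⟩
      exact absurd h2 (onP_root hr (splay_bst hb' hm') (Or.inr ⟨by omega, by omega⟩))
    · rintro (h2 | ⟨h2, -⟩) <;> omega

end Pool.Agent.SplPat
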