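import Pool.Agent.SplPat.GapB
import Pool.Agent.SplPat.F2
import Pool.Agent.SplPat.SpRel

set_option autoImplicit false

namespace Pool.Agent.SplPat

open BinaryTree Pool.Agent.MP_c42954_lc.Scan

theorem FQ_clog {c c' : ℕ} (h : 2 * c' ≤ c + 1) (hc : 2 ≤ c) :
    Nat.clog 2 (2 * c') + 1 ≤ Nat.clog 2 (2 * c) := by
  have e1 : Nat.clog 2 (2 * c) = Nat.clog 2 c + 1 := by
    rw [Nat.clog_of_two_le (by norm_num) (by omega)]
    congr 2
    omega
  rw [e1]
  apply Nat.add_le_add_right
  have h1 : c ≤ 2 ^ Nat.clog 2 c := Nat.le_pow_clog (by norm_num) c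
  have h2 : 0 < Nat.clog 2 c := Nat.clog_pos (by norm_num) hc
  apply Nat.clog_le_of_le_pow
  obtain ⟨k, hk⟩ : ∃ k, Nat.clog 2 c = k + 1 := ⟨Nat.clog 2 c - 1, by omega⟩
  rw [hk, pow_succ] at h1 ⊢
  omega

theorem FQ_list (W : ℕ → ℕ) : ∀ L : List ℕ, L.IsChain (fun p q => 1 ≤ W p + W q) →
    L.length ≤ 2 * (L.map W).sum + 1
  | [], _ => by simp
  | [p], _ => by simp
  | p :: q :: L, h => by
      have h1 : 1 ≤ W p + W q := by
        rw [List.isChain_cons_cons] at h
        exact h.1
      have h2 : L.IsChain (fun p q => 1 ≤ W p + W q) := by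
        rw [List.isChain_cons_cons] at h
        exact h.2.tail
      have := FQ_list W L h2
      simp only [List.length_cons, List.map_cons, List.sum_cons]
      omega

/-- Weights on a finite set: consecutive weights have sum `≥ 1` and the first one is `≥ 1`. -/
theorem FQ_weights (W : ℕ → ℕ) (T : Finset ℕ)
    (h1 : ∀ p ∈ T, (∀ q ∈ T, p ≤ q) → 1 ≤ W p)
    (h2 : ∀ p ∈ T, ∀ q ∈ T, p < q → (∀ z ∈ T, z ≤ p ∨ q ≤ z) → 1 ≤ W p + W q) :
    T.card ≤ 2 * ∑ i ∈ T, W i := by
  have hs : (T.sort (· ≤ ·)).Pairwise (· < ·) := Finset.sortedLT_sort T |>.pairwise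
  have hsum : ∑ i ∈ T, W i = ((T.sort (· ≤ ·)).map W).sum := by
    conv_lhs => rw [← Finset.sort_toFinset (s := T) (r := (· ≤ ·))]
    exact List.sum_toFinset W (Finset.sort_nodup (s := T) (r := (· ≤ ·)))
  have hchain : (T.sort (· ≤ ·)).IsChain (fun p q => 1 ≤ W p + W q) := by
    rw [List.isChain_iff_getElem]
    intro i hi
    have hs' := List.pairwise_iff_getElem.1 hs
    apply h2
    · exact (Finset.mem_sort (· ≤ ·)).1 (List.getElem_mem _)
    · exact (Finset.mem_sort (· ≤ ·)).1 (List.getElem_mem _)
    · exact hs' i (i + 1) (by omega) hi (by omega)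
    · intro z hz
      obtain ⟨k, hk, rfl⟩ := List.mem_iff_getElem.1 ((Finset.mem_sort (· ≤ ·)).2 hz)
      rcases lt_trichotomy k i with h | h | h
      · left; exact (hs' k i hk (by omega) h).le
      · subst h; left; exact le_rfl
      · rcases Nat.lt_or_ge (i + 1) k with h3 | h3
        · right; exact (hs' (i + 1) k hi hk h3).le
        · have : k = i + 1 := by omega
          subst this; right; exact le_rfl
  rw [hsum]
  have hlen : T.card = (T.sort (· ≤ ·)).length := (Finset.length_sort (· ≤ ·)).symm
  rw [hlen]
  cases hL : T.sort (· ≤ ·) with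
  | nil => simp
  | cons p L =>
    rw [hL] at hchain hs
    have hp : p ∈ T := (Finset.mem_sort (· ≤ ·)).1 (by rw [hL]; simp)
    have hW : 1 ≤ W p := by
      apply h1 p hp
      intro q hq
      have hq' : q ∈ T.sort (· ≤ ·) := (Finset.mem_sort (· ≤ ·)).2 hq
      rw [hL, List.mem_cons] at hq'
      rcases hq' with rfl | hq'
      · exact le_rfl
      · exact ((List.pairwise_cons.1 hs).1 q hq').le
    have := FQ_list W L hchain.tail
    simp only [List.length_cons, List.map_cons, List.sum_cons]
    omega

section core

variable {b j x n : ℕ} {a : ℕ → ℕ} {R R' : Finset ℕ}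

theorem FQ_block {i : ℕ}
    (hord : ∀ i k, i < k → k < n → x / b < a i / b → x / b < a k / b → a i < a k)
    (hF3 : ∀ k, k + 2 < n → x / b < a k / b → x / b < a (k + 1) / b → x / b < a (k + 2) / b →
      a (k + 1) ∉ R' ∨ a (k + 2) ∉ R')
    (hi : x / b < i)
    (hns : ∀ k < n, a k / b = i → 0 < k ∧ x / b < a (k - 1) / b) :
    2 * ((Finset.range n).filter (fun k => a k / b = i ∧ a k ∈ R')).card ≤
      ((Finset.range n).filter (fun k => a k / b = i)).card + 1 := by
  set N := (Finset.range n).filter (fun k => a k / b = i ∧ a k ∈ R') with hN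
  set Lo := (Finset.range n).filter (fun k => a k / b = i ∧ a k ∉ R') with hLo
  have hcard : ((Finset.range n).filter (fun k => a k / b = i)).card = N.card + Lo.card := by
    rw [← Finset.card_filter_add_card_filter_not (s := (Finset.range n).filter
      (fun k => a k / b = i)) (p := fun k => a k ∈ R'), Finset.filter_filter,
      Finset.filter_filter]
  -- the non-lost positions whose predecessor lies in the block
  have hle : ∀ p q, p < q → q < n → x / b < a p / b → x / b < a q / b → a p / b ≤ a q / b :=
    fun p q h1 h2 h3 h4 => Nat.div_le_div_right (hord p q h1 h2 h3 h4).le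
  have h1 : (N.filter (fun k => a (k - 1) / b = i)).card ≤ Lo.card := by
    apply Finset.card_le_card_of_injOn (fun k => k - 1)
    · intro k hk
      simp only [hN, Finset.coe_filter, Finset.mem_filter, Finset.mem_range,
        Set.mem_ofPred_eq] at hk
      obtain ⟨⟨hk1, hk2, hk3⟩, hk4⟩ := hk
      obtain ⟨hk5, hk6⟩ := hns k hk1 hk2
      obtain ⟨hk7, hk8⟩ := hns (k - 1) (by omega) hk4
      simp only [hLo, Finset.coe_filter, Finset.mem_range, Set.mem_ofPred_eq]
      refine ⟨by omega, hk4, ?_⟩
      have := hF3 (k - 2) (by omega) (by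
        have : k - 1 - 1 = k - 2 := by omega
        rw [← this]; exact hk8) (by
        have : k - 2 + 1 = k - 1 := by omega
        rw [this]; omega) (by
        have : k - 2 + 2 = k := by omega
        rw [this]; omega)
      have e1 : k - 2 + 1 = k - 1 := by omega
      have e2 : k - 2 + 2 = k := by omega
      rw [e1, e2] at this
      tauto
    · intro k hk k' hk' h
      simp only [hN, Finset.coe_filter, Finset.mem_filter, Finset.mem_range,
        Set.mem_ofPred_eq] at hk hk'
      obtain ⟨hk5, hk6⟩ := hns k hk.1.1 hk.1.2.1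
      obtain ⟨hk7, hk8⟩ := hns k' hk'.1.1 hk'.1.2.1
      simp only at h
      omega
  have h2 : (N.filter (fun k => ¬ a (k - 1) / b = i)).card ≤ 1 := by
    rw [Finset.card_le_one]
    have key : ∀ k k', k < k' → k ∈ N.filter (fun k => ¬ a (k - 1) / b = i) →
        k' ∈ N.filter (fun k => ¬ a (k - 1) / b = i) → False := by
      intro k k' hlt hk hk'
      simp only [hN, Finset.mem_filter, Finset.mem_range] at hk hk'
      obtain ⟨⟨hk1, hk2, hk3⟩, hk4⟩ := hk
      obtain ⟨⟨hk1', hk2', hk3'⟩, hk4'⟩ := hk'
      obtain ⟨hk5, hk6⟩ := hns k' hk1' hk2'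
      apply hk4'
      have h3 : a (k' - 1) / b ≤ i := by
        rw [← hk2']
        exact hle (k' - 1) k' (by omega) hk1' hk6 (by omega)
      have h4 : i ≤ a (k' - 1) / b := by
        rcases Nat.lt_or_ge k (k' - 1) with h | h
        · rw [← hk2]
          exact hle k (k' - 1) h (by omega) (by omega) hk6
        · have : k = k' - 1 := by omega
          rw [← this, hk2]
      omega
    intro k hk k' hk'
    rcases lt_trichotomy k k' with h | h | h
    · exact (key k k' h hk hk').elim
    · exact h
    · exact (key k' k h hk' hk).elim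
  have h3 : N.card = (N.filter (fun k => a (k - 1) / b = i)).card +
      (N.filter (fun k => ¬ a (k - 1) / b = i)).card :=
    (Finset.card_filter_add_card_filter_not _).symm
  omega

theorem FQ_core
    (hinj : ∀ i k, i < n → k < n → a i = a k → i = k)
    (hord : ∀ i k, i < k → k < n → x / b < a i / b → x / b < a k / b → a i < a k)
    (hF3 : ∀ k, k + 2 < n → x / b < a k / b → x / b < a (k + 1) / b → x / b < a (k + 2) / b →
      a (k + 1) ∉ R' ∨ a (k + 2) ∉ R')
    (hbelow : ∀ r ∈ R, (∀ k < n, a k ≠ r) → ∀ k < n, x / b < a k / b → r < a k)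
    (hsub : R' ⊆ R)
    (hanc : ∀ k < n, x / b < a k / b → a k ∈ R) :
    (((Finset.range n).filter (fun k => x / b < a k / b ∧ a k / b < j)).image
        (fun k => a k / b)).card
      + 2 * ∑ i ∈ Finset.Ico (x / b + 1) j,
          Nat.clog 2 (2 * (R'.filter (fun v => v / b = i)).card) ≤
    2 * ∑ i ∈ Finset.Ico (x / b + 1) j, Nat.clog 2 (2 * (R.filter (fun v => v / b = i)).card)
      + 2 * ((Finset.range n).filter (fun k => (x / b < a k / b ∧ a k / b < j) ∧
          (k = 0 ∨ a (k - 1) / b ≤ x / b))).card := by
  classical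
  set P := (Finset.range n).filter (fun k => x / b < a k / b ∧ a k / b < j) with hP
  set T := P.image (fun k => a k / b) with hT
  set St := (Finset.range n).filter (fun k => (x / b < a k / b ∧ a k / b < j) ∧
          (k = 0 ∨ a (k - 1) / b ≤ x / b)) with hSt
  have hle : ∀ p q, p < q → q < n → x / b < a p / b → x / b < a q / b → a p / b ≤ a q / b :=
    fun p q h1 h2 h3 h4 => Nat.div_le_div_right (hord p q h1 h2 h3 h4).le
  set dr : ℕ → ℕ := fun i => Nat.clog 2 (2 * (R.filter (fun v => v / b = i)).card) -
    Nat.clog 2 (2 * (R'.filter (fun v => v / b = i)).card) with hdr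
  have hdr1 : ∀ i, Nat.clog 2 (2 * (R'.filter (fun v => v / b = i)).card) + dr i =
      Nat.clog 2 (2 * (R.filter (fun v => v / b = i)).card) := by
    intro i
    have h1 : (R'.filter (fun v => v / b = i)).card ≤ (R.filter (fun v => v / b = i)).card :=
      Finset.card_le_card (Finset.filter_subset_filter _ hsub)
    have h2 : Nat.clog 2 (2 * (R'.filter (fun v => v / b = i)).card) ≤
        Nat.clog 2 (2 * (R.filter (fun v => v / b = i)).card) :=
      Nat.clog_mono_right 2 (by omega)
    simp only [hdr]
    omega
  have hTI : T ⊆ Finset.Ico (x / b + 1) j := by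
    intro i hi
    simp only [hT, hP, Finset.mem_image, Finset.mem_filter, Finset.mem_range] at hi
    obtain ⟨k, ⟨_, h2, h3⟩, rfl⟩ := hi
    rw [Finset.mem_Ico]; omega
  -- blocks without starts
  have hgood : ∀ i ∈ T, dr i = 0 → (St.filter (fun k => a k / b = i)).card = 0 →
      ∃ k < n, a k / b = i ∧ a k ∈ R' ∧ (∀ k' < n, a k' / b = i → k' = k) ∧ 0 < k ∧
        x / b < a (k - 1) / b := by
    intro i hi hd hs
    have hi' := Finset.mem_Ico.1 (hTI hi)
    have hns : ∀ k < n, a k / b = i → 0 < k ∧ x / b < a (k - 1) / b := by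
      intro k hk hk2
      rw [Finset.card_eq_zero, Finset.filter_eq_empty_iff] at hs
      by_contra hcon
      refine hs (x := k) ?_ hk2
      simp only [hSt, Finset.mem_filter, Finset.mem_range]
      refine ⟨hk, ⟨by omega, by omega⟩, ?_⟩
      by_contra h5
      apply hcon
      constructor <;> omega
    have hBne : ((Finset.range n).filter (fun k => a k / b = i)).Nonempty := by
      simp only [hT, hP, Finset.mem_image, Finset.mem_filter, Finset.mem_range] at hi
      obtain ⟨k, ⟨h1, h2, h3⟩, h4⟩ := hi
      exact ⟨k, by simp [h1, h4]⟩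
    have hR : R.filter (fun v => v / b = i) =
        ((Finset.range n).filter (fun k => a k / b = i)).image a := by
      ext r
      simp only [Finset.mem_filter, Finset.mem_image, Finset.mem_range]
      constructor
      · rintro ⟨hr, hri⟩
        by_cases hex : ∃ k < n, a k = r
        · obtain ⟨k, hk, rfl⟩ := hex
          exact ⟨k, ⟨hk, hri⟩, rfl⟩
        · exfalso
          push Not at hex
          have hb' := hbelow r hr hex
          obtain ⟨m, hm, hmin⟩ : ∃ m ∈ (Finset.range n).filter (fun k => a k / b = i),
              ∀ k ∈ (Finset.range n).filter (fun k => a k / b = i), m ≤ k :=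
            ⟨_, Finset.min'_mem _ hBne, fun k hk => Finset.min'_le _ k hk⟩
          simp only [Finset.mem_filter, Finset.mem_range] at hm hmin
          obtain ⟨h5, h6⟩ := hns m hm.1 hm.2
          have h7 := hb' (m - 1) (by omega) h6
          have h8 := hle (m - 1) m (by omega) hm.1 h6 (by omega)
          have h9 := Nat.div_le_div_right (c := b) h7.le
          have := hmin (m - 1) ⟨by omega, by omega⟩
          omega
      · rintro ⟨k, ⟨hk, hki⟩, rfl⟩
        exact ⟨hanc k hk (by omega), hki⟩
    have hcR : (R.filter (fun v => v / b = i)).card =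
        ((Finset.range n).filter (fun k => a k / b = i)).card := by
      rw [hR, Finset.card_image_of_injOn]
      intro k hk k' hk' h
      simp only [Finset.coe_filter, Finset.mem_range, Set.mem_ofPred_eq] at hk hk'
      exact hinj k k' hk.1 hk'.1 h
    have hR' : R'.filter (fun v => v / b = i) =
        ((Finset.range n).filter (fun k => a k / b = i ∧ a k ∈ R')).image a := by
      ext r
      simp only [Finset.mem_filter, Finset.mem_image, Finset.mem_range]
      constructor
      · rintro ⟨hr, hri⟩
        have : r ∈ R.filter (fun v => v / b = i) := by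
          simp [hsub hr, hri]
        rw [hR] at this
        simp only [Finset.mem_filter, Finset.mem_image, Finset.mem_range] at this
        obtain ⟨k, ⟨hk, hki⟩, rfl⟩ := this
        exact ⟨k, ⟨hk, hki, hr⟩, rfl⟩
      · rintro ⟨k, ⟨hk, hki, hkr⟩, rfl⟩
        exact ⟨hkr, hki⟩
    have hcR' : (R'.filter (fun v => v / b = i)).card =
        ((Finset.range n).filter (fun k => a k / b = i ∧ a k ∈ R')).card := by
      rw [hR', Finset.card_image_of_injOn]
      intro k hk k' hk' h
      simp only [Finset.coe_filter, Finset.mem_range, Set.mem_ofPred_eq] at hk hk'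
      exact hinj k k' hk.1 hk'.1 h
    have hblock := FQ_block (R' := R') hord hF3 (i := i) (by omega) hns
    have hpos : 0 < ((Finset.range n).filter (fun k => a k / b = i)).card :=
      Finset.card_pos.2 hBne
    have hd1 := hdr1 i
    rw [hd, hcR, hcR'] at hd1
    have hc1 : ((Finset.range n).filter (fun k => a k / b = i)).card = 1 := by
      by_contra hcon
      have := FQ_clog hblock (by omega)
      omega
    have hc1' : ((Finset.range n).filter (fun k => a k / b = i ∧ a k ∈ R')).card ≠ 0 := by
      intro hcon
      rw [hcon, hc1] at hd1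
      have : Nat.clog 2 (2 * 1) = 1 := by norm_num [Nat.clog]
      rw [this] at hd1
      simp at hd1
    obtain ⟨k, hk⟩ := Finset.card_pos.1 (Nat.pos_of_ne_zero hc1')
    simp only [Finset.mem_filter, Finset.mem_range] at hk
    refine ⟨k, hk.1, hk.2.1, hk.2.2, ?_, hns k hk.1 hk.2.1⟩
    intro k' hk' hk2'
    exact (Finset.card_le_one.1 hc1.le) k' (by simp [hk', hk2']) k (by simp [hk.1, hk.2.1])
  -- the weights
  have hmain : T.card ≤ 2 * ∑ i ∈ T, (dr i + (St.filter (fun k => a k / b = i)).card) := by
    apply FQ_weights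
    · intro p hp hmin
      have hPne : P.Nonempty := by
        rw [hT] at hp
        obtain ⟨k, hk, _⟩ := Finset.mem_image.1 hp
        exact ⟨k, hk⟩
      obtain ⟨m, hm, hmmin⟩ : ∃ m ∈ P, ∀ k ∈ P, m ≤ k :=
        ⟨_, Finset.min'_mem _ hPne, fun k hk => Finset.min'_le _ k hk⟩
      have hm' := hm
      simp only [hP, Finset.mem_filter, Finset.mem_range] at hm'
      obtain ⟨hm1, hm2, hm3⟩ := hm'
      have hmp : a m / b = p := by
        have h1 : p ≤ a m / b := hmin _ (Finset.mem_image.2 ⟨m, hm, rfl⟩)
        obtain ⟨k, hk, hkp⟩ := Finset.mem_image.1 hp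
        have h2 := hmmin k hk
        simp only [hP, Finset.mem_filter, Finset.mem_range] at hk
        have h3 : a m / b ≤ a k / b := by
          rcases Nat.lt_or_ge m k with h | h
          · exact hle m k h hk.1 hm2 hk.2.1
          · have : m = k := by omega
            rw [this]
        have hkp' : a k / b = p := hkp
        omega
      have hst : m ∈ St := by
        simp only [hSt, Finset.mem_filter, Finset.mem_range]
        refine ⟨hm1, ⟨hm2, hm3⟩, ?_⟩
        by_contra hcon
        push Not at hcon
        have h5 := hle (m - 1) m (by omega) hm1 hcon.2 hm2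
        have := hmmin (m - 1) (by
          simp only [hP, Finset.mem_filter, Finset.mem_range]
          exact ⟨by omega, hcon.2, by omega⟩)
        omega
      have : 0 < (St.filter (fun k => a k / b = p)).card :=
        Finset.card_pos.2 ⟨m, by simp only [Finset.mem_filter]; exact ⟨hst, hmp⟩⟩
      omega
    · intro p hp q hq hpq hcons
      by_contra hcon
      obtain ⟨k, hk1, hk2, hk3, hk4, hk5, hk6⟩ := hgood p hp (by omega) (by omega)
      obtain ⟨k', hk1', hk2', hk3', hk4', hk5', hk6'⟩ := hgood q hq (by omega) (by omega)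
      have hpI := Finset.mem_Ico.1 (hTI hp)
      have hqI := Finset.mem_Ico.1 (hTI hq)
      -- the predecessor of `k'`
      have h7 := hle (k' - 1) k' (by omega) hk1' hk6' (by omega)
      have h8 : a (k' - 1) / b ≠ q := by
        intro h
        have := hk4' (k' - 1) (by omega) h
        omega
      have h9 : a (k' - 1) / b ∈ T := by
        rw [hT, Finset.mem_image]
        refine ⟨k' - 1, ?_, rfl⟩
        simp only [hP, Finset.mem_filter, Finset.mem_range]
        exact ⟨by omega, hk6', by omega⟩
      have h10 : a (k' - 1) / b = p := by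
        rcases hcons _ h9 with h | h
        · by_contra hne
          have hlt : a (k' - 1) / b < p := by omega
          rcases lt_trichotomy k (k' - 1) with h11 | h11 | h11
          · have := hle k (k' - 1) h11 (by omega) (by omega) hk6'
            omega
          · rw [← h11] at hlt; omega
          · rcases Nat.lt_or_ge k' k with h12 | h12
            · have := hle k' k h12 hk1 (by omega) (by omega)
              omega
            · have : k = k' := by omega
              subst this
              omega
        · omega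
      have h11 := hk4 (k' - 1) (by omega) h10
      have h12 := hF3 (k - 1) (by omega) hk6 (by
        have : k - 1 + 1 = k := by omega
        rw [this]; omega) (by
        have : k - 1 + 2 = k' := by omega
        rw [this]; omega)
      have e1 : k - 1 + 1 = k := by omega
      have e2 : k - 1 + 2 = k' := by omega
      rw [e1, e2] at h12
      tauto
  have hsum1 : ∑ i ∈ T, (St.filter (fun k => a k / b = i)).card ≤ St.card := by
    rw [← Finset.card_biUnion]
    · apply Finset.card_le_card
      intro k hk
      obtain ⟨i, _, hi⟩ := Finset.mem_biUnion.1 hk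
      exact (Finset.mem_filter.1 hi).1
    · intro p _ q _ hpq
      rw [Function.onFun, Finset.disjoint_left]
      intro k hk hk'
      exact hpq ((Finset.mem_filter.1 hk).2.symm.trans (Finset.mem_filter.1 hk').2)
  have hsum2 : ∑ i ∈ T, dr i ≤ ∑ i ∈ Finset.Ico (x / b + 1) j, dr i :=
    Finset.sum_le_sum_of_subset hTI
  have hsum3 : ∑ i ∈ Finset.Ico (x / b + 1) j,
        Nat.clog 2 (2 * (R'.filter (fun v => v / b = i)).card) +
      ∑ i ∈ Finset.Ico (x / b + 1) j, dr i =
      ∑ i ∈ Finset.Ico (x / b + 1) j, Nat.clog 2 (2 * (R.filter (fun v => v / b = i)).card) := by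
    rw [← Finset.sum_add_distrib]
    exact Finset.sum_congr rfl (fun i _ => hdr1 i)
  rw [Finset.sum_add_distrib] at hmain
  omega

end core

theorem FQ_split3 (l : List ℕ) (k : ℕ) (h : k + 2 < l.length) :
    l = l.take k ++ l[k] :: l[k + 1] :: l[k + 2] :: l.drop (k + 3) := by
  conv_lhs => rw [← List.take_append_drop k l]
  rw [List.drop_eq_getElem_cons (i := k) (by omega),
    List.drop_eq_getElem_cons (i := k + 1) (by omega),
    List.drop_eq_getElem_cons (i := k + 1 + 1) (by omega)]

theorem FQ_split1 (l : List ℕ) (k : ℕ) (h : k < l.length) :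
    l = l.take k ++ l[k] :: l.drop (k + 1) := by
  conv_lhs => rw [← List.take_append_drop k l]
  rw [List.drop_eq_getElem_cons (i := k) (by omega)]

theorem FQ {b j x : ℕ} {t : BinaryTree ℕ} (hb : IsBST t) (hm : x ∈ inorder t) (h0 : 0 < b)
    (hx : x / b < j) :
    qR b (j * b) x t + 2 * Psi b (x / b + 1) j (splay x t) ≤
      2 * Psi b (x / b + 1) j t + 2 * il ((x / b + 1) * b) x t + 2 := by
  classical
  set e := (x / b + 1) * b with he
  have hke : ∀ v, x / b < v / b ↔ e ≤ v := by
    intro v
    rw [he, ← Nat.le_div_iff_mul_le h0]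
    exact Nat.lt_iff_add_one_le
  have hxe : x < e := by
    rw [he]
    exact Nat.lt_mul_of_div_lt (by omega) h0
  set l := ancs x t with hl
  set n := l.length with hn
  set a : ℕ → ℕ := fun k => l.getD k 0 with ha
  have hak : ∀ k (h : k < n), a k = l[k] := by
    intro k h
    simp only [ha]
    exact List.getD_eq_getElem l 0 h
  have hmem : ∀ k, k < n → a k ∈ l := by
    intro k h
    rw [hak k h]
    exact List.getElem_mem h
  have hmem' : ∀ v ∈ l, ∃ k < n, a k = v := by
    intro v hv
    obtain ⟨k, hk, rfl⟩ := List.mem_iff_getElem.1 hv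
    exact ⟨k, hk, hak k hk⟩
  have hnd : l.Nodup := ancs_nodup hb hm
  have hinj : ∀ i k, i < n → k < n → a i = a k → i = k := by
    intro i k hi hk h
    rw [hak i hi, hak k hk] at h
    exact (List.Nodup.getElem_inj_iff hnd).1 h
  have hord' : ∀ i k, i < k → k < n → (x < a i → x < a k → a i < a k) := by
    intro i k hik hk h1 h2
    have := (List.pairwise_iff_getElem.1 (ancs_order hb hm)) i k (by rw [← hl]; omega)
      (by rw [← hl]; exact hk) hik
    rw [hak i (by omega)] at h1 ⊢
    rw [hak k hk] at h2 ⊢
    exact this.1 h1 h2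
  have hgt : ∀ v, x / b < v / b → x < v := by
    intro v hv
    by_contra hcon
    have := Nat.div_le_div_right (c := b) (not_lt.1 hcon)
    omega
  have hord : ∀ i k, i < k → k < n → x / b < a i / b → x / b < a k / b → a i < a k :=
    fun i k hik hk h1 h2 => hord' i k hik hk (hgt _ h1) (hgt _ h2)
  have hF3 : ∀ k, k + 2 < n → x / b < a k / b → x / b < a (k + 1) / b →
      x / b < a (k + 2) / b → a (k + 1) ∉ Rg e (splay x t) ∨ a (k + 2) ∉ Rg e (splay x t) := by
    intro k hk h1 h2 h3
    rw [hke, hak k (by omega)] at h1
    rw [hke, hak (k + 1) (by omega)] at h2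
    rw [hke, hak (k + 2) (by omega)] at h3
    rw [hak (k + 1) (by omega), hak (k + 2) (by omega)]
    exact F3R hb hm hxe (FQ_split3 l k hk) h1 h2 h3
  have hbelow : ∀ r ∈ Rg e t, (∀ k < n, a k ≠ r) → ∀ k < n, x / b < a k / b → r < a k := by
    intro r hr hr' k hk h1
    rw [hke] at h1
    apply Rg_below hb hm hxe hr ?_ (hmem k hk) h1
    intro hcon
    obtain ⟨k', hk', e'⟩ := hmem' r hcon
    exact hr' k' hk' e'
  have hsub : Rg e (splay x t) ⊆ Rg e t := fun v hv => ((F1R hb hm hxe).1 hv).1
  have hanc : ∀ k < n, x / b < a k / b → a k ∈ Rg e t := by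
    intro k hk h1
    rw [hke] at h1
    exact anc_Rg hb hm hxe (hmem k hk) h1
  have hcore := FQ_core (j := j) hinj hord hF3 hbelow hsub hanc
  have hq : qR b (j * b) x t = (((Finset.range n).filter (fun k => x / b < a k / b ∧
      a k / b < j)).image (fun k => a k / b)).card := by
    unfold qR
    congr 1
    ext i
    simp only [List.mem_toFinset, List.mem_map, List.mem_filter, decide_eq_true_eq,
      Finset.mem_image, Finset.mem_filter, Finset.mem_range]
    constructor
    · rintro ⟨v, ⟨hv, h1, h2⟩, rfl⟩
      obtain ⟨k, hk, rfl⟩ := hmem' v hv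
      exact ⟨k, ⟨hk, h1, (Nat.div_lt_iff_lt_mul h0).2 h2⟩, rfl⟩
    · rintro ⟨k, ⟨hk, h1, h2⟩, rfl⟩
      exact ⟨a k, ⟨hmem k hk, h1, (Nat.div_lt_iff_lt_mul h0).1 h2⟩, rfl⟩
  set St := (Finset.range n).filter (fun k => (x / b < a k / b ∧ a k / b < j) ∧
          (k = 0 ∨ a (k - 1) / b ≤ x / b)) with hSt
  have hil : St.card ≤ il e x t + 1 := by
    rcases St.eq_empty_or_nonempty with h | hne
    · rw [h]; simp
    · obtain ⟨m, hm0, hmin⟩ : ∃ m ∈ St, ∀ k ∈ St, m ≤ k :=
        ⟨_, Finset.min'_mem _ hne, fun k hk => Finset.min'_le _ k hk⟩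
      have h1 : (St.erase m).card ≤ il e x t := by
        unfold il
        apply Finset.card_le_card_of_injOn (fun k => a (k - 1))
        · intro k hk
          have hk' := Finset.mem_erase.1 (Finset.mem_coe.1 hk)
          have hmk := hmin k hk'.2
          have hk2 := hk'.2
          have hm2 := hm0
          simp only [hSt, Finset.mem_filter, Finset.mem_range] at hk2 hm2
          obtain ⟨g1, ⟨g2, g3⟩, g4⟩ := hk2
          obtain ⟨f1, ⟨f2, f3⟩, f4⟩ := hm2
          have hlt : m < k := lt_of_le_of_ne hmk (Ne.symm hk'.1)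
          have g5 : a (k - 1) / b ≤ x / b := by
            rcases g4 with g4 | g4
            · omega
            · exact g4
          have hlt2 : m < k - 1 := by
            rcases Nat.lt_or_ge m (k - 1) with h | h
            · exact h
            · have : m = k - 1 := by omega
              rw [this] at f2
              omega
          have hax : a (k - 1) < x := by
            by_contra hcon
            have hne' : a (k - 1) ≠ x := by
              intro hcon2
              have := (mem_ancs hb hm).1 (hmem (k - 1) (by omega))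
              exact this.2 hcon2
            have h5 := hord' m (k - 1) hlt2 (by omega) (hgt _ f2) (by omega)
            have := Nat.div_le_div_right (c := b) h5.le
            omega
          have hLg : a (k - 1) ∈ Lg e t := by
            rw [hak (k - 1) (by omega)] at hax ⊢
            refine between_Lg (r := a m) hb hm hxe (FQ_split1 l (k - 1) (by omega)) hax ?_
              ((hke _).1 f2)
            rw [hak m f1]
            rw [List.mem_take_iff_getElem]
            exact ⟨m, by omega, rfl⟩
          simp only [Finset.coe_filter, Set.mem_ofPred_eq]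
          exact ⟨hLg, hax⟩
        · intro k hk k' hk' h
          have hk1 := Finset.mem_erase.1 (Finset.mem_coe.1 hk)
          have hk1' := Finset.mem_erase.1 (Finset.mem_coe.1 hk')
          have hmk := hmin k hk1.2
          have hmk' := hmin k' hk1'.2
          have hk2 := hk1.2
          have hk2' := hk1'.2
          simp only [hSt, Finset.mem_filter, Finset.mem_range] at hk2 hk2'
          have := hinj (k - 1) (k' - 1) (by omega) (by omega) h
          omega
      have h2 : (St.erase m).card + 1 = St.card := Finset.card_erase_add_one hm0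
      omega
  rw [hq]
  unfold Psi
  rw [← he]
  omega

end Pool.Agent.SplPat
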