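import Pool.Agent.MP_c42954_lc.Scan.Relabel

set_option autoImplicit false

/-!
# Splaying pattern-avoiding sequences: definitions

Keys are natural numbers.  The *gap* `c` separates the keys `< c` from the keys `≥ c`.
-/

namespace Pool.Agent.SplPat

open BinaryTree Pool.Agent.MP_c42954_lc.Scan

/-- The nodes on the search path to the gap `c`, from the bottom upwards. -/
def gp (c : ℕ) : BinaryTree ℕ → List ℕ
  | .nil => []
  | .node a l r => if a < c then gp c r ++ [a] else gp c l ++ [a]

/-- The nodes `≥ c` on the search path to the gap `c`. -/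
def Rg (c : ℕ) (t : BinaryTree ℕ) : Finset ℕ := (gp c t).toFinset.filter (fun v => c ≤ v)

/-- The nodes `< c` on the search path to the gap `c`. -/
def Lg (c : ℕ) (t : BinaryTree ℕ) : Finset ℕ := (gp c t).toFinset.filter (fun v => v < c)

/-- Splaying as double steps from the bottom: `x` lies at even depth in `t`, and `A`, `B` are the
subtrees of `x` after all double steps. -/
inductive Ev (x : ℕ) : BinaryTree ℕ → BinaryTree ℕ → BinaryTree ℕ → Prop
  | base (A B : BinaryTree ℕ) : Ev x (.node x A B) A B
  | ll {p g : ℕ} {L C D A B : BinaryTree ℕ} : x < p → x < g → Ev x L A B →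
      Ev x (.node g (.node p L C) D) A (.node p B (.node g C D))
  | lr {p g : ℕ} {R C D A B : BinaryTree ℕ} : p < x → x < g → Ev x R A B →
      Ev x (.node g (.node p C R) D) (.node p C A) (.node g B D)
  | rr {p g : ℕ} {R C D A B : BinaryTree ℕ} : p < x → g < x → Ev x R A B →
      Ev x (.node g D (.node p C R)) (.node p (.node g D C) A) B
  | rl {p g : ℕ} {L C D A B : BinaryTree ℕ} : x < p → g < x → Ev x L A B →
      Ev x (.node g D (.node p L C)) (.node g D A) (.node p B C)

/-- Splaying `x` in `t` makes `x` the root with subtrees `A`, `B` (the last step may be a zig). -/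
inductive Spl (x : ℕ) : BinaryTree ℕ → BinaryTree ℕ → BinaryTree ℕ → Prop
  | ev {t A B : BinaryTree ℕ} : Ev x t A B → Spl x t A B
  | zl {g : ℕ} {L D A B : BinaryTree ℕ} : x < g → Ev x L A B → Spl x (.node g L D) A (.node g B D)
  | zr {g : ℕ} {R D A B : BinaryTree ℕ} : g < x → Ev x R A B → Spl x (.node g D R) (.node g D A) B

/-- The tree induced on the keys in `[lo, hi)`. -/
def res (lo hi : ℕ) : BinaryTree ℕ → BinaryTree ℕ
  | .nil => .nil
  | .node a l r =>
    if a < lo then res lo hi r else if hi ≤ a then res lo hi l
    else .node a (res lo hi l) (res lo hi r)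

/-- `1` if the tree is non-empty and its root lies in another block than `a` (blocks: `v / b`). -/
def cross (b a : ℕ) : BinaryTree ℕ → ℕ
  | .nil => 0
  | .node c _ _ => if c / b = a / b then 0 else 1

/-- The number of edges joining keys of different blocks. -/
def edg (b : ℕ) : BinaryTree ℕ → ℕ
  | .nil => 0
  | .node a l r => edg b l + edg b r + cross b a l + cross b a r

/-- The size of the two spines of the tree induced on `[a, a')`. -/
def sig (a a' : ℕ) (t : BinaryTree ℕ) : ℕ :=
  ((Rg a t).filter (fun v => v < a')).card + ((Lg a' t).filter (fun v => a ≤ v)).card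

/-- The number of nodes lost by the spine of `[a, a')` when `x ∉ [a, a')` is splayed. -/
def pop (x a a' : ℕ) (t : BinaryTree ℕ) : ℕ :=
  if x < a then (((Rg a t).filter (fun v => v < a')) \ Rg a (splay x t)).card
  else (((Lg a' t).filter (fun v => a ≤ v)) \ Lg a' (splay x t)).card

/-- The nodes of the spines of `[lo, hi)` which are passed and lost when `x ∈ [lo, hi)` is
splayed. -/
def van (x lo hi : ℕ) (t : BinaryTree ℕ) : ℕ :=
  ((Rg lo t).filter (fun u => x < u ∧ u < hi)).card +
    ((Lg hi t).filter (fun u => u < x ∧ lo ≤ u)).card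

/-- The number of maximal runs of elements of `S` in a list (`prev`: was the last element in
`S`?). -/
def runs (S : ℕ → Bool) : Bool → List ℕ → ℕ
  | _, [] => 0
  | prev, a :: l => (if S a && !prev then 1 else 0) + runs S (S a) l

/-- The number of runs of the block `i` among the ancestors of `x`. -/
def rs (b i x : ℕ) (t : BinaryTree ℕ) : ℕ := runs (fun v => decide (v / b = i)) false (ancs x t)

/-- The number of changes of the block along the list, starting in the block `k`. -/
def chg (b : ℕ) : ℕ → List ℕ → ℕ
  | _, [] => 0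
  | k, a :: l => (if a / b = k then 0 else 1) + chg b (a / b) l

/-- The ancestors of `x` in `[lo, hi)`. -/
def ancJ (lo hi x : ℕ) (t : BinaryTree ℕ) : List ℕ :=
  (ancs x t).filter (fun v => lo ≤ v ∧ v < hi)

/-- The number of block changes on the path to `x` in the tree induced on `[lo, hi)`. -/
def ch (b lo hi x : ℕ) (t : BinaryTree ℕ) : ℕ := chg b (x / b) (ancJ lo hi x t)

/-- The number of ancestors of `x` in the block `i`. -/
def cnt (b i x : ℕ) (t : BinaryTree ℕ) : ℕ := ((ancs x t).filter (fun v => v / b = i)).length

/-- The cost of `x` at the level `(b, [lo, hi))`: its ancestors in `[lo, hi)` outside its own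
block. -/
def dJ (b lo hi x : ℕ) (t : BinaryTree ℕ) : ℕ :=
  ((ancJ lo hi x t).filter (fun v => v / b ≠ x / b)).length

/-- The blocks right of the block of `x` and left of the gap `hi` which contain an ancestor of
`x`. -/
def qR (b hi x : ℕ) (t : BinaryTree ℕ) : ℕ :=
  (((ancs x t).filter (fun v => x / b < v / b ∧ v < hi)).map (fun v => v / b)).toFinset.card

/-- The blocks left of the block of `x` and right of the gap `lo` which contain an ancestor of
`x`. -/
def qL (b lo x : ℕ) (t : BinaryTree ℕ) : ℕ :=
  (((ancs x t).filter (fun v => v / b < x / b ∧ lo ≤ v)).map (fun v => v / b)).toFinset.card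

/-- The potential of the gap `κ * b`: the blocks `κ, ..., j - 1` count `clog₂ (2 c)`, where `c` is
the number of nodes of the block on the path to the gap. -/
def Psi (b κ j : ℕ) (t : BinaryTree ℕ) : ℕ :=
  ∑ i ∈ Finset.Ico κ j, Nat.clog 2 (2 * ((Rg (κ * b) t).filter (fun v => v / b = i)).card)

/-- The number of nodes `< x` on the path to the gap `c`. -/
def il (c x : ℕ) (t : BinaryTree ℕ) : ℕ := ((Lg c t).filter (fun v => v < x)).card

/-- A run of splaying: the trees `T 0, T 1, ...` arise by splaying `X 0, X 1, ...`. -/
structure Run (T : ℕ → BinaryTree ℕ) (X : ℕ → ℕ) (m : ℕ) : Prop where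
  bst : ∀ t ≤ m, IsBST (T t)
  mem : ∀ t < m, X t ∈ inorder (T t)
  next : ∀ t < m, T (t + 1) = splay (X t) (T t)

/-- The cells (window of length `b`, block of length `b`) met by the requests with times in
`[s, s')` and keys in `[lo, hi)`. -/
def cellsIn (b s s' lo hi : ℕ) (X : ℕ → ℕ) : Finset (ℕ × ℕ) :=
  ((Finset.Ico s s').filter (fun t => lo ≤ X t ∧ X t < hi)).image (fun t => (t / b, X t / b))

/-- All cells met by the first `m` requests. -/
def cells (b m : ℕ) (X : ℕ → ℕ) : Finset (ℕ × ℕ) :=
  (Finset.range m).image (fun t => (t / b, X t / b))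

end Pool.Agent.SplPat
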