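import Pool.Agent.SplPat.MT
import Pool.Agent.SplPat.Defs

set_option autoImplicit false

namespace Pool.Agent.SplPat

open BinaryTree Pool.Agent.MP_c42954_lc.Scan

/-- The first `m` requests of `X` avoid the pattern `π`. -/
def Avoids {k : ℕ} (π : Equiv.Perm (Fin k)) (m : ℕ) (X : ℕ → ℕ) : Prop :=
  ¬ ∃ f : Fin k → ℕ, StrictMono f ∧ (∀ i, f i < m) ∧ ∀ i j, π i < π j → X (f i) < X (f j)

/-- The pattern in the cells gives the pattern in the requests. -/
theorem CELLS_pat {k : ℕ} (π : Equiv.Perm (Fin k)) (X : ℕ → ℕ) (m b : ℕ)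
    (h : Avoids π m X) : ¬ HasPat π (cells b m X) := by
  rintro ⟨f, g, hf, hg, hfg⟩
  have h1 : ∀ i, ∃ t, t < m ∧ t / b = f i ∧ X t / b = g i := by
    intro i
    have h2 := hfg i
    rw [cells, Finset.mem_image] at h2
    obtain ⟨t, ht, h3⟩ := h2
    rw [Finset.mem_range] at ht
    rw [Prod.mk.injEq] at h3
    exact ⟨t, ht, h3.1, h3.2⟩
  choose t ht1 ht2 ht3 using h1
  have hlt : ∀ {a c : ℕ}, a / b < c / b → a < c := by
    intro a c hac
    by_contra hca
    have := Nat.div_le_div_right (c := b) (not_lt.mp hca)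
    omega
  apply h
  refine ⟨t, ?_, ht1, ?_⟩
  · intro i j hij
    apply hlt
    rw [ht2, ht2]
    exact hf hij
  · intro i j hij
    apply hlt
    rw [ht3, ht3]
    exact hg i j hij

/-! HINT (CELLS).  If the set of cells contains the pattern, choose one request in each of the k cells: the times lie in
different windows, the keys in different blocks (π is a permutation), so they form the pattern.  The cells lie in a
square of side max ⌈m/b⌉ ⌈n/b⌉ ≤ (m + n + b) / b. -/
theorem cells_le (k : ℕ) : ∃ c : ℕ, ∀ (π : Equiv.Perm (Fin k)) (X : ℕ → ℕ) (m n b : ℕ), 0 < b →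
    Avoids π m X → (∀ t < m, X t < n) → b * (cells b m X).card ≤ c * (m + n + b) := by
  obtain ⟨c, hc⟩ := marcus_tardos k
  refine ⟨c, fun π X m n b hb hav hX => ?_⟩
  have h1 : ∀ p ∈ cells b m X, p.1 < (m + n) / b + 1 ∧ p.2 < (m + n) / b + 1 := by
    intro p hp
    rw [cells, Finset.mem_image] at hp
    obtain ⟨t, ht, rfl⟩ := hp
    rw [Finset.mem_range] at ht
    have h2 := hX t ht
    constructor
    · exact Nat.lt_succ_of_le (Nat.div_le_div_right (by omega))
    · exact Nat.lt_succ_of_le (Nat.div_le_div_right (by omega))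
  have h2 := hc π _ _ h1 (CELLS_pat π X m b hav)
  calc b * (cells b m X).card ≤ b * (c * ((m + n) / b + 1)) := Nat.mul_le_mul_left b h2
    _ = c * (b * ((m + n) / b) + b) := by ring
    _ ≤ c * (m + n + b) := by
        apply Nat.mul_le_mul_left
        have := Nat.mul_div_le (m + n) b
        omega

end Pool.Agent.SplPat
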