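import Pool.Agent.SplPat.Defs

set_option autoImplicit false

namespace Pool.Agent.SplPat

open BinaryTree Pool.Agent.MP_c42954_lc.Scan

/-! HINT (MIR).  mirT_splay, mirT_inorder (Scan.Relabel), `Anti` for keys < M; ancs (f x) (mirT f t) = (ancs x t).map f
with f v = j b - 1 - v; (f v) / b = j - 1 - v / b. -/

theorem MIR_anti {M x : ℕ} (hx : x < M) {K : List ℕ} (hK : ∀ v ∈ K, v < M) :
    Anti (fun v => M - 1 - v) x K := by
  intro a ha
  have := hK a ha
  constructor
  · intro h
    show M - 1 - a < M - 1 - x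
    omega
  · intro h
    show M - 1 - x < M - 1 - a
    omega

theorem MIR_bst {M : ℕ} {t : BinaryTree ℕ} (hb : IsBST t) (hM : ∀ v ∈ inorder t, v < M) :
    IsBST (mirT (fun v => M - 1 - v) t) := by
  unfold IsBST at hb ⊢
  rw [mirT_inorder, List.pairwise_reverse, List.pairwise_map]
  refine List.Pairwise.imp_of_mem ?_ hb
  intro a b ha hb' hab
  have := hM a ha
  have := hM b hb'
  omega

/-- The keys are the same in all trees of a run. -/
theorem run_inorder {T : ℕ → BinaryTree ℕ} {X : ℕ → ℕ} {m t : ℕ} (hR : Run T X m) (ht : t ≤ m) :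
    inorder (T t) = inorder (T 0) := by
  induction t with
  | zero => rfl
  | succ t ih =>
    rw [hR.next t (by omega), splay_inorder (hR.bst t (by omega)) (hR.mem t (by omega))]
    exact ih (by omega)

theorem mirror_run {T : ℕ → BinaryTree ℕ} {X : ℕ → ℕ} {m M : ℕ} (hR : Run T X m)
    (hM : ∀ v ∈ inorder (T 0), v < M) :
    Run (fun t => mirT (fun v => M - 1 - v) (T t)) (fun t => M - 1 - X t) m := by
  have hM' : ∀ t ≤ m, ∀ v ∈ inorder (T t), v < M := by
    intro t ht v hv
    rw [run_inorder hR ht] at hv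
    exact hM v hv
  refine ⟨fun t ht => MIR_bst (hR.bst t ht) (hM' t ht), fun t ht => ?_, fun t ht => ?_⟩
  · show M - 1 - X t ∈ inorder (mirT (fun v => M - 1 - v) (T t))
    rw [mirT_inorder, List.mem_reverse, List.mem_map]
    exact ⟨X t, hR.mem t ht, rfl⟩
  · show mirT (fun v => M - 1 - v) (T (t + 1)) =
      splay (M - 1 - X t) (mirT (fun v => M - 1 - v) (T t))
    rw [hR.next t ht]
    exact (mirT_splay (f := fun v => M - 1 - v) (hR.bst t ht.le) (hR.mem t ht)
      (MIR_anti (hM' t ht.le _ (hR.mem t ht)) (hM' t ht.le))).symm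

theorem MIR_ancs {f : ℕ → ℕ} {x : ℕ} : ∀ {t : BinaryTree ℕ}, Anti f x (inorder t) →
    ancs (f x) (mirT f t) = (ancs x t).map f
  | .nil, _ => rfl
  | .node a l r, h => by
      have ha := h.iff (show a ∈ inorder (.node a l r) by simp [inorder])
      simp only [mirT, ancs, ha.1, ha.2.1, MIR_ancs h.left, MIR_ancs h.right]
      rcases Nat.lt_trichotomy x a with h3 | h3 | h3
      · rw [if_neg (by omega), if_neg (by omega), if_neg (by omega), if_pos h3]
        simp
      · rw [if_pos h3, if_pos h3]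
        simp
      · rw [if_neg (by omega), if_pos h3, if_neg (by omega), if_neg (by omega)]
        simp

theorem MIR_ancs_mem {x v : ℕ} : ∀ {t : BinaryTree ℕ}, v ∈ ancs x t → v ∈ inorder t
  | .nil, h => by simp [ancs] at h
  | .node a l r, h => by
      simp only [ancs] at h
      simp only [inorder, List.mem_append, List.mem_cons]
      split_ifs at h with h1 h2
      · simp at h
      · rw [List.mem_append, List.mem_singleton] at h
        rcases h with h | h
        · exact Or.inl (MIR_ancs_mem h)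
        · exact Or.inr (Or.inl h)
      · rw [List.mem_append, List.mem_singleton] at h
        rcases h with h | h
        · exact Or.inr (Or.inr (MIR_ancs_mem h))
        · exact Or.inr (Or.inl h)

theorem MIR_div {b j v : ℕ} (h0 : 0 < b) (hv : v < j * b) : (j * b - 1 - v) / b = j - 1 - v / b := by
  have h1 := Nat.div_add_mod v b
  have h2 := Nat.mod_lt v h0
  have h3 : v / b < j := (Nat.div_lt_iff_lt_mul h0).2 hv
  obtain ⟨c, hc⟩ : ∃ c, j = v / b + 1 + c := ⟨j - (v / b + 1), by omega⟩
  have h4 : j * b = b * (v / b) + b + c * b := by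
    rw [hc]; ring
  have h5 : j * b - 1 - v = (b - 1 - v % b) + c * b := by omega
  rw [h5, Nat.add_mul_div_right _ _ h0, Nat.div_eq_of_lt (by omega)]
  omega

theorem MIR_lt {b j0 j v : ℕ} (hv : v < j * b) (hj : j0 ≤ j) :
    j * b - 1 - v < (j - j0) * b ↔ j0 * b ≤ v := by
  have h1 : (j - j0) * b = j * b - j0 * b := Nat.sub_mul j j0 b
  have h2 : j0 * b ≤ j * b := Nat.mul_le_mul_right b hj
  omega

theorem mirror_q {b j j0 x : ℕ} {t : BinaryTree ℕ} (h0 : 0 < b) (hb : IsBST t) (hx : x ∈ inorder t)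
    (hM : ∀ v ∈ inorder t, v < j * b) (hj : j0 ≤ j) :
    qL b (j0 * b) x t = qR b ((j - j0) * b) (j * b - 1 - x) (mirT (fun v => j * b - 1 - v) t) := by
  have _ := hb
  have hxj := hM x hx
  have hA : Anti (fun v => j * b - 1 - v) x (inorder t) := MIR_anti hxj hM
  have hanc : ancs (j * b - 1 - x) (mirT (fun v => j * b - 1 - v) t) =
      (ancs x t).map (fun v => j * b - 1 - v) := MIR_ancs (f := fun v => j * b - 1 - v) hA
  have hlt : ∀ v ∈ ancs x t, v < j * b := fun v hv => hM v (MIR_ancs_mem hv)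
  unfold qL qR
  rw [hanc, List.filter_map, List.map_map]
  have hfil : (ancs x t).filter ((fun v => decide ((j * b - 1 - x) / b < v / b ∧
      v < (j - j0) * b)) ∘ (fun v => j * b - 1 - v)) =
      (ancs x t).filter (fun v => decide (v / b < x / b ∧ j0 * b ≤ v)) := by
    refine List.filter_congr ?_
    intro v hv
    have h1 := hlt v hv
    have h2 : v / b < j := (Nat.div_lt_iff_lt_mul h0).2 h1
    have h3 : x / b < j := (Nat.div_lt_iff_lt_mul h0).2 hxj
    simp only [Function.comp_apply]
    rw [MIR_div h0 h1, MIR_div h0 hxj]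
    refine decide_eq_decide.2 (Iff.trans (and_congr Iff.rfl (MIR_lt h1 hj)) ?_)
    constructor
    · rintro ⟨h4, h5⟩
      exact ⟨by omega, h5⟩
    · rintro ⟨h4, h5⟩
      exact ⟨by omega, h5⟩
  rw [hfil]
  set L := (ancs x t).filter (fun v => decide (v / b < x / b ∧ j0 * b ≤ v)) with hL
  have hLlt : ∀ v ∈ L, v < j * b := fun v hv => hlt v (List.mem_of_mem_filter hv)
  have himg : (L.map ((fun v => v / b) ∘ (fun v => j * b - 1 - v))).toFinset =
      ((L.map (fun v => v / b)).toFinset).image (fun k => j - 1 - k) := by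
    ext k
    simp only [List.mem_toFinset, List.mem_map, Finset.mem_image, Function.comp_apply]
    constructor
    · rintro ⟨v, hv, rfl⟩
      exact ⟨v / b, ⟨v, hv, rfl⟩, (MIR_div h0 (hLlt v hv)).symm⟩
    · rintro ⟨k', ⟨v, hv, rfl⟩, rfl⟩
      exact ⟨v, hv, MIR_div h0 (hLlt v hv)⟩
  rw [himg, Finset.card_image_of_injOn]
  intro k hk k' hk' hkk
  simp only [Finset.mem_coe, List.mem_toFinset, List.mem_map] at hk hk'
  obtain ⟨v, hv, rfl⟩ := hk
  obtain ⟨v', hv', rfl⟩ := hk'
  have h2 : v / b < j := (Nat.div_lt_iff_lt_mul h0).2 (hLlt v hv)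
  have h3 : v' / b < j := (Nat.div_lt_iff_lt_mul h0).2 (hLlt v' hv')
  simp only at hkk
  omega

end Pool.Agent.SplPat
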