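import Pool.Agent.SplPat.Gap

set_option autoImplicit false

namespace Pool.Agent.SplPat

open BinaryTree Pool.Agent.MP_c42954_lc.Scan

/-! HINT (F1).  Transfer `splay_right`, `splay_left` (Scan.Rules) along `mem_gp_iff` and `mapT_splay`
(Scan.Relabel; `fun v => 2 * v + 1` is `Mono`), `ancs` of `mapT f t` = `(ancs x t).map f`. -/

/-- The ancestors of `mapT f t`. -/
theorem ancs_mapT {f : ℕ → ℕ} {x : ℕ} {t : BinaryTree ℕ} (hf : Mono f x (inorder t)) :
    ancs (f x) (mapT f t) = (ancs x t).map f := by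
  induction t with
  | nil => rfl
  | node a l r ihl ihr =>
    have ha := hf.iff (show a ∈ inorder (.node a l r) by simp [inorder])
    simp only [mapT, ancs, ha.1, ha.2.1, ihl hf.left, ihr hf.right]
    split_ifs <;> simp

theorem F1_mono (x : ℕ) (K : List ℕ) : Mono (fun v => 2 * v + 1) x K := by
  intro a _
  constructor
  · intro h; show 2 * x + 1 < 2 * a + 1; omega
  · intro h; show 2 * a + 1 < 2 * x + 1; omega

theorem F1_bst {t : BinaryTree ℕ} (hb : IsBST t) : IsBST (mapT (fun v => 2 * v + 1) t) := by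
  unfold IsBST at hb ⊢
  rw [mapT_inorder, List.pairwise_map]
  exact hb.imp (fun {a b} h => by show 2 * a + 1 < 2 * b + 1; omega)

theorem F1_mem {v : ℕ} {t : BinaryTree ℕ} :
    2 * v + 1 ∈ inorder (mapT (fun v => 2 * v + 1) t) ↔ v ∈ inorder t := by
  rw [mapT_inorder, List.mem_map]
  constructor
  · rintro ⟨a, ha, h⟩
    have h' : 2 * a + 1 = 2 * v + 1 := h
    have : a = v := by omega
    exact this ▸ ha
  · intro h
    exact ⟨v, h, rfl⟩

theorem F1_pairUp (f : ℕ → ℕ) : ∀ l : List ℕ, pairUp (l.map f) = (pairUp l).map (Prod.map f f)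
  | [] => by simp [pairUp]
  | [a] => by simp [pairUp]
  | a :: b :: l => by simp [pairUp, F1_pairUp f l]

/-- The pairs of the renamed tree. -/
theorem F1_pairs {x p v : ℕ} {t : BinaryTree ℕ} :
    (p, 2 * v + 1) ∈ pairUp (ancs (2 * x + 1) (mapT (fun v => 2 * v + 1) t)) ↔
      ∃ q, p = 2 * q + 1 ∧ (q, v) ∈ pairUp (ancs x t) := by
  have h : ancs (2 * x + 1) (mapT (fun v => 2 * v + 1) t) = (ancs x t).map (fun v => 2 * v + 1) :=
    ancs_mapT (F1_mono x _)
  rw [h, F1_pairUp, List.mem_map]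
  constructor
  · rintro ⟨⟨a, b⟩, h1, h2⟩
    simp only [Prod.map_apply, Prod.mk.injEq] at h2
    have : b = v := by omega
    subst this
    exact ⟨a, h2.1.symm, h1⟩
  · rintro ⟨q, rfl, h1⟩
    exact ⟨(q, v), h1, rfl⟩

theorem F1_splay {x : ℕ} {t : BinaryTree ℕ} (hb : IsBST t) (hm : x ∈ inorder t) :
    mapT (fun v => 2 * v + 1) (splay x t) = splay (2 * x + 1) (mapT (fun v => 2 * v + 1) t) :=
  (mapT_splay hb hm (F1_mono x _)).symm

/-- On the far side of the gap only the upper nodes of the pairs on that side are lost. -/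
theorem F1R {x c v : ℕ} {t : BinaryTree ℕ} (hb : IsBST t) (hm : x ∈ inorder t) (h : x < c) :
    v ∈ Rg c (splay x t) ↔ v ∈ Rg c t ∧ ¬ ∃ p, (p, v) ∈ pairUp (ancs x t) ∧ c ≤ p := by
  rw [mem_Rg, mem_Rg, mem_gp_iff, mem_gp_iff, F1_splay hb hm]
  by_cases hc : c ≤ v
  · rw [splay_right (F1_bst hb) (F1_mem.2 hm) (by omega) (by omega)]
    simp only [F1_pairs]
    constructor
    · rintro ⟨⟨h1, h2⟩, -⟩
      refine ⟨⟨h1, hc⟩, ?_⟩
      rintro ⟨p, h3, h4⟩
      exact h2 ⟨2 * p + 1, ⟨p, rfl, h3⟩, by omega⟩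
    · rintro ⟨⟨h1, -⟩, h2⟩
      refine ⟨⟨h1, ?_⟩, hc⟩
      rintro ⟨p, ⟨q, rfl, h3⟩, h4⟩
      exact h2 ⟨q, h3, by omega⟩
  · exact ⟨fun h1 => absurd h1.2 hc, fun h1 => absurd h1.1.2 hc⟩

theorem F1L {x c v : ℕ} {t : BinaryTree ℕ} (hb : IsBST t) (hm : x ∈ inorder t) (h : c ≤ x) :
    v ∈ Lg c (splay x t) ↔ v ∈ Lg c t ∧ ¬ ∃ p, (p, v) ∈ pairUp (ancs x t) ∧ p < c := by
  rw [mem_Lg, mem_Lg, mem_gp_iff, mem_gp_iff, F1_splay hb hm]
  by_cases hc : v < c
  · rw [splay_left (F1_bst hb) (F1_mem.2 hm) (by omega) (by omega)]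
    simp only [F1_pairs]
    constructor
    · rintro ⟨⟨h1, h2⟩, -⟩
      refine ⟨⟨h1, hc⟩, ?_⟩
      rintro ⟨p, h3, h4⟩
      exact h2 ⟨2 * p + 1, ⟨p, rfl, h3⟩, by omega⟩
    · rintro ⟨⟨h1, -⟩, h2⟩
      refine ⟨⟨h1, ?_⟩, hc⟩
      rintro ⟨p, ⟨q, rfl, h3⟩, h4⟩
      exact h2 ⟨q, h3, by omega⟩
  · exact ⟨fun h1 => absurd h1.2 hc, fun h1 => absurd h1.1.2 hc⟩

theorem F1_pair_mem (a b : ℕ) (l : List ℕ) : ∀ l1 : List ℕ, Even l1.length →
    (a, b) ∈ pairUp (l1 ++ a :: b :: l)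
  | [], _ => by simp [pairUp]
  | [c], h => by simp at h
  | c :: d :: l1, h => by
      have h' : Even l1.length := by
        simp only [List.length_cons] at h
        rw [Nat.even_iff] at h ⊢
        omega
      simp only [List.cons_append, pairUp, List.mem_cons]
      exact Or.inr (F1_pair_mem a b l l1 h')

theorem F1_alt {l l1 l2 : List ℕ} {w v u : ℕ} (ha : l = l1 ++ w :: v :: u :: l2) :
    (w, v) ∈ pairUp l ∨ (v, u) ∈ pairUp l := by
  rcases Nat.even_or_odd l1.length with h | h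
  · left
    rw [ha]
    exact F1_pair_mem w v _ l1 h
  · right
    have h1 : l = (l1 ++ [w]) ++ v :: u :: l2 := by rw [ha]; simp
    rw [h1]
    apply F1_pair_mem
    rw [List.length_append, List.length_singleton]
    exact h.add_one

/-- (F3) Of two ancestors of `x` beyond the gap which are adjacent on the path, with another such ancestor
adjacent below them, one is lost.  (In the list `ancs x t` the lower nodes come first.) -/
theorem F3R {x c : ℕ} {t : BinaryTree ℕ} (hb : IsBST t) (hm : x ∈ inorder t) (h : x < c)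
    {l1 l2 : List ℕ} {w v u : ℕ} (ha : ancs x t = l1 ++ w :: v :: u :: l2)
    (hw : c ≤ w) (hv : c ≤ v) (hu : c ≤ u) :
    v ∉ Rg c (splay x t) ∨ u ∉ Rg c (splay x t) := by
  rcases F1_alt ha with h1 | h1
  · left
    rw [F1R hb hm h]
    exact fun h2 => h2.2 ⟨w, h1, hw⟩
  · right
    rw [F1R hb hm h]
    exact fun h2 => h2.2 ⟨v, h1, hv⟩

theorem F3L {x c : ℕ} {t : BinaryTree ℕ} (hb : IsBST t) (hm : x ∈ inorder t) (h : c ≤ x)
    {l1 l2 : List ℕ} {w v u : ℕ} (ha : ancs x t = l1 ++ w :: v :: u :: l2)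
    (hw : w < c) (hv : v < c) (hu : u < c) :
    v ∉ Lg c (splay x t) ∨ u ∉ Lg c (splay x t) := by
  rcases F1_alt ha with h1 | h1
  · left
    rw [F1L hb hm h]
    exact fun h2 => h2.2 ⟨w, h1, hw⟩
  · right
    rw [F1L hb hm h]
    exact fun h2 => h2.2 ⟨v, h1, hv⟩

end Pool.Agent.SplPat
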