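import Pool.Agent.SplPat.F2

set_option autoImplicit false

namespace Pool.Agent.SplPat

open BinaryTree Pool.Agent.MP_c42954_lc.Scan

theorem FL1 {x c : ℕ} {t : BinaryTree ℕ} (hb : IsBST t) (hm : x ∈ inorder t) (h : x < c) :
    (Lg c (splay x t)).card + il c x t ≤ (Lg c t).card + 2 := by
  classical
  set G : Finset ℕ := (Lg c t).filter (fun v => x < v) with hG
  set E : Finset ℕ := (Lg c (splay x t)).filter (fun v => v ≠ x ∧ v ∉ Lg c t) with hE
  have hEc : E.card ≤ 1 := by
    rw [Finset.card_le_one]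
    intro v hv w hw
    rw [hE, Finset.mem_filter] at hv hw
    have key : ∀ v, v ∈ Lg c (splay x t) ∧ (v ≠ x ∧ v ∉ Lg c t) →
        x < v ∧ ∃ g, (v, g) ∈ pairUp (ancs x t) ∧ v < g ∧ g ∈ Lg c t := by
      rintro v ⟨h1, h2, h3⟩
      rcases (F2L hb hm h).1 h1 with h4 | ⟨h5, h4 | h4⟩
      · exact absurd h4 h2
      · exact absurd h4 h3
      · exact ⟨h5, h4⟩
    obtain ⟨a1, g, a2, a3, a4⟩ := key v hv
    obtain ⟨b1, g', b2, b3, b4⟩ := key w hw
    have e : g = g' := lca_L hb hm h a4 (mem_pairUp a2).2 (by omega) b4 (mem_pairUp b2).2 (by omega)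
    subst e
    exact pairUp_snd_inj (ancs_nodup hb hm) a2 b2
  have hsub : Lg c (splay x t) ⊆ insert x (G ∪ E) := by
    intro v hv
    rw [Finset.mem_insert, Finset.mem_union]
    by_cases h1 : v = x
    · exact Or.inl h1
    · right
      by_cases h2 : v ∈ Lg c t
      · left
        rw [hG, Finset.mem_filter]
        refine ⟨h2, ?_⟩
        rcases (F2L hb hm h).1 hv with h4 | ⟨h5, _⟩
        · exact absurd h4 h1
        · exact h5
      · right
        rw [hE, Finset.mem_filter]
        exact ⟨hv, h1, h2⟩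
  have h1 : (Lg c (splay x t)).card ≤ G.card + 2 := by
    refine (Finset.card_le_card hsub).trans ((Finset.card_insert_le _ _).trans ?_)
    have := Finset.card_union_le G E
    omega
  have h2 : G.card + il c x t ≤ (Lg c t).card := by
    unfold il
    rw [← Finset.card_union_of_disjoint]
    · apply Finset.card_le_card
      intro v hv
      rw [hG, Finset.mem_union, Finset.mem_filter, Finset.mem_filter] at hv
      rcases hv with hv | hv
      · exact hv.1
      · exact hv.1
    · rw [Finset.disjoint_left]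
      intro v hv hv'
      rw [hG, Finset.mem_filter] at hv
      rw [Finset.mem_filter] at hv'
      omega
  omega

theorem FL1' {x c : ℕ} {t : BinaryTree ℕ} (hb : IsBST t) (hm : x ∈ inorder t) (h : x < c) :
    ∀ v ∈ Lg c (splay x t), x ≤ v := by
  intro v hv
  rcases (F2L hb hm h).1 hv with h4 | ⟨h5, _⟩
  · omega
  · omega

theorem FL2 {x c : ℕ} {t : BinaryTree ℕ} (hb : IsBST t) (hm : x ∈ inorder t) (h : c ≤ x) :
    Lg c (splay x t) ⊆ Lg c t := fun _ hv => ((F1L hb hm h).1 hv).1

theorem FL3 {x c : ℕ} {t : BinaryTree ℕ} (hb : IsBST t) (hm : x ∈ inorder t) (h : x < c) :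
    Rg c (splay x t) ⊆ Rg c t := fun _ hv => ((F1R hb hm h).1 hv).1

theorem FL4 {x c : ℕ} {t : BinaryTree ℕ} (hb : IsBST t) (hm : x ∈ inorder t) (h : c ≤ x) :
    (Rg c (splay x t) \ Rg c t).card ≤ 2 := by
  classical
  set E : Finset ℕ := (Rg c (splay x t)).filter (fun v => v ≠ x ∧ v ∉ Rg c t) with hE
  have hEc : E.card ≤ 1 := by
    rw [Finset.card_le_one]
    intro v hv w hw
    rw [hE, Finset.mem_filter] at hv hw
    have key : ∀ v, v ∈ Rg c (splay x t) ∧ (v ≠ x ∧ v ∉ Rg c t) →
        v < x ∧ ∃ g, (v, g) ∈ pairUp (ancs x t) ∧ g < v ∧ g ∈ Rg c t := by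
      rintro v ⟨h1, h2, h3⟩
      rcases (F2R hb hm h).1 h1 with h4 | ⟨h5, h4 | h4⟩
      · exact absurd h4 h2
      · exact absurd h4 h3
      · exact ⟨h5, h4⟩
    obtain ⟨a1, g, a2, a3, a4⟩ := key v hv
    obtain ⟨b1, g', b2, b3, b4⟩ := key w hw
    have e : g = g' := lca_R hb hm h a4 (mem_pairUp a2).2 (by omega) b4 (mem_pairUp b2).2 (by omega)
    subst e
    exact pairUp_snd_inj (ancs_nodup hb hm) a2 b2
  have hsub : Rg c (splay x t) \ Rg c t ⊆ insert x E := by
    intro v hv
    rw [Finset.mem_sdiff] at hv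
    rw [Finset.mem_insert]
    by_cases h1 : v = x
    · exact Or.inl h1
    · right
      rw [hE, Finset.mem_filter]
      exact ⟨hv.1, h1, hv.2⟩
  refine (Finset.card_le_card hsub).trans ((Finset.card_insert_le _ _).trans ?_)
  omega

/-- The number of nodes `≥ x` on the left of the gap is at most the number of keys there. -/
theorem Lg_card_le {x c : ℕ} {t : BinaryTree ℕ} (h : ∀ v ∈ Lg c t, x ≤ v) :
    (Lg c t).card ≤ c - x := by
  have hsub : Lg c t ⊆ Finset.Ico x c := by
    intro v hv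
    rw [Finset.mem_Ico]
    exact ⟨h v hv, (mem_Lg.1 hv).2⟩
  have := Finset.card_le_card hsub
  rwa [Nat.card_Ico] at this

private theorem FL_blk_card {b i : ℕ} (hb : 0 < b) (S : Finset ℕ) :
    (S.filter (fun v => v / b = i)).card ≤ b := by
  have hsub : S.filter (fun v => v / b = i) ⊆ Finset.Ico (i * b) ((i + 1) * b) := by
    intro v hv
    rw [Finset.mem_filter] at hv
    rw [Finset.mem_Ico]
    have h1 := hv.2
    constructor
    · rw [← h1]; exact Nat.div_mul_le_self v b
    · rw [← h1]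
      have := Nat.lt_div_mul_add (a := v) hb
      have e : (v / b + 1) * b = v / b * b + b := by ring
      rw [e]; exact this
  have := Finset.card_le_card hsub
  rw [Nat.card_Ico] at this
  have e : (i + 1) * b - i * b = b := by
    have : (i + 1) * b = i * b + b := by ring
    omega
  omega

theorem Psi_le {b κ j : ℕ} {t : BinaryTree ℕ} (hb : 0 < b) :
    Psi b κ j t ≤ (j - κ) * Nat.clog 2 (2 * b) := by
  unfold Psi
  calc _ ≤ ∑ i ∈ Finset.Ico κ j, Nat.clog 2 (2 * b) := by
        apply Finset.sum_le_sum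
        intro i _
        apply Nat.clog_mono_right
        exact Nat.mul_le_mul_left 2 (FL_blk_card hb _)
    _ = _ := by rw [Finset.sum_const, Nat.card_Ico, smul_eq_mul]

theorem Psi_left {b κ j x : ℕ} {t : BinaryTree ℕ} (hb : IsBST t) (hm : x ∈ inorder t)
    (h : x < κ * b) : Psi b κ j (splay x t) ≤ Psi b κ j t := by
  unfold Psi
  apply Finset.sum_le_sum
  intro i _
  apply Nat.clog_mono_right
  exact Nat.mul_le_mul_left 2 (Finset.card_le_card (Finset.filter_subset_filter _ (FL3 hb hm h)))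

private theorem FL_clog_one (c : ℕ) : Nat.clog 2 (2 * (c + 1)) ≤ Nat.clog 2 (2 * c) + 1 := by
  rcases Nat.eq_zero_or_pos c with h | h
  · subst h; decide
  · rw [Nat.clog_le_iff_le_pow (by norm_num)]
    have h1 : 2 * c ≤ 2 ^ Nat.clog 2 (2 * c) := Nat.le_pow_clog (by norm_num) _
    rw [pow_succ]
    omega

private theorem FL_clog_add (c d : ℕ) : Nat.clog 2 (2 * (c + d)) ≤ Nat.clog 2 (2 * c) + d := by
  induction d with
  | zero => simp
  | succ d ih =>
    have := FL_clog_one (c + d)
    rw [← add_assoc]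
    omega

private theorem FL_fib (b : ℕ) (A : Finset ℕ) (I : Finset ℕ) :
    ∑ i ∈ I, (A.filter (fun v => v / b = i)).card ≤ A.card := by
  classical
  rw [← Finset.card_biUnion]
  · apply Finset.card_le_card
    intro v hv
    rw [Finset.mem_biUnion] at hv
    obtain ⟨i, _, hv⟩ := hv
    exact (Finset.mem_filter.1 hv).1
  · intro i _ j _ hij
    show Disjoint _ _
    rw [Finset.disjoint_left]
    intro v hv hv'
    rw [Finset.mem_filter] at hv hv'
    exact hij (hv.2.symm.trans hv'.2)

theorem Psi_right {b κ j x : ℕ} {t : BinaryTree ℕ} (hb : IsBST t) (hm : x ∈ inorder t)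
    (h : κ * b ≤ x) : Psi b κ j (splay x t) ≤ Psi b κ j t + 2 := by
  classical
  have h1 := FL4 hb hm h
  have h2 := FL_fib b (Rg (κ * b) (splay x t) \ Rg (κ * b) t) (Finset.Ico κ j)
  have h3 : Psi b κ j (splay x t) ≤ ∑ i ∈ Finset.Ico κ j,
      (Nat.clog 2 (2 * ((Rg (κ * b) t).filter (fun v => v / b = i)).card) +
        ((Rg (κ * b) (splay x t) \ Rg (κ * b) t).filter (fun v => v / b = i)).card) := by
    unfold Psi
    apply Finset.sum_le_sum
    intro i _
    refine le_trans ?_ (FL_clog_add _ _)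
    apply Nat.clog_mono_right
    apply Nat.mul_le_mul_left 2
    refine le_trans (Finset.card_le_card ?_) (Finset.card_union_le _ _)
    intro v hv
    rw [Finset.mem_filter] at hv
    rw [Finset.mem_union, Finset.mem_filter, Finset.mem_filter, Finset.mem_sdiff]
    by_cases h4 : v ∈ Rg (κ * b) t
    · exact Or.inl ⟨h4, hv.2⟩
    · exact Or.inr ⟨⟨hv.1, h4⟩, hv.2⟩
  rw [Finset.sum_add_distrib] at h3
  unfold Psi at h3 ⊢
  omega

end Pool.Agent.SplPat
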