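import Pool.Agent.SplPat.Defs

set_option autoImplicit false

namespace Pool.Agent.SplPat

open BinaryTree Pool.Agent.MP_c42954_lc.Scan

/-! HINT (GAP).  Plain inductions on the tree.  `gp` is the search path of a number strictly between keys:
`v ∈ gp c t ↔ OnP (2 v + 1) (2 c) (mapT (fun v => 2 v + 1) t)` (keys odd, gaps even; `OnP` of Scan.Tree). -/

theorem mem_gp_iff {c v : ℕ} (t : BinaryTree ℕ) :
    v ∈ gp c t ↔ OnP (2 * v + 1) (2 * c) (mapT (fun v => 2 * v + 1) t) := by
  induction t with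
  | nil => simp [gp, mapT, OnP]
  | node a l r ihl ihr =>
    simp only [gp, mapT, OnP]
    by_cases h : a < c
    · have h1 : 2 * a + 1 < 2 * c := by omega
      have h2 : ¬ 2 * c < 2 * a + 1 := by omega
      simp only [h, h1, h2, if_true, List.mem_append, List.mem_singleton, ihr, false_and, true_and,
        false_or]
      constructor
      · rintro (h3 | h3)
        · exact Or.inr h3
        · exact Or.inl (by omega)
      · rintro (h3 | h3)
        · exact Or.inr (by omega)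
        · exact Or.inl h3
    · have h1 : ¬ 2 * a + 1 < 2 * c := by omega
      have h2 : 2 * c < 2 * a + 1 := by omega
      simp only [h, h1, h2, if_false, List.mem_append, List.mem_singleton, ihl, false_and, true_and,
        or_false]
      constructor
      · rintro (h3 | h3)
        · exact Or.inr h3
        · exact Or.inl (by omega)
      · rintro (h3 | h3)
        · exact Or.inr (by omega)
        · exact Or.inl h3

theorem gp_mem {c v : ℕ} {t : BinaryTree ℕ} (h : v ∈ gp c t) : v ∈ inorder t := by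
  induction t with
  | nil => simp [gp] at h
  | node a l r ihl ihr =>
    simp only [gp] at h
    simp only [inorder, List.mem_append, List.mem_cons]
    split_ifs at h
    · simp only [List.mem_append, List.mem_singleton] at h
      rcases h with h | h
      · exact Or.inr (Or.inr (ihr h))
      · exact Or.inr (Or.inl h)
    · simp only [List.mem_append, List.mem_singleton] at h
      rcases h with h | h
      · exact Or.inl (ihl h)
      · exact Or.inr (Or.inl h)

theorem mem_Rg {c v : ℕ} {t : BinaryTree ℕ} : v ∈ Rg c t ↔ v ∈ gp c t ∧ c ≤ v := by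
  simp only [Rg, Finset.mem_filter, List.mem_toFinset]

theorem mem_Lg {c v : ℕ} {t : BinaryTree ℕ} : v ∈ Lg c t ↔ v ∈ gp c t ∧ v < c := by
  simp only [Lg, Finset.mem_filter, List.mem_toFinset]

/-- The doubled tree. -/
theorem GapA.bst2 {t : BinaryTree ℕ} (hb : IsBST t) : IsBST (mapT (fun v => 2 * v + 1) t) := by
  unfold IsBST at *
  rw [mapT_inorder, List.pairwise_map]
  exact hb.imp (fun h => by omega)

theorem GapA.onP2 {v x : ℕ} (t : BinaryTree ℕ) :
    OnP v x t ↔ OnP (2 * v + 1) (2 * x + 1) (mapT (fun v => 2 * v + 1) t) := by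
  induction t with
  | nil => simp [mapT, OnP]
  | node a l r ihl ihr =>
    simp only [mapT, OnP, ihl, ihr]
    have e1 : (2 * v + 1 = 2 * a + 1) ↔ v = a := by omega
    have e2 : (2 * x + 1 < 2 * a + 1) ↔ x < a := by omega
    have e3 : (2 * a + 1 < 2 * x + 1) ↔ a < x := by omega
    rw [e1, e2, e3]

theorem GapA.mem_ancs2 {x v : ℕ} {t : BinaryTree ℕ} (hb : IsBST t) (hm : x ∈ inorder t) :
    v ∈ ancs x t ↔ OnP (2 * v + 1) (2 * x + 1) (mapT (fun v => 2 * v + 1) t) ∧ v ≠ x := by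
  rw [mem_ancs hb hm, GapA.onP2]

/-- An ancestor of `x` on the other side of the gap is an ancestor of the gap. -/
theorem anc_Rg {x c v : ℕ} {t : BinaryTree ℕ} (hb : IsBST t) (hm : x ∈ inorder t) (h : x < c)
    (hv : v ∈ ancs x t) (hc : c ≤ v) : v ∈ Rg c t := by
  rw [GapA.mem_ancs2 hb hm] at hv
  rw [mem_Rg, mem_gp_iff]
  exact ⟨onP_convex (GapA.bst2 hb) hv.1 (Or.inr ⟨by omega, by omega⟩), hc⟩

theorem anc_Lg {x c v : ℕ} {t : BinaryTree ℕ} (hb : IsBST t) (hm : x ∈ inorder t) (h : c ≤ x)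
    (hv : v ∈ ancs x t) (hc : v < c) : v ∈ Lg c t := by
  rw [GapA.mem_ancs2 hb hm] at hv
  rw [mem_Lg, mem_gp_iff]
  exact ⟨onP_convex (GapA.bst2 hb) hv.1 (Or.inl ⟨by omega, by omega⟩), hc⟩

/-- An ancestor of the gap beyond `x` is an ancestor of `x`. -/
theorem Lg_anc {x c v : ℕ} {t : BinaryTree ℕ} (hb : IsBST t) (hm : x ∈ inorder t) (h : x < c)
    (hv : v ∈ Lg c t) (hc : v < x) : v ∈ ancs x t := by
  rw [mem_Lg, mem_gp_iff] at hv
  rw [GapA.mem_ancs2 hb hm]
  exact ⟨onP_convex (GapA.bst2 hb) hv.1 (Or.inl ⟨by omega, by omega⟩), by omega⟩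

theorem Rg_anc {x c v : ℕ} {t : BinaryTree ℕ} (hb : IsBST t) (hm : x ∈ inorder t) (h : c ≤ x)
    (hv : v ∈ Rg c t) (hc : x < v) : v ∈ ancs x t := by
  rw [mem_Rg, mem_gp_iff] at hv
  rw [GapA.mem_ancs2 hb hm]
  exact ⟨onP_convex (GapA.bst2 hb) hv.1 (Or.inr ⟨by omega, by omega⟩), by omega⟩

/-- The right (left) ancestors of `x` increase (decrease) upwards. -/
theorem ancs_order {x : ℕ} {t : BinaryTree ℕ} (hb : IsBST t) (hm : x ∈ inorder t) :
    (ancs x t).Pairwise (fun v w => (x < v → x < w → v < w) ∧ (v < x → w < x → w < v)) := by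
  refine (ancs_pairwise hb hm).imp_of_mem ?_
  intro v w hv hw hvw
  rw [mem_ancs hb hm] at hv hw
  refine ⟨fun h1 h2 => ?_, fun h1 h2 => ?_⟩
  · by_contra h3
    exact hvw.2 (onP_antisymm hb (onP_convex hb hv.1 (Or.inr ⟨by omega, by omega⟩)) hvw.1)
  · by_contra h3
    exact hvw.2 (onP_antisymm hb (onP_convex hb hv.1 (Or.inl ⟨by omega, by omega⟩)) hvw.1)

/-- Nested gaps: an ancestor of a gap `c ≤ c'` beyond both is an ancestor of the other gap. -/
theorem Rg_mono {c c' v : ℕ} {t : BinaryTree ℕ} (hb : IsBST t) (h : c ≤ c') (hv : v ∈ Rg c t)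
    (hc : c' ≤ v) : v ∈ Rg c' t := by
  rw [mem_Rg, mem_gp_iff] at hv ⊢
  exact ⟨onP_convex (GapA.bst2 hb) hv.1 (Or.inr ⟨by omega, by omega⟩), hc⟩

theorem Lg_mono {c c' v : ℕ} {t : BinaryTree ℕ} (hb : IsBST t) (h : c ≤ c') (hv : v ∈ Lg c' t)
    (hc : v < c) : v ∈ Lg c t := by
  rw [mem_Lg, mem_gp_iff] at hv ⊢
  exact ⟨onP_convex (GapA.bst2 hb) hv.1 (Or.inl ⟨by omega, by omega⟩), hc⟩

end Pool.Agent.SplPat
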