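import Pool.Agent.SplPat.GapA

set_option autoImplicit false

namespace Pool.Agent.SplPat

open BinaryTree Pool.Agent.MP_c42954_lc.Scan

/-- The node where the paths to `x` and to the gap part is unique. -/
theorem lca_L {x c g g' : ℕ} {t : BinaryTree ℕ} (hb : IsBST t) (hm : x ∈ inorder t) (h : x < c)
    (h1 : g ∈ Lg c t) (h2 : g ∈ ancs x t) (h3 : x < g) (h1' : g' ∈ Lg c t) (h2' : g' ∈ ancs x t)
    (h3' : x < g') : g = g' := by
  rw [mem_Lg, mem_gp_iff] at h1 h1'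
  rw [GapA.mem_ancs2 hb hm] at h2 h2'
  have hb2 := GapA.bst2 hb
  rcases Nat.lt_trichotomy g g' with hg | hg | hg
  · have e1 := onP_convex (w := 2 * g' + 1) hb2 h1.1 (Or.inl ⟨by omega, by omega⟩)
    have e2 := onP_convex (w := 2 * g + 1) hb2 h2'.1 (Or.inr ⟨by omega, by omega⟩)
    have := onP_antisymm hb2 e1 e2
    omega
  · exact hg
  · have e1 := onP_convex (w := 2 * g + 1) hb2 h1'.1 (Or.inl ⟨by omega, by omega⟩)
    have e2 := onP_convex (w := 2 * g' + 1) hb2 h2.1 (Or.inr ⟨by omega, by omega⟩)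
    have := onP_antisymm hb2 e1 e2
    omega

theorem lca_R {x c g g' : ℕ} {t : BinaryTree ℕ} (hb : IsBST t) (hm : x ∈ inorder t) (h : c ≤ x)
    (h1 : g ∈ Rg c t) (h2 : g ∈ ancs x t) (h3 : g < x) (h1' : g' ∈ Rg c t) (h2' : g' ∈ ancs x t)
    (h3' : g' < x) : g = g' := by
  rw [mem_Rg, mem_gp_iff] at h1 h1'
  rw [GapA.mem_ancs2 hb hm] at h2 h2'
  have hb2 := GapA.bst2 hb
  rcases Nat.lt_trichotomy g g' with hg | hg | hg
  · have e1 := onP_convex (w := 2 * g + 1) hb2 h1'.1 (Or.inr ⟨by omega, by omega⟩)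
    have e2 := onP_convex (w := 2 * g' + 1) hb2 h2.1 (Or.inl ⟨by omega, by omega⟩)
    have := onP_antisymm hb2 e1 e2
    omega
  · exact hg
  · have e1 := onP_convex (w := 2 * g' + 1) hb2 h1.1 (Or.inr ⟨by omega, by omega⟩)
    have e2 := onP_convex (w := 2 * g + 1) hb2 h2'.1 (Or.inl ⟨by omega, by omega⟩)
    have := onP_antisymm hb2 e1 e2
    omega

/-- The nodes `≥ c` on the path to the gap `c` which are not ancestors of `x < c` are smaller than those
which are. -/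
theorem Rg_below {x c r y : ℕ} {t : BinaryTree ℕ} (hb : IsBST t) (hm : x ∈ inorder t) (h : x < c)
    (hr : r ∈ Rg c t) (hr' : r ∉ ancs x t) (hy : y ∈ ancs x t) (hc : c ≤ y) : r < y := by
  by_contra h3
  apply hr'
  rw [mem_Rg, mem_gp_iff] at hr
  rw [GapA.mem_ancs2 hb hm] at hy ⊢
  have hb2 := GapA.bst2 hb
  have e1 := onP_convex (w := 2 * y + 1) hb2 hr.1 (Or.inr ⟨by omega, by omega⟩)
  exact ⟨onP_trans hb2 e1 hy.1, by omega⟩

theorem Lg_above {x c r y : ℕ} {t : BinaryTree ℕ} (hb : IsBST t) (hm : x ∈ inorder t) (h : c ≤ x)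
    (hr : r ∈ Lg c t) (hr' : r ∉ ancs x t) (hy : y ∈ ancs x t) (hc : y < c) : y < r := by
  by_contra h3
  apply hr'
  rw [mem_Lg, mem_gp_iff] at hr
  rw [GapA.mem_ancs2 hb hm] at hy ⊢
  have hb2 := GapA.bst2 hb
  have e1 := onP_convex (w := 2 * y + 1) hb2 hr.1 (Or.inl ⟨by omega, by omega⟩)
  exact ⟨onP_trans hb2 e1 hy.1, by omega⟩

/-- In the list of the ancestors the lower nodes come first. -/
theorem GapB.up {x l r : ℕ} {t : BinaryTree ℕ} (hb : IsBST t) (hm : x ∈ inorder t)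
    {l1 l2 : List ℕ} (ha : ancs x t = l1 ++ l :: l2) (hr : r ∈ l1) : OnP l r t := by
  have h := ancs_pairwise hb hm
  rw [ha, List.pairwise_append] at h
  exact (h.2.2 r hr l (by simp)).1

/-- Between two ancestors of `x`: if `l < x` lies above some `r ≥ c > x` on the path, then `l` is an
ancestor of the gap `c`.  (In the list `ancs x t` the lower nodes come first.) -/
theorem between_Lg {x c : ℕ} {t : BinaryTree ℕ} (hb : IsBST t) (hm : x ∈ inorder t) (h : x < c)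
    {l1 l2 : List ℕ} {l r : ℕ} (ha : ancs x t = l1 ++ l :: l2) (hl : l < x) (hr : r ∈ l1)
    (hc : c ≤ r) : l ∈ Lg c t := by
  have e := GapB.up hb hm ha hr
  rw [GapA.onP2] at e
  rw [mem_Lg, mem_gp_iff]
  exact ⟨onP_convex (GapA.bst2 hb) e (Or.inl ⟨by omega, by omega⟩), by omega⟩

theorem between_Rg {x c : ℕ} {t : BinaryTree ℕ} (hb : IsBST t) (hm : x ∈ inorder t) (h : c ≤ x)
    {l1 l2 : List ℕ} {l r : ℕ} (ha : ancs x t = l1 ++ l :: l2) (hl : x < l) (hr : r ∈ l1)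
    (hc : r < c) : l ∈ Rg c t := by
  have e := GapB.up hb hm ha hr
  rw [GapA.onP2] at e
  rw [mem_Rg, mem_gp_iff]
  exact ⟨onP_convex (GapA.bst2 hb) e (Or.inr ⟨by omega, by omega⟩), by omega⟩

/-- The top node of `[a, a')` is the only common node of the two spines. -/
theorem spine_unique {a a' v w : ℕ} {t : BinaryTree ℕ} (hb : IsBST t)
    (h1 : v ∈ Rg a t) (h2 : v ∈ Lg a' t) (h3 : w ∈ Rg a t) (h4 : w ∈ Lg a' t) : v = w := by
  rw [mem_Rg, mem_gp_iff] at h1 h3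
  rw [mem_Lg, mem_gp_iff] at h2 h4
  have hb2 := GapA.bst2 hb
  rcases Nat.lt_trichotomy v w with hg | hg | hg
  · have e1 := onP_convex (w := 2 * v + 1) hb2 h3.1 (Or.inr ⟨by omega, by omega⟩)
    have e2 := onP_convex (w := 2 * w + 1) hb2 h2.1 (Or.inl ⟨by omega, by omega⟩)
    have := onP_antisymm hb2 e1 e2
    omega
  · exact hg
  · have e1 := onP_convex (w := 2 * w + 1) hb2 h1.1 (Or.inr ⟨by omega, by omega⟩)
    have e2 := onP_convex (w := 2 * v + 1) hb2 h4.1 (Or.inl ⟨by omega, by omega⟩)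
    have := onP_antisymm hb2 e1 e2
    omega

end Pool.Agent.SplPat
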