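import Pool.Agent.SplPat.Defs

set_option autoImplicit false

namespace Pool.Agent.SplPat

open BinaryTree Pool.Agent.MP_c42954_lc.Scan

/-- The exponents of the block lengths `2 ^ ks j`: 0, 1, 2, 4, 7, 11, ... -/
def ks : ℕ → ℕ
  | 0 => 0
  | j + 1 => ks j + (ks j / 2 + 1)

theorem ks_cond (k : ℕ) : 2 ^ (k / 2 + 1) * (k + 1) ≤ 3 * 2 ^ k := by
  induction k using Nat.strong_induction_on with
  | _ k ih =>
    match k, ih with
    | 0, _ => norm_num
    | 1, _ => norm_num
    | 2, _ => norm_num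
    | j + 3, ih =>
      have h := ih (j + 1) (by omega)
      have e1 : (j + 3) / 2 + 1 = ((j + 1) / 2 + 1) + 1 := by omega
      have e2 : 2 ^ (j + 3) = 4 * 2 ^ (j + 1) := by ring
      rw [e1, pow_succ, e2]
      set P := 2 ^ ((j + 1) / 2 + 1)
      set Q := 2 ^ (j + 1)
      have h3 : P * (j + 3 + 1) ≤ 2 * (P * (j + 1 + 1)) := by nlinarith [Nat.zero_le (P * j)]
      calc P * 2 * (j + 3 + 1) = 2 * (P * (j + 3 + 1)) := by ring
        _ ≤ 2 * (2 * (P * (j + 1 + 1))) := by omega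
        _ ≤ 3 * (4 * Q) := by omega

theorem ks_cond2 (k : ℕ) : 2 ^ (k / 2 + 1) ≤ 2 * 2 ^ k := by
  have : 2 * 2 ^ k = 2 ^ (k + 1) := by ring
  rw [this]
  exact Nat.pow_le_pow_right (by norm_num) (by omega)

theorem ks_grow (j : ℕ) : 2 ^ (j / 2) ≤ ks j + 1 := by
  induction j using Nat.strong_induction_on with
  | _ j ih =>
    match j, ih with
    | 0, _ => norm_num
    | 1, _ => norm_num
    | i + 2, ih =>
      have h := ih i (by omega)
      have e1 : (i + 2) / 2 = i / 2 + 1 := by omega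
      rw [e1, pow_succ]
      have e2 : ks (i + 2) = ks (i + 1) + (ks (i + 1) / 2 + 1) := rfl
      have e3 : ks (i + 1) = ks i + (ks i / 2 + 1) := rfl
      omega

end Pool.Agent.SplPat
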