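import Pool.Agent.SplPat.Level
import Pool.Agent.SplPat.QSum

set_option autoImplicit false

namespace Pool.Agent.SplPat

open BinaryTree Pool.Agent.MP_c42954_lc.Scan

/-! HINT (LSUM).  `level_loc` = `level` + `qsumR` + `qsumL`.  `level_sum`: split the times t < m by the pair
(t / B, X t / B) ∈ cells B m X, B = N 2^k; for each pair (τ, κ) apply `level_loc` to the times [τ B, min m ((τ+1) B)) and
the keys [κ B, (κ+1) B); the cells (2^k) met there are disjoint for different pairs (B is a multiple of 2^k), so their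
numbers add up to at most (cells (2^k) m X).card. -/

theorem level_loc {T : ℕ → BinaryTree ℕ} {X : ℕ → ℕ} {m k j0 j1 j s s' : ℕ} (hR : Run T X m)
    (hM : ∀ v ∈ inorder (T 0), v < j * 2 ^ k) (hj1 : j1 ≤ j)
    (hj : j0 ≤ j1) (h1 : (j1 - j0) * (k + 1) ≤ 3 * 2 ^ k) (h2 : j1 - j0 ≤ 2 * 2 ^ k)
    (hs : s ≤ s') (hs' : s' ≤ m) :
    ∑ t ∈ tin s s' (j0 * 2 ^ k) (j1 * 2 ^ k) X, dJ (2 ^ k) (j0 * 2 ^ k) (j1 * 2 ^ k) (X t) (T t) ≤
      10 * ((j1 - j0) * 2 ^ k) + 28 * (s' - s) + 4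
        + 320 * 2 ^ k * (cellsIn (2 ^ k) s s' (j0 * 2 ^ k) (j1 * 2 ^ k) X).card := by
  have hb : 0 < 2 ^ k := by positivity
  have e1 := level (b := 2 ^ k) hR hb hs hs' hj
  have e2 := qsumR (s := s) hR hj h1 h2 hs'
  have e3 := qsumL (s := s) hR hM hj1 hj h1 h2 hs'
  have e4 : ∑ t ∈ tin s s' (j0 * 2 ^ k) (j1 * 2 ^ k) X, qq (2 ^ k) j0 j1 T X t =
      ∑ t ∈ tin s s' (j0 * 2 ^ k) (j1 * 2 ^ k) X, qR (2 ^ k) (j1 * 2 ^ k) (X t) (T t) +
      ∑ t ∈ tin s s' (j0 * 2 ^ k) (j1 * 2 ^ k) X, qL (2 ^ k) (j0 * 2 ^ k) (X t) (T t) :=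
    Finset.sum_add_distrib
  rw [e4] at e1
  refine e1.trans ?_
  have e5 : 320 * 2 ^ k * (cellsIn (2 ^ k) s s' (j0 * 2 ^ k) (j1 * 2 ^ k) X).card =
      8 * (20 * 2 ^ k * (cellsIn (2 ^ k) s s' (j0 * 2 ^ k) (j1 * 2 ^ k) X).card +
        20 * 2 ^ k * (cellsIn (2 ^ k) s s' (j0 * 2 ^ k) (j1 * 2 ^ k) X).card) := by ring
  rw [e5]
  omega

theorem LSUM_bound (l : List ℕ) : ∃ M, ∀ v ∈ l, v < M := by
  induction l with
  | nil => exact ⟨0, by simp⟩
  | cons a l ih =>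
    obtain ⟨M, hM⟩ := ih
    refine ⟨max M (a + 1), ?_⟩
    intro v hv
    rcases List.mem_cons.1 hv with rfl | hv
    · exact lt_of_lt_of_le (Nat.lt_succ_self v) (le_max_right _ _)
    · exact lt_of_lt_of_le (hM v hv) (le_max_left _ _)

theorem level_sum {T : ℕ → BinaryTree ℕ} {X : ℕ → ℕ} {m k N : ℕ} (hR : Run T X m) (hN : 0 < N)
    (h1 : N * (k + 1) ≤ 3 * 2 ^ k) (h2 : N ≤ 2 * 2 ^ k) :
    ∑ t ∈ Finset.range m, dJ (2 ^ k) (N * 2 ^ k * (X t / (N * 2 ^ k)))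
        (N * 2 ^ k * (X t / (N * 2 ^ k)) + N * 2 ^ k) (X t) (T t) ≤
      42 * (N * 2 ^ k) * (cells (N * 2 ^ k) m X).card + 320 * 2 ^ k * (cells (2 ^ k) m X).card := by
  have hb : 0 < 2 ^ k := by positivity
  have hB : 0 < N * 2 ^ k := by positivity
  obtain ⟨M, hM⟩ := LSUM_bound (inorder (T 0))
  have hmap : ∀ t ∈ Finset.range m,
      (t / (N * 2 ^ k), X t / (N * 2 ^ k)) ∈ cells (N * 2 ^ k) m X :=
    fun t ht => Finset.mem_image_of_mem (fun t => (t / (N * 2 ^ k), X t / (N * 2 ^ k))) ht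
  rw [← Finset.sum_fiberwise_of_maps_to hmap]
  have key : ∀ c ∈ cells (N * 2 ^ k) m X,
      ∑ t ∈ (Finset.range m).filter (fun t => (t / (N * 2 ^ k), X t / (N * 2 ^ k)) = c),
        dJ (2 ^ k) (N * 2 ^ k * (X t / (N * 2 ^ k)))
          (N * 2 ^ k * (X t / (N * 2 ^ k)) + N * 2 ^ k) (X t) (T t) ≤
        42 * (N * 2 ^ k) + 320 * 2 ^ k * ((cells (2 ^ k) m X).filter
          (fun c' => (c'.1 / N, c'.2 / N) = c)).card := by
    intro c hc
    obtain ⟨t0, ht0, rfl⟩ := Finset.mem_image.1 hc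
    rw [Finset.mem_range] at ht0
    set τ := t0 / (N * 2 ^ k) with hτ
    set κ := X t0 / (N * 2 ^ k) with hκ
    have hτ0 : τ * (N * 2 ^ k) ≤ t0 := Nat.div_mul_le_self t0 (N * 2 ^ k)
    have a1 : N * 2 ^ k * κ = κ * N * 2 ^ k := by ring
    have a2 : N * 2 ^ k * κ + N * 2 ^ k = (κ + 1) * N * 2 ^ k := by ring
    have a3 : (κ + 1) * N - κ * N = N := by
      rw [add_mul, one_mul, Nat.add_sub_cancel_left]
    have e1 := level_loc (j0 := κ * N) (j1 := (κ + 1) * N) (j := M + (κ + 1) * N)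
      (s := τ * (N * 2 ^ k)) (s' := min m ((τ + 1) * (N * 2 ^ k))) (k := k) hR
      (fun v hv => lt_of_lt_of_le (hM v hv) ((Nat.le_add_right _ _).trans
        (Nat.le_mul_of_pos_right _ hb)))
      (Nat.le_add_left _ _) (Nat.mul_le_mul_right _ (Nat.le_succ κ)) (by rw [a3]; exact h1)
      (by rw [a3]; exact h2) (le_min (hτ0.trans ht0.le) (Nat.mul_le_mul_right _ (Nat.le_succ τ)))
      (min_le_left _ _)
    rw [a3] at e1
    have e2 : ∑ t ∈ (Finset.range m).filter (fun t => (t / (N * 2 ^ k), X t / (N * 2 ^ k)) =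
        (τ, κ)), dJ (2 ^ k) (N * 2 ^ k * (X t / (N * 2 ^ k)))
          (N * 2 ^ k * (X t / (N * 2 ^ k)) + N * 2 ^ k) (X t) (T t) ≤
        ∑ t ∈ tin (τ * (N * 2 ^ k)) (min m ((τ + 1) * (N * 2 ^ k))) (κ * N * 2 ^ k)
          ((κ + 1) * N * 2 ^ k) X,
          dJ (2 ^ k) (κ * N * 2 ^ k) ((κ + 1) * N * 2 ^ k) (X t) (T t) := by
      have e3 : ∑ t ∈ (Finset.range m).filter (fun t => (t / (N * 2 ^ k), X t / (N * 2 ^ k)) =
          (τ, κ)), dJ (2 ^ k) (N * 2 ^ k * (X t / (N * 2 ^ k)))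
            (N * 2 ^ k * (X t / (N * 2 ^ k)) + N * 2 ^ k) (X t) (T t) =
          ∑ t ∈ (Finset.range m).filter (fun t => (t / (N * 2 ^ k), X t / (N * 2 ^ k)) =
          (τ, κ)), dJ (2 ^ k) (κ * N * 2 ^ k) ((κ + 1) * N * 2 ^ k) (X t) (T t) := by
        refine Finset.sum_congr rfl fun t ht => ?_
        have h3 : X t / (N * 2 ^ k) = κ := congrArg Prod.snd (Finset.mem_filter.1 ht).2
        rw [h3, a2, a1]
      rw [e3]
      refine Finset.sum_le_sum_of_subset fun t ht => ?_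
      rw [Finset.mem_filter, Finset.mem_range, Prod.mk.injEq] at ht
      obtain ⟨h3, h4, h5⟩ := ht
      rw [tin, Finset.mem_filter, Finset.mem_Ico]
      refine ⟨⟨?_, lt_min h3 ?_⟩, ?_, ?_⟩
      · rw [← h4]
        exact Nat.div_mul_le_self t (N * 2 ^ k)
      · rw [← h4]
        exact (Nat.div_lt_iff_lt_mul hB).1 (Nat.lt_succ_self _)
      · rw [← h5, mul_assoc]
        exact Nat.div_mul_le_self (X t) (N * 2 ^ k)
      · rw [← h5, mul_assoc]
        exact (Nat.div_lt_iff_lt_mul hB).1 (Nat.lt_succ_self _)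
    have e4 : cellsIn (2 ^ k) (τ * (N * 2 ^ k)) (min m ((τ + 1) * (N * 2 ^ k))) (κ * N * 2 ^ k)
        ((κ + 1) * N * 2 ^ k) X ⊆ (cells (2 ^ k) m X).filter
          (fun c' => (c'.1 / N, c'.2 / N) = (τ, κ)) := by
      intro c' hc'
      obtain ⟨t, ht, rfl⟩ := Finset.mem_image.1 hc'
      rw [Finset.mem_filter, Finset.mem_Ico] at ht
      obtain ⟨⟨h3, h4⟩, h5, h6⟩ := ht
      rw [Finset.mem_filter]
      refine ⟨Finset.mem_image.2 ⟨t, Finset.mem_range.2 (lt_of_lt_of_le h4 (min_le_left _ _)),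
        rfl⟩, ?_⟩
      have h7 := lt_of_lt_of_le h4 (min_le_right _ _)
      have h8 : t / (N * 2 ^ k) = τ := by
        apply le_antisymm
        · exact Nat.lt_succ_iff.1 ((Nat.div_lt_iff_lt_mul hB).2 h7)
        · exact (Nat.le_div_iff_mul_le hB).2 h3
      have h9 : X t / (N * 2 ^ k) = κ := by
        rw [mul_assoc] at h5 h6
        apply le_antisymm
        · exact Nat.lt_succ_iff.1 ((Nat.div_lt_iff_lt_mul hB).2 h6)
        · exact (Nat.le_div_iff_mul_le hB).2 h5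
      rw [Nat.mul_comm N, ← Nat.div_div_eq_div_mul] at h8 h9
      rw [h8, h9]
    have e5 := Finset.card_le_card e4
    have e6 : min m ((τ + 1) * (N * 2 ^ k)) - τ * (N * 2 ^ k) ≤ N * 2 ^ k := by
      have h3 : (τ + 1) * (N * 2 ^ k) = τ * (N * 2 ^ k) + N * 2 ^ k := by ring
      have h4 := min_le_right m ((τ + 1) * (N * 2 ^ k))
      omega
    have e7 := Nat.mul_le_mul_left (320 * 2 ^ k) e5
    refine e2.trans (e1.trans ?_)
    omega
  refine (Finset.sum_le_sum key).trans ?_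
  rw [Finset.sum_add_distrib, Finset.sum_const, smul_eq_mul, ← Finset.mul_sum, mul_comm _ (42 * _)]
  refine Nat.add_le_add_left ?_ _
  refine Nat.mul_le_mul_left _ (le_of_eq ?_)
  refine (Finset.card_eq_sum_card_fiberwise ?_).symm
  intro c' hc'
  obtain ⟨t, ht, rfl⟩ := Finset.mem_image.1 hc'
  refine Finset.mem_image.2 ⟨t, ht, ?_⟩
  rw [Nat.mul_comm N, ← Nat.div_div_eq_div_mul, ← Nat.div_div_eq_div_mul]

theorem level_top {T : ℕ → BinaryTree ℕ} {X : ℕ → ℕ} {m k N : ℕ} (hR : Run T X m)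
    (hM : ∀ v ∈ inorder (T 0), v < N * 2 ^ k)
    (h1 : N * (k + 1) ≤ 3 * 2 ^ k) (h2 : N ≤ 2 * 2 ^ k) :
    ∑ t ∈ Finset.range m, dJ (2 ^ k) 0 (N * 2 ^ k) (X t) (T t) ≤
      10 * (N * 2 ^ k) + 28 * m + 4 + 320 * 2 ^ k * (cells (2 ^ k) m X).card := by
  have hkeys : ∀ t ≤ m, inorder (T t) = inorder (T 0) := by
    intro t
    induction t with
    | zero => intro _; rfl
    | succ t ih =>
      intro ht
      rw [hR.next t (by omega), splay_inorder (hR.bst t (by omega)) (hR.mem t (by omega)), ih (by omega)]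
  have e1 := level_loc (j0 := 0) (j1 := N) (j := N) (s := 0) (s' := m) (k := k) hR hM le_rfl
    (Nat.zero_le _) (by simpa using h1) (by simpa using h2) (Nat.zero_le _) le_rfl
  have e2 : (Finset.Ico 0 m).filter (fun t => 0 * 2 ^ k ≤ X t ∧ X t < N * 2 ^ k) =
      Finset.range m := by
    ext t
    simp only [Finset.mem_filter, Finset.mem_Ico, Finset.mem_range, zero_mul, Nat.zero_le,
      true_and]
    refine ⟨fun h => h.1, fun h => ⟨h, ?_⟩⟩
    refine hM _ ?_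
    rw [← hkeys t h.le]
    exact hR.mem t h
  rw [tin, cellsIn, e2, Nat.sub_zero, Nat.sub_zero, zero_mul] at e1
  exact e1

end Pool.Agent.SplPat
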