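import Pool.Agent.SplPat.Tin
import Pool.Agent.SplPat.FS
import Pool.Agent.SplPat.RS
import Pool.Agent.SplPat.FE
import Pool.Agent.SplPat.FX

set_option autoImplicit false

namespace Pool.Agent.SplPat

open BinaryTree Pool.Agent.MP_c42954_lc.Scan

/-! HINT (SSUM).  lo = j0 b, hi = j1 b.  Potentials E(t) = edg b (res lo hi (T t)) ≤ hi - lo and
σ(t) = sig lo hi (T t) ≤ hi - lo + 1.  Request inside: FE, FS2 (σ' + van ≤ σ + 4).  Request outside: FX (E' ≤ E + 2 pop),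
FS1 (σ' + pop ≤ σ + 1).  Hence ∑_inside van + ∑_outside pop ≤ hi - lo + 1 + 4 (s' - s) and
∑_inside ch ≤ hi - lo + 3 ∑ q + 2 (s' - s) + 2 ∑_outside pop. -/

theorem SSUM_ind {T : ℕ → BinaryTree ℕ} {X : ℕ → ℕ} {m b j0 j1 s : ℕ} (hR : Run T X m)
    (h0 : 0 < b) (hj : j0 ≤ j1) (d : ℕ) (hs' : s + d ≤ m) :
    ∑ t ∈ tin s (s + d) (j0 * b) (j1 * b) X,
        (ch b (j0 * b) (j1 * b) (X t) (T t) + van (X t) (j0 * b) (j1 * b) (T t)) +
      (edg b (res (j0 * b) (j1 * b) (T (s + d))) + 2 * sig (j0 * b) (j1 * b) (T (s + d))) ≤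
      (edg b (res (j0 * b) (j1 * b) (T s)) + 2 * sig (j0 * b) (j1 * b) (T s)) +
        3 * ∑ t ∈ tin s (s + d) (j0 * b) (j1 * b) X, qq b j0 j1 T X t + 10 * d := by
  induction d with
  | zero => simp [tin]
  | succ d ih =>
    have ih' := ih (by omega)
    have hm := hR.mem (s + d) (by omega)
    have hb := hR.bst (s + d) (by omega)
    have hn := hR.next (s + d) (by omega)
    have hle : j0 * b ≤ j1 * b := Nat.mul_le_mul_right b hj
    simp only [tin, Finset.sum_filter] at ih' ⊢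
    rw [show s + (d + 1) = (s + d) + 1 from rfl, Finset.sum_Ico_succ_top (by omega),
      Finset.sum_Ico_succ_top (by omega), hn]
    by_cases hc : j0 * b ≤ X (s + d) ∧ X (s + d) < j1 * b
    · rw [if_pos hc, if_pos hc]
      have e1 := FE hb hm h0 hc.1 hc.2
      have e2 := FS2 hb hm hc.1 hc.2
      have e3 : qq b j0 j1 T X (s + d) = qR b (j1 * b) (X (s + d)) (T (s + d)) +
        qL b (j0 * b) (X (s + d)) (T (s + d)) := rfl
      omega
    · rw [if_neg hc, if_neg hc]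
      have hc' : X (s + d) < j0 * b ∨ j1 * b ≤ X (s + d) := by omega
      have e1 := FX hb hm h0 hc' hle
      have e2 := FS1 hb hm hle hc'
      omega

theorem sum_ch {T : ℕ → BinaryTree ℕ} {X : ℕ → ℕ} {m b j0 j1 s s' : ℕ} (hR : Run T X m)
    (h0 : 0 < b) (hs : s ≤ s') (hs' : s' ≤ m) (hj : j0 ≤ j1) :
    ∑ t ∈ tin s s' (j0 * b) (j1 * b) X,
        (ch b (j0 * b) (j1 * b) (X t) (T t) + van (X t) (j0 * b) (j1 * b) (T t)) ≤
      3 * ((j1 - j0) * b) + 3 * ∑ t ∈ tin s s' (j0 * b) (j1 * b) X, qq b j0 j1 T X t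
        + 10 * (s' - s) + 2 := by
  obtain ⟨d, rfl⟩ := Nat.exists_eq_add_of_le hs
  have e1 := SSUM_ind (s := s) hR h0 hj d hs'
  have hb := hR.bst s (by omega)
  have e2 := edg_res_le (b := b) (lo := j0 * b) (hi := j1 * b) hb
  have e3 := sig_le (a := j0 * b) (a' := j1 * b) hb
  have e4 : (j1 - j0) * b = j1 * b - j0 * b := Nat.sub_mul _ _ _
  have e5 : s + d - s = d := by omega
  rw [e4, e5]
  omega

end Pool.Agent.SplPat
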