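import Pool.Agent.SplPat.PSum
import Pool.Agent.SplPat.SSum
import Pool.Agent.SplPat.FD

set_option autoImplicit false

namespace Pool.Agent.SplPat

open BinaryTree Pool.Agent.MP_c42954_lc.Scan

theorem level {T : ℕ → BinaryTree ℕ} {X : ℕ → ℕ} {m b j0 j1 s s' : ℕ} (hR : Run T X m)
    (h0 : 0 < b) (hs : s ≤ s') (hs' : s' ≤ m) (hj : j0 ≤ j1) :
    ∑ t ∈ tin s s' (j0 * b) (j1 * b) X, dJ b (j0 * b) (j1 * b) (X t) (T t) ≤
      10 * ((j1 - j0) * b) + 28 * (s' - s) + 4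
        + 8 * ∑ t ∈ tin s s' (j0 * b) (j1 * b) X, qq b j0 j1 T X t := by
  have hP := sum_pop hR h0 hs hs' hj
  have hC := sum_ch hR h0 hs hs' hj
  have hpt : ∀ t ∈ tin s s' (j0 * b) (j1 * b) X, dJ b (j0 * b) (j1 * b) (X t) (T t) ≤
      2 * (∑ i ∈ (Finset.Ico j0 j1).erase (X t / b), pop (X t) (i * b) ((i + 1) * b) (T t)) +
      2 * (ch b (j0 * b) (j1 * b) (X t) (T t) + van (X t) (j0 * b) (j1 * b) (T t)) := by
    intro t ht
    unfold tin at ht
    rw [Finset.mem_filter, Finset.mem_Ico] at ht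
    obtain ⟨⟨_, ht2⟩, ht3, ht4⟩ := ht
    have hb := hR.bst t (by omega)
    have hm := hR.mem t (by omega)
    rw [DS h0]
    have h1 : ∑ i ∈ (Finset.Ico j0 j1).erase (X t / b), cnt b i (X t) (T t) ≤
        ∑ i ∈ (Finset.Ico j0 j1).erase (X t / b),
          (2 * pop (X t) (i * b) ((i + 1) * b) (T t) + 2 * rs b i (X t) (T t)) := by
      apply Finset.sum_le_sum
      intro i hi
      exact FD hb hm h0 (Finset.ne_of_mem_erase hi)
    rw [Finset.sum_add_distrib, ← Finset.mul_sum, ← Finset.mul_sum] at h1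
    have h2 := RS hb hm h0 ht3 ht4
    omega
  have h1 := Finset.sum_le_sum hpt
  rw [Finset.sum_add_distrib, ← Finset.mul_sum, ← Finset.mul_sum] at h1
  have h3 : (j1 - j0) * (b + 1) ≤ 2 * ((j1 - j0) * b) := by
    have : (j1 - j0) ≤ (j1 - j0) * b := Nat.le_mul_of_pos_right _ h0
    have e : (j1 - j0) * (b + 1) = (j1 - j0) * b + (j1 - j0) := by ring
    omega
  omega

end Pool.Agent.SplPat
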