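import Pool.Agent.SplPat.Tin
import Pool.Agent.SplPat.FL
import Pool.Agent.SplPat.FQ
import Pool.Agent.SplPat.RS

set_option autoImplicit false

namespace Pool.Agent.SplPat

open BinaryTree Pool.Agent.MP_c42954_lc.Scan

theorem QCELL_step {T : ℕ → BinaryTree ℕ} {X : ℕ → ℕ} {m k κ j t : ℕ} (hR : Run T X m)
    (hκ : κ < j) (ht : t < m) :
    (if X t / 2 ^ k = κ then qR (2 ^ k) (j * 2 ^ k) (X t) (T t) else 0)
      + 2 * Psi (2 ^ k) (κ + 1) j (T (t + 1)) + 2 * (Lg ((κ + 1) * 2 ^ k) (T (t + 1))).card ≤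
      2 * Psi (2 ^ k) (κ + 1) j (T t) + 2 * (Lg ((κ + 1) * 2 ^ k) (T t)).card + 6 := by
  have hb := hR.bst t ht.le
  have hm := hR.mem t ht
  have hpos : 0 < 2 ^ k := by positivity
  rw [hR.next t ht]
  split_ifs with hP
  · have hx : X t < (κ + 1) * 2 ^ k := by
      rw [← hP]
      exact Nat.lt_mul_of_div_lt (Nat.lt_succ_self _) hpos
    have h1 := FQ (b := 2 ^ k) (j := j) hb hm hpos (by rw [hP]; exact hκ)
    rw [hP] at h1
    have h2 := FL1 hb hm hx
    omega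
  · rcases Nat.lt_or_ge (X t) ((κ + 1) * 2 ^ k) with hx | hx
    · have h1 := Psi_left (b := 2 ^ k) (κ := κ + 1) (j := j) hb hm hx
      have h2 := FL1 hb hm hx
      omega
    · have h1 := Psi_right (b := 2 ^ k) (κ := κ + 1) (j := j) hb hm hx
      have h2 := Finset.card_le_card (FL2 hb hm hx)
      omega

theorem QCELL_ind {T : ℕ → BinaryTree ℕ} {X : ℕ → ℕ} {m k κ j s : ℕ} (hR : Run T X m)
    (hκ : κ < j) : ∀ d : ℕ, s + d ≤ m →
    ∑ t ∈ (Finset.Ico s (s + d)).filter (fun t => X t / 2 ^ k = κ),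
      qR (2 ^ k) (j * 2 ^ k) (X t) (T t)
      + 2 * Psi (2 ^ k) (κ + 1) j (T (s + d)) + 2 * (Lg ((κ + 1) * 2 ^ k) (T (s + d))).card ≤
      2 * Psi (2 ^ k) (κ + 1) j (T s) + 2 * (Lg ((κ + 1) * 2 ^ k) (T s)).card + 6 * d
  | 0, _ => by simp
  | d + 1, h => by
      have ih := QCELL_ind (m := m) (k := k) (s := s) hR hκ d (by omega)
      have h1 := QCELL_step (m := m) (k := k) (t := s + d) hR hκ (by omega)
      rw [Finset.sum_filter] at ih ⊢
      rw [show s + (d + 1) = (s + d) + 1 by ring, Finset.sum_Ico_succ_top (by omega)]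
      omega

theorem qcell {T : ℕ → BinaryTree ℕ} {X : ℕ → ℕ} {m k κ j u u' : ℕ} (hR : Run T X m)
    (hκ : κ < j) (h1 : (j - κ) * (k + 1) ≤ 3 * 2 ^ k) (h2 : j - κ ≤ 2 * 2 ^ k)
    (hu : u' ≤ u + 2 ^ k) (hu' : u' ≤ m) :
    ∑ t ∈ (Finset.Ico u u').filter (fun t => X t / 2 ^ k = κ),
      qR (2 ^ k) (j * 2 ^ k) (X t) (T t) ≤ 20 * 2 ^ k := by
  have hpos : 0 < 2 ^ k := by positivity
  set F := (Finset.Ico u u').filter (fun t => X t / 2 ^ k = κ) with hF
  rcases F.eq_empty_or_nonempty with h0 | h0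
  · rw [h0]; simp
  · set t1 := F.min' h0 with ht1
    have hmem : t1 ∈ F := Finset.min'_mem _ _
    have hmem' := hmem
    rw [hF, Finset.mem_filter, Finset.mem_Ico] at hmem'
    obtain ⟨⟨h3, h4⟩, h5⟩ := hmem'
    have hFs : F = insert t1 ((Finset.Ico (t1 + 1) u').filter (fun t => X t / 2 ^ k = κ)) := by
      ext t
      simp only [Finset.mem_insert, Finset.mem_filter, Finset.mem_Ico]
      constructor
      · intro ht
        have h6 := Finset.min'_le F t ht
        rw [hF, Finset.mem_filter, Finset.mem_Ico] at ht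
        rcases Nat.lt_or_ge t1 t with h7 | h7
        · exact Or.inr ⟨⟨h7, ht.1.2⟩, ht.2⟩
        · left
          omega
      · rintro (rfl | ⟨⟨h6, h7⟩, h8⟩)
        · exact hmem
        · rw [hF, Finset.mem_filter, Finset.mem_Ico]
          exact ⟨⟨by omega, h7⟩, h8⟩
    rw [hFs, Finset.sum_insert (by simp)]
    have ht1m : t1 < m := by omega
    have hb := hR.bst t1 ht1m.le
    have hm := hR.mem t1 ht1m
    have h6 := qR_le (b := 2 ^ k) (j := j) (x := X t1) (t := T t1) hpos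
    rw [h5] at h6
    obtain ⟨d, hd⟩ : ∃ d, u' = t1 + 1 + d := ⟨u' - (t1 + 1), by omega⟩
    have h7 := QCELL_ind (m := m) (k := k) (s := t1 + 1) hR hκ d (by omega)
    rw [← hd] at h7
    have hx : X t1 < (κ + 1) * 2 ^ k := by
      rw [← h5]
      exact Nat.lt_mul_of_div_lt (Nat.lt_succ_self _) hpos
    have hx' : κ * 2 ^ k ≤ X t1 := by
      rw [← h5]
      exact Nat.div_mul_le_self _ _
    have h8 := Lg_card_le (FL1' hb hm hx)
    rw [← hR.next t1 ht1m] at h8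
    have h9 : (κ + 1) * 2 ^ k - X t1 ≤ 2 ^ k := by
      have : (κ + 1) * 2 ^ k = κ * 2 ^ k + 2 ^ k := by ring
      omega
    have h10 := Psi_le (b := 2 ^ k) (κ := κ + 1) (j := j) (t := T (t1 + 1)) hpos
    have h11 : Nat.clog 2 (2 * 2 ^ k) = k + 1 := by
      rw [show 2 * 2 ^ k = 2 ^ (k + 1) by ring]
      exact Nat.clog_pow 2 (k + 1) (by norm_num)
    rw [h11] at h10
    have h12 : (j - (κ + 1)) * (k + 1) ≤ (j - κ) * (k + 1) := Nat.mul_le_mul_right _ (by omega)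
    have h13 : d ≤ 2 ^ k := by omega
    omega

end Pool.Agent.SplPat
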