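import Pool.Agent.SplPat.QsR
import Pool.Agent.SplPat.Mir

set_option autoImplicit false

namespace Pool.Agent.SplPat

open BinaryTree Pool.Agent.MP_c42954_lc.Scan

/-! HINT (QSL).  Apply `qsumR` to the mirrored run (f v = j 2^k - 1 - v, `mirror_run`, `mirror_q`) and the interval
[(j - j1) 2^k, (j - j0) 2^k); the cells correspond under (τ, κ) ↦ (τ, j - 1 - κ). -/

theorem QSL_div {b j v : ℕ} (h0 : 0 < b) (hv : v < j * b) : (j * b - 1 - v) / b = j - 1 - v / b := by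
  have h1 := Nat.div_add_mod v b
  have h2 := Nat.mod_lt v h0
  have h3 : v / b < j := (Nat.div_lt_iff_lt_mul h0).2 hv
  obtain ⟨c, hc⟩ : ∃ c, j = v / b + 1 + c := ⟨j - (v / b + 1), by omega⟩
  have h4 : j * b = b * (v / b) + b + c * b := by
    rw [hc]; ring
  have h5 : j * b - 1 - v = (b - 1 - v % b) + c * b := by omega
  rw [h5, Nat.add_mul_div_right _ _ h0, Nat.div_eq_of_lt (by omega)]
  omega

theorem QSL_lt {b j0 j v : ℕ} (hv : v < j * b) (hj : j0 ≤ j) :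
    j * b - 1 - v < (j - j0) * b ↔ j0 * b ≤ v := by
  have h1 : (j - j0) * b = j * b - j0 * b := Nat.sub_mul j j0 b
  have h2 : j0 * b ≤ j * b := Nat.mul_le_mul_right b hj
  omega

theorem QSL_le {b j1 j v : ℕ} (hv : v < j * b) (hj : j1 ≤ j) :
    (j - j1) * b ≤ j * b - 1 - v ↔ v < j1 * b := by
  have h1 : (j - j1) * b = j * b - j1 * b := Nat.sub_mul j j1 b
  have h2 : j1 * b ≤ j * b := Nat.mul_le_mul_right b hj
  omega

theorem qsumL {T : ℕ → BinaryTree ℕ} {X : ℕ → ℕ} {m k j0 j1 j s s' : ℕ} (hR : Run T X m)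
    (hM : ∀ v ∈ inorder (T 0), v < j * 2 ^ k) (hj1 : j1 ≤ j)
    (hj : j0 ≤ j1) (h1 : (j1 - j0) * (k + 1) ≤ 3 * 2 ^ k) (h2 : j1 - j0 ≤ 2 * 2 ^ k)
    (hs' : s' ≤ m) :
    ∑ t ∈ tin s s' (j0 * 2 ^ k) (j1 * 2 ^ k) X, qL (2 ^ k) (j0 * 2 ^ k) (X t) (T t) ≤
      20 * 2 ^ k * (cellsIn (2 ^ k) s s' (j0 * 2 ^ k) (j1 * 2 ^ k) X).card := by
  have h0 : 0 < 2 ^ k := Nat.pos_of_ne_zero (by positivity)
  have hkeys : ∀ t < m, X t < j * 2 ^ k := by
    intro t ht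
    have h3 := hR.mem t ht
    rw [run_inorder hR ht.le] at h3
    exact hM _ h3
  have hrun := mirror_run hR hM
  have hmain := qsumR (j0 := j - j1) (j1 := j - j0) (k := k) (s := s) (s' := s') hrun (by omega)
    (by
      have : j - j0 - (j - j1) = j1 - j0 := by omega
      rw [this]; exact h1)
    (by omega) hs'
  have htin : tin s s' ((j - j1) * 2 ^ k) ((j - j0) * 2 ^ k) (fun t => j * 2 ^ k - 1 - X t) =
      tin s s' (j0 * 2 ^ k) (j1 * 2 ^ k) X := by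
    ext t
    simp only [tin, Finset.mem_filter, Finset.mem_Ico]
    constructor
    · rintro ⟨h3, h4, h5⟩
      have h6 := hkeys t (by omega)
      exact ⟨h3, (QSL_lt h6 (by omega)).1 h5, (QSL_le h6 hj1).1 h4⟩
    · rintro ⟨h3, h4, h5⟩
      have h6 := hkeys t (by omega)
      exact ⟨h3, (QSL_le h6 hj1).2 h5, (QSL_lt h6 (by omega)).2 h4⟩
  have hmem : ∀ t ∈ tin s s' (j0 * 2 ^ k) (j1 * 2 ^ k) X, t < m := by
    intro t ht
    simp only [tin, Finset.mem_filter, Finset.mem_Ico] at ht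
    omega
  have hsum : ∑ t ∈ tin s s' (j0 * 2 ^ k) (j1 * 2 ^ k) X, qL (2 ^ k) (j0 * 2 ^ k) (X t) (T t) =
      ∑ t ∈ tin s s' (j0 * 2 ^ k) (j1 * 2 ^ k) X, qR (2 ^ k) ((j - j0) * 2 ^ k)
        (j * 2 ^ k - 1 - X t) (mirT (fun v => j * 2 ^ k - 1 - v) (T t)) := by
    refine Finset.sum_congr rfl ?_
    intro t ht
    have h3 := hmem t ht
    refine mirror_q h0 (hR.bst t h3.le) (hR.mem t h3) ?_ (by omega)
    intro v hv
    rw [run_inorder hR h3.le] at hv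
    exact hM v hv
  have hcells : (cellsIn (2 ^ k) s s' ((j - j1) * 2 ^ k) ((j - j0) * 2 ^ k)
      (fun t => j * 2 ^ k - 1 - X t)).card ≤
      (cellsIn (2 ^ k) s s' (j0 * 2 ^ k) (j1 * 2 ^ k) X).card := by
    have h3 : cellsIn (2 ^ k) s s' ((j - j1) * 2 ^ k) ((j - j0) * 2 ^ k)
        (fun t => j * 2 ^ k - 1 - X t) ⊆
        (cellsIn (2 ^ k) s s' (j0 * 2 ^ k) (j1 * 2 ^ k) X).image
          (fun c => (c.1, j - 1 - c.2)) := by
      intro c hc
      unfold cellsIn at hc ⊢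
      rw [Finset.mem_image] at hc
      obtain ⟨t, ht, rfl⟩ := hc
      have ht' : t ∈ tin s s' ((j - j1) * 2 ^ k) ((j - j0) * 2 ^ k)
        (fun t => j * 2 ^ k - 1 - X t) := ht
      rw [htin] at ht'
      have h6 := hkeys t (hmem t ht')
      rw [Finset.mem_image]
      refine ⟨(t / 2 ^ k, X t / 2 ^ k), Finset.mem_image.2 ⟨t, ht', rfl⟩, ?_⟩
      show (t / 2 ^ k, j - 1 - X t / 2 ^ k) = (t / 2 ^ k, (j * 2 ^ k - 1 - X t) / 2 ^ k)
      rw [QSL_div h0 h6]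
    exact (Finset.card_le_card h3).trans Finset.card_image_le
  rw [hsum]
  rw [htin] at hmain
  exact hmain.trans (Nat.mul_le_mul_left _ hcells)

end Pool.Agent.SplPat
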