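import Pool.Agent.SplPat.QCell

set_option autoImplicit false

namespace Pool.Agent.SplPat

open BinaryTree Pool.Agent.MP_c42954_lc.Scan

/-! HINT (QSUM).  Split the times of `tin` by the pair (t / b, X t / b) (an element of `cellsIn`): for each pair apply
`qcell` to [max s (τ b), min s' ((τ+1) b)).  For `qL`: mirror.  With f v = j b - 1 - v (all keys are < j b) the trees
mirT f (T t) and the requests f (X t) form a `Run` (mirT_splay, mirT_inorder; `Anti` for distinct keys < j b),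
ancs (f x) (mirT f t) = (ancs x t).map f, (f v) / b = j - 1 - v / b, so qL b (j0 b) x t = qR b ((j - j0) b) (f x) (mirT f t). -/

theorem qsumR {T : ℕ → BinaryTree ℕ} {X : ℕ → ℕ} {m k j0 j1 s s' : ℕ} (hR : Run T X m)
    (hj : j0 ≤ j1) (h1 : (j1 - j0) * (k + 1) ≤ 3 * 2 ^ k) (h2 : j1 - j0 ≤ 2 * 2 ^ k)
    (hs' : s' ≤ m) :
    ∑ t ∈ tin s s' (j0 * 2 ^ k) (j1 * 2 ^ k) X, qR (2 ^ k) (j1 * 2 ^ k) (X t) (T t) ≤
      20 * 2 ^ k * (cellsIn (2 ^ k) s s' (j0 * 2 ^ k) (j1 * 2 ^ k) X).card := by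
  have hb : 0 < 2 ^ k := by positivity
  have hmap : ∀ t ∈ tin s s' (j0 * 2 ^ k) (j1 * 2 ^ k) X,
      (t / 2 ^ k, X t / 2 ^ k) ∈ cellsIn (2 ^ k) s s' (j0 * 2 ^ k) (j1 * 2 ^ k) X :=
    fun t ht => Finset.mem_image_of_mem (fun t => (t / 2 ^ k, X t / 2 ^ k)) ht
  rw [← Finset.sum_fiberwise_of_maps_to hmap]
  have key : ∀ c ∈ cellsIn (2 ^ k) s s' (j0 * 2 ^ k) (j1 * 2 ^ k) X,
      ∑ t ∈ (tin s s' (j0 * 2 ^ k) (j1 * 2 ^ k) X).filter (fun t => (t / 2 ^ k, X t / 2 ^ k) = c),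
        qR (2 ^ k) (j1 * 2 ^ k) (X t) (T t) ≤ 20 * 2 ^ k := by
    intro c hc
    obtain ⟨t0, ht0, rfl⟩ := Finset.mem_image.1 hc
    rw [Finset.mem_filter, Finset.mem_Ico] at ht0
    obtain ⟨⟨ha, hb'⟩, hc', hd⟩ := ht0
    have hκ : X t0 / 2 ^ k < j1 := (Nat.div_lt_iff_lt_mul hb).2 hd
    have hκ0 : j0 ≤ X t0 / 2 ^ k := (Nat.le_div_iff_mul_le hb).2 hc'
    have e1 : j1 - X t0 / 2 ^ k ≤ j1 - j0 := by omega
    refine (Finset.sum_le_sum_of_subset ?_).trans (qcell (u := max s (t0 / 2 ^ k * 2 ^ k))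
      (u' := min s' ((t0 / 2 ^ k + 1) * 2 ^ k)) hR hκ
      ((Nat.mul_le_mul_right _ e1).trans h1) (e1.trans h2) ?_ ?_)
    · intro t ht
      rw [Finset.mem_filter, tin, Finset.mem_filter, Finset.mem_Ico, Prod.mk.injEq] at ht
      obtain ⟨⟨⟨h3, h4⟩, h5, h6⟩, h7, h8⟩ := ht
      rw [Finset.mem_filter, Finset.mem_Ico]
      refine ⟨⟨max_le h3 ?_, lt_min h4 ?_⟩, h8⟩
      · rw [← h7]
        exact Nat.div_mul_le_self t (2 ^ k)
      · rw [← h7]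
        exact (Nat.div_lt_iff_lt_mul hb).1 (Nat.lt_succ_self _)
    · have e2 : (t0 / 2 ^ k + 1) * 2 ^ k = t0 / 2 ^ k * 2 ^ k + 2 ^ k := by ring
      rw [e2]
      exact (min_le_right _ _).trans (Nat.add_le_add_right (le_max_right _ _) _)
    · exact (min_le_left _ _).trans hs'
  calc ∑ c ∈ cellsIn (2 ^ k) s s' (j0 * 2 ^ k) (j1 * 2 ^ k) X,
        ∑ t ∈ (tin s s' (j0 * 2 ^ k) (j1 * 2 ^ k) X).filter
          (fun t => (t / 2 ^ k, X t / 2 ^ k) = c), qR (2 ^ k) (j1 * 2 ^ k) (X t) (T t)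
      ≤ ∑ _c ∈ cellsIn (2 ^ k) s s' (j0 * 2 ^ k) (j1 * 2 ^ k) X, 20 * 2 ^ k :=
        Finset.sum_le_sum key
    _ = 20 * 2 ^ k * (cellsIn (2 ^ k) s s' (j0 * 2 ^ k) (j1 * 2 ^ k) X).card := by
        rw [Finset.sum_const, smul_eq_mul, mul_comm]

end Pool.Agent.SplPat
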