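import Pool.Agent.SplPat.Gap

set_option autoImplicit false

namespace Pool.Agent.SplPat

open BinaryTree Pool.Agent.MP_c42954_lc.Scan

/-! HINT (RS).  List combinatorics.  A run of the block i in `ancs x t` starts at an element v of the block whose
predecessor in the list (x if there is none) is not in the block.  If the predecessor of v in the list restricted to
[lo, hi) (x if there is none) is not in the block, this is a change counted by `ch`; otherwise the predecessor u of v in
`ancs x t` is outside [lo, hi), on the other side of x (the right ancestors increase, `ancs_order`), so v is an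
ancestor of the gap lo (if x < v; `between_Rg` with c = lo) or hi (if v < x) and is counted by `van`. -/

/-- The number of starts of runs. -/
def RSA_cr (b : ℕ) (S : Finset ℕ) : ℕ → List ℕ → ℕ
  | _, [] => 0
  | k, a :: l => (if a / b ∈ S ∧ a / b ≠ k then 1 else 0) + RSA_cr b S (a / b) l

theorem RSA_sum (b : ℕ) (S : Finset ℕ) : ∀ (l : List ℕ) (k : ℕ),
    ∑ i ∈ S, runs (fun v => decide (v / b = i)) (decide (k = i)) l = RSA_cr b S k l
  | [], k => by simp [runs, RSA_cr]
  | a :: l, k => by
      simp only [runs, RSA_cr]
      rw [Finset.sum_add_distrib, RSA_sum b S l (a / b)]
      congr 1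
      by_cases h : a / b ∈ S
      · rw [Finset.sum_eq_single_of_mem (a / b) h]
        · by_cases h2 : a / b = k
          · simp [h2]
          · have h3 : ¬ k = a / b := fun h => h2 h.symm
            simp [h, h2, h3]
        · intro i _ hi
          have : ¬ a / b = i := fun h => hi h.symm
          simp [this]
      · rw [if_neg (fun h2 => h h2.1)]
        refine Finset.sum_eq_zero fun i hi => ?_
        have : ¬ a / b = i := fun h2 => h (h2 ▸ hi)
        simp [this]

/-- The main induction along the list. -/
theorem RSA_main {b j0 j1 x : ℕ} {t : BinaryTree ℕ} (hb : IsBST t) (hm : x ∈ inorder t)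
    (h0 : 0 < b) (h1 : j0 * b ≤ x) (h2 : x < j1 * b) (V : ℕ → Bool)
    (hV1 : ∀ v, v ∈ Rg (j0 * b) t → x < v → v < j1 * b → V v = true)
    (hV2 : ∀ v, v ∈ Lg (j1 * b) t → v < x → j0 * b ≤ v → V v = true) :
    ∀ (l1 l2 : List ℕ) (p q : ℕ), ancs x t = l1 ++ l2 →
      (l1.getLast?.getD x = p) →
      ((l1.filter (fun v => j0 * b ≤ v ∧ v < j1 * b)).getLast?.getD x = q) →
      RSA_cr b ((Finset.Ico j0 j1).erase (x / b)) (p / b) l2 ≤
        chg b (q / b) (l2.filter (fun v => j0 * b ≤ v ∧ v < j1 * b)) + (l2.filter V).length := by
  intro l1 l2
  induction l2 generalizing l1 with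
  | nil =>
    intro p q _ _ _
    simp [RSA_cr]
  | cons a l ih =>
    intro p q hl hp hq
    have hblk : ∀ v, v / b ∈ Finset.Ico j0 j1 ↔ j0 * b ≤ v ∧ v < j1 * b := by
      intro v
      rw [Finset.mem_Ico, Nat.le_div_iff_mul_le h0, Nat.div_lt_iff_lt_mul h0]
    have hl' : ancs x t = (l1 ++ [a]) ++ l := by rw [hl]; simp
    have ih' := ih (l1 ++ [a]) a
      (((l1 ++ [a]).filter (fun v => j0 * b ≤ v ∧ v < j1 * b)).getLast?.getD x) hl'
      (by simp) rfl
    simp only [RSA_cr]
    by_cases haJ : j0 * b ≤ a ∧ a < j1 * b
    · have e1 : (l1 ++ [a]).filter (fun v => j0 * b ≤ v ∧ v < j1 * b) =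
          l1.filter (fun v => j0 * b ≤ v ∧ v < j1 * b) ++ [a] := by
        simp [List.filter_append, haJ]
      have e2 : (a :: l).filter (fun v => j0 * b ≤ v ∧ v < j1 * b) =
          a :: l.filter (fun v => j0 * b ≤ v ∧ v < j1 * b) := by
        simp [List.filter_cons, haJ]
      rw [e1] at ih'
      simp only [List.getLast?_append, List.getLast?_singleton, Option.some_or,
        Option.getD_some] at ih'
      rw [e2]
      simp only [chg]
      by_cases hs : a / b ∈ (Finset.Ico j0 j1).erase (x / b) ∧ a / b ≠ p / b
      · rw [if_pos hs]
        by_cases hq2 : a / b = q / b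
        · -- the restricted predecessor lies in the same block
          have hax : a / b ≠ x / b := (Finset.mem_erase.1 hs.1).1
          have hVa : V a = true := by
            -- q is a real element of the list
            have hqne : q ≠ x := fun h => hax (by rw [hq2, h])
            have hqmem : q ∈ l1 ∧ (j0 * b ≤ q ∧ q < j1 * b) := by
              have : q ∈ l1.filter (fun v => j0 * b ≤ v ∧ v < j1 * b) := by
                cases hgl : (l1.filter (fun v => j0 * b ≤ v ∧ v < j1 * b)).getLast? with
                | none => rw [hgl] at hq; exact absurd hq.symm hqne
                | some w =>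
                  rw [hgl] at hq
                  simp only [Option.getD_some] at hq
                  rw [← hq]
                  exact List.mem_of_getLast? hgl
              simpa using this
            -- p is the last element of l1
            have hp1 : l1 ≠ [] := by
              rintro rfl
              simp at hqmem
            obtain ⟨l1', p', rfl⟩ : ∃ l1' p', l1 = l1' ++ [p'] :=
              ⟨l1.dropLast, l1.getLast hp1, (List.dropLast_append_getLast hp1).symm⟩
            have hpp : p' = p := by
              simpa using hp
            subst hpp
            have hpJ : ¬ (j0 * b ≤ p' ∧ p' < j1 * b) := by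
              intro hpJ
              have e3 : (l1' ++ [p']).filter (fun v => j0 * b ≤ v ∧ v < j1 * b) =
                  l1'.filter (fun v => j0 * b ≤ v ∧ v < j1 * b) ++ [p'] := by
                simp [List.filter_append, hpJ]
              rw [e3] at hq
              simp only [List.getLast?_append, List.getLast?_singleton, Option.some_or,
                Option.getD_some] at hq
              exact hs.2 (by rw [hq2, hq])
            have hql1 : q ∈ l1' := by
              rcases List.mem_append.1 hqmem.1 with h | h
              · exact h
              · rw [List.mem_singleton] at h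
                subst h
                exact absurd hqmem.2 hpJ
            obtain ⟨m1, m2, hm12⟩ := List.append_of_mem hql1
            have hord := ancs_order hb hm
            have hfull : ancs x t = m1 ++ (q :: (m2 ++ (p' :: (a :: l)))) := by
              rw [hl, hm12]; simp
            rw [hfull, List.pairwise_append, List.pairwise_cons, List.pairwise_append,
              List.pairwise_cons] at hord
            obtain ⟨_, ⟨hq3, _, ⟨hp3, _⟩, _⟩, _⟩ := hord
            have r1 := hq3 a (by simp)
            have r2 := hq3 p' (by simp)
            have r3 := hp3 a (by simp)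
            have hax2 : a ≠ x := fun h => hax (by rw [h])
            have hpx : p' ≠ x := by
              rintro rfl
              exact hpJ ⟨h1, h2⟩
            have hda : a / b * b ≤ a := Nat.div_mul_le_self a b
            have hda2 : a < a / b * b + b := Nat.lt_div_mul_add h0
            have hdq : a / b * b ≤ q := by rw [hq2]; exact Nat.div_mul_le_self q b
            have hdq2 : q < a / b * b + b := by rw [hq2]; exact Nat.lt_div_mul_add h0
            have hside : (x < q ∧ x < a) ∨ (q < x ∧ a < x) := by
              rcases Nat.lt_or_ge x a with h | h
              · left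
                refine ⟨?_, h⟩
                by_contra h3
                push Not at h3
                apply hax
                have e5 : q / b ≤ x / b := Nat.div_le_div_right h3
                have e6 : x / b ≤ a / b := Nat.div_le_div_right h.le
                omega
              · right
                have h' : a < x := lt_of_le_of_ne h hax2
                refine ⟨?_, h'⟩
                by_contra h3
                push Not at h3
                apply hax
                have e5 : x / b ≤ q / b := Nat.div_le_div_right h3
                have e6 : a / b ≤ x / b := Nat.div_le_div_right h'.le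
                omega
            have hsplit : ancs x t = (l1' ++ [p']) ++ a :: l := hl
            rcases hside with ⟨k1, k2⟩ | ⟨k1, k2⟩
            · -- right side
              have hplt : p' < x := by
                by_contra h3
                have h4 : x < p' := by omega
                have t1 := r2.1 k1 h4
                have t2 := r3.1 h4 k2
                exact hpJ ⟨by omega, by omega⟩
              have hplo : p' < j0 * b := by
                by_contra h3
                exact hpJ ⟨by omega, by omega⟩
              exact hV1 a (between_Rg hb hm h1 hsplit k2 (by simp) hplo) k2 haJ.2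
            · have hplt : x < p' := by
                by_contra h3
                have h4 : p' < x := by omega
                have t1 := r2.2 k1 h4
                have t2 := r3.2 h4 k2
                exact hpJ ⟨by omega, by omega⟩
              have hplo : j1 * b ≤ p' := by
                by_contra h3
                exact hpJ ⟨by omega, by omega⟩
              exact hV2 a (between_Lg hb hm h2 hsplit k2 (by simp) hplo) k2 haJ.1
          have e4 : (a :: l).filter V = a :: l.filter V := by
            simp [List.filter_cons, hVa]
          rw [e4, List.length_cons]
          omega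
        · rw [if_neg hq2]
          have : (l.filter V).length ≤ ((a :: l).filter V).length := by
            rw [List.filter_cons]
            split_ifs <;> simp
          omega
      · rw [if_neg hs]
        have : (l.filter V).length ≤ ((a :: l).filter V).length := by
          rw [List.filter_cons]
          split_ifs <;> simp
        omega
    · have e1 : (l1 ++ [a]).filter (fun v => j0 * b ≤ v ∧ v < j1 * b) =
          l1.filter (fun v => j0 * b ≤ v ∧ v < j1 * b) := by
        simp only [List.filter_append, List.filter_cons, List.filter_nil]
        rw [if_neg (by simpa using haJ)]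
        simp
      have e2 : (a :: l).filter (fun v => j0 * b ≤ v ∧ v < j1 * b) =
          l.filter (fun v => j0 * b ≤ v ∧ v < j1 * b) := by
        rw [List.filter_cons, if_neg (by simpa using haJ)]
      have hnS : ¬ (a / b ∈ (Finset.Ico j0 j1).erase (x / b) ∧ a / b ≠ p / b) := by
        rintro ⟨h3, _⟩
        exact haJ ((hblk a).1 (Finset.mem_erase.1 h3).2)
      rw [if_neg hnS, e2]
      rw [e1, hq] at ih'
      have : (l.filter V).length ≤ ((a :: l).filter V).length := by
        rw [List.filter_cons]
        split_ifs <;> simp
      omega

theorem RS {b j0 j1 x : ℕ} {t : BinaryTree ℕ} (hb : IsBST t) (hm : x ∈ inorder t) (h0 : 0 < b)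
    (h1 : j0 * b ≤ x) (h2 : x < j1 * b) :
    ∑ i ∈ (Finset.Ico j0 j1).erase (x / b), rs b i x t ≤
      ch b (j0 * b) (j1 * b) x t + van x (j0 * b) (j1 * b) t := by
  classical
  set V : ℕ → Bool := fun v => decide
    (v ∈ (Rg (j0 * b) t).filter (fun u => x < u ∧ u < j1 * b) ∪
      (Lg (j1 * b) t).filter (fun u => u < x ∧ j0 * b ≤ u)) with hV
  have hmain := RSA_main hb hm h0 h1 h2 V
    (fun v h3 h4 h5 => by simp [hV, h3, h4, h5]) (fun v h3 h4 h5 => by simp [hV, h3, h4, h5])
    [] (ancs x t) x x (by simp) (by simp) (by simp)
  have hsum : ∑ i ∈ (Finset.Ico j0 j1).erase (x / b), rs b i x t =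
      RSA_cr b ((Finset.Ico j0 j1).erase (x / b)) (x / b) (ancs x t) := by
    rw [← RSA_sum]
    refine Finset.sum_congr rfl fun i hi => ?_
    have : ¬ x / b = i := fun h => (Finset.mem_erase.1 hi).1 h.symm
    simp [rs, this]
  rw [hsum]
  refine hmain.trans ?_
  have hlen : ((ancs x t).filter V).length ≤ van x (j0 * b) (j1 * b) t := by
    have hnd : ((ancs x t).filter V).Nodup := (ancs_nodup hb hm).filter _
    rw [← List.toFinset_card_of_nodup hnd]
    calc ((ancs x t).filter V).toFinset.card ≤
          ((Rg (j0 * b) t).filter (fun u => x < u ∧ u < j1 * b) ∪
            (Lg (j1 * b) t).filter (fun u => u < x ∧ j0 * b ≤ u)).card := by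
          apply Finset.card_le_card
          intro v hv
          rw [List.mem_toFinset, List.mem_filter] at hv
          simpa [hV] using hv.2
      _ ≤ _ := Finset.card_union_le _ _
  have hch : chg b (x / b) ((ancs x t).filter (fun v => j0 * b ≤ v ∧ v < j1 * b)) =
      ch b (j0 * b) (j1 * b) x t := rfl
  omega

end Pool.Agent.SplPat
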