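import Pool.Agent.SplPat.Defs

set_option autoImplicit false

namespace Pool.Agent.SplPat

open BinaryTree Pool.Agent.MP_c42954_lc.Scan

/-- The times in `[s, s')` with a request in `[lo, hi)`. -/
def tin (s s' lo hi : ℕ) (X : ℕ → ℕ) : Finset ℕ :=
  (Finset.Ico s s').filter (fun t => lo ≤ X t ∧ X t < hi)

/-- `qR + qL` of the request at time `t`, for the interval `[j0 b, j1 b)`. -/
def qq (b j0 j1 : ℕ) (T : ℕ → BinaryTree ℕ) (X : ℕ → ℕ) (t : ℕ) : ℕ :=
  qR b (j1 * b) (X t) (T t) + qL b (j0 * b) (X t) (T t)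

end Pool.Agent.SplPat
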