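import Pool.Agent.SplPat.LSum
import Pool.Agent.SplPat.Depth
import Pool.Agent.SplPat.Cells
import Pool.Agent.SplPat.Ks

set_option autoImplicit false

namespace Pool.Agent.SplPat

open BinaryTree Pool.Agent.MP_c42954_lc.Scan

theorem TOTAL_ks_mono {i j : ℕ} (h : i ≤ j) : ks i ≤ ks j := by
  induction j with
  | zero => rw [Nat.le_zero.1 h]
  | succ j ih =>
    rcases Nat.lt_or_ge i (j + 1) with h1 | h1
    · have := ih (by omega)
      simp only [ks]
      omega
    · rw [le_antisymm h h1]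

theorem TOTAL_index {n : ℕ} (hn : 1 ≤ n) : ∃ l : ℕ, 2 ^ ks l ≤ n ∧ n < 2 ^ ks (l + 1) ∧
    l ≤ 2 * Nat.log 2 (Nat.log 2 n + 1) + 1 := by
  have key : ∀ j, 2 ^ ks j ≤ n → j ≤ 2 * Nat.log 2 (Nat.log 2 n + 1) + 1 := by
    intro j hj
    have h1 : ks j ≤ Nat.log 2 n := Nat.le_log_of_pow_le (by norm_num) hj
    have h2 : 2 ^ (j / 2) ≤ Nat.log 2 n + 1 := (ks_grow j).trans (by omega)
    have h3 : j / 2 ≤ Nat.log 2 (Nat.log 2 n + 1) := Nat.le_log_of_pow_le (by norm_num) h2
    omega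
  set L := 2 * Nat.log 2 (Nat.log 2 n + 1) + 1 with hL
  refine ⟨Nat.findGreatest (fun j => 2 ^ ks j ≤ n) L, ?_, ?_, Nat.findGreatest_le _⟩
  · exact Nat.findGreatest_spec (P := fun j => 2 ^ ks j ≤ n) (Nat.zero_le _) (by simpa [ks] using hn)
  · by_contra h
    push Not at h
    have h1 := key _ h
    have h2 := Nat.le_findGreatest (P := fun j => 2 ^ ks j ≤ n) h1 h
    omega

/-- HINT: l = the largest index with 2 ^ ks l ≤ n; then l ≤ 2 log₂ (log₂ n + 1) + 1.  depth_le with bs j = 2 ^ ks j,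
level_sum for j < l (N = 2 ^ (ks j / 2 + 1), so N * 2 ^ ks j = 2 ^ ks (j+1)), level_top for l with N = ⌈n / 2 ^ ks l⌉
≤ 2 ^ (ks l / 2 + 1), cells_le with b = 2 ^ ks j ≤ n. -/
theorem total (k : ℕ) : ∃ C : ℕ, ∀ (π : Equiv.Perm (Fin k)) (T : ℕ → BinaryTree ℕ) (X : ℕ → ℕ)
    (m n : ℕ), Run T X m → (∀ v ∈ inorder (T 0), v < n) → 1 ≤ n → Avoids π m X →
    ∑ t ∈ Finset.range m, depth (X t) (T t) ≤ C * (m + n) * (1 + Nat.log 2 (Nat.log 2 n + 1)) := by
  obtain ⟨c, hc⟩ := cells_le k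
  refine ⟨2 * (724 * c + 32), ?_⟩
  intro π T X m n hR hM hn hA
  obtain ⟨l, h1, h2, h3⟩ := TOTAL_index hn
  have hin : ∀ t ≤ m, inorder (T t) = inorder (T 0) := fun t ht => run_inorder hR ht
  have hXn : ∀ t < m, X t < n := fun t ht => hM _ (by rw [← hin t ht.le]; exact hR.mem t ht)
  have hcell : ∀ b, 0 < b → b * (cells b m X).card ≤ c * (m + n + b) :=
    fun b hb => hc π X m n b hb hA hXn
  -- the top level
  set K := 2 ^ ks l with hK
  have hKpos : 0 < K := by positivity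
  set N := (n + K - 1) / K with hN
  have hNK : n ≤ N * K := by
    have h4 := Nat.div_add_mod (n + K - 1) K
    have h5 := Nat.mod_lt (n + K - 1) hKpos
    have h6 : K * N = N * K := Nat.mul_comm _ _
    rw [← hN] at h4
    omega
  have hNK2 : N * K ≤ n + K := by
    have h4 := Nat.div_mul_le_self (n + K - 1) K
    rw [← hN] at h4
    omega
  have hNle : N ≤ 2 ^ (ks l / 2 + 1) := by
    have h4 : n < 2 ^ (ks l / 2 + 1) * K := by
      rw [hK, ← pow_add]
      have : ks (l + 1) = ks l / 2 + 1 + ks l := by simp only [ks]; ring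
      rw [← this]
      exact h2
    rw [hN]
    have h5 : n + K - 1 < (2 ^ (ks l / 2 + 1) + 1) * K := by
      rw [Nat.add_mul, one_mul]
      omega
    exact Nat.lt_succ_iff.1 ((Nat.div_lt_iff_lt_mul hKpos).2 h5)
  have htop := level_top (k := ks l) (N := N) hR (fun v hv => (hM v hv).trans_le hNK)
    ((Nat.mul_le_mul_right _ hNle).trans (ks_cond _)) (hNle.trans (ks_cond2 _))
  rw [← hK] at htop
  -- the other levels
  have hlev : ∀ j ∈ Finset.range l, ∑ t ∈ Finset.range m,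
      dJ (2 ^ ks j) (2 ^ ks (j + 1) * (X t / 2 ^ ks (j + 1)))
        (2 ^ ks (j + 1) * (X t / 2 ^ ks (j + 1)) + 2 ^ ks (j + 1)) (X t) (T t) ≤
      362 * c * (m + 2 * n) := by
    intro j hj
    rw [Finset.mem_range] at hj
    have h4 := level_sum (k := ks j) (N := 2 ^ (ks j / 2 + 1)) hR (by positivity)
      (ks_cond _) (ks_cond2 _)
    have h5 : 2 ^ (ks j / 2 + 1) * 2 ^ ks j = 2 ^ ks (j + 1) := by
      rw [← pow_add]
      congr 1
      simp only [ks]
      ring
    rw [h5] at h4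
    have h6 := hcell (2 ^ ks (j + 1)) (by positivity)
    have h7 := hcell (2 ^ ks j) (by positivity)
    have h8 : 2 ^ ks (j + 1) ≤ n :=
      (Nat.pow_le_pow_right (by norm_num) (TOTAL_ks_mono (by omega))).trans h1
    have h9 : 2 ^ ks j ≤ n :=
      (Nat.pow_le_pow_right (by norm_num) (TOTAL_ks_mono (by omega))).trans h1
    refine h4.trans ?_
    have h10 : 42 * 2 ^ ks (j + 1) * (cells (2 ^ ks (j + 1)) m X).card ≤ 42 * (c * (m + 2 * n)) := by
      rw [mul_assoc]
      refine Nat.mul_le_mul_left _ (h6.trans (Nat.mul_le_mul_left _ (by omega)))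
    have h11 : 320 * 2 ^ ks j * (cells (2 ^ ks j) m X).card ≤ 320 * (c * (m + 2 * n)) := by
      rw [mul_assoc]
      refine Nat.mul_le_mul_left _ (h7.trans (Nat.mul_le_mul_left _ (by omega)))
    calc _ ≤ 42 * (c * (m + 2 * n)) + 320 * (c * (m + 2 * n)) := Nat.add_le_add h10 h11
      _ = 362 * c * (m + 2 * n) := by ring
  have hsum : ∑ t ∈ Finset.range m, depth (X t) (T t) ≤
      ∑ j ∈ Finset.range l, 362 * c * (m + 2 * n) +
        (10 * (N * K) + 28 * m + 4 + 320 * K * (cells K m X).card) := by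
    have h4 : ∀ t ∈ Finset.range m, depth (X t) (T t) ≤
        ∑ j ∈ Finset.range l, dJ (2 ^ ks j) (2 ^ ks (j + 1) * (X t / 2 ^ ks (j + 1)))
          (2 ^ ks (j + 1) * (X t / 2 ^ ks (j + 1)) + 2 ^ ks (j + 1)) (X t) (T t) +
        dJ K 0 (N * K) (X t) (T t) := by
      intro t ht
      rw [Finset.mem_range] at ht
      exact depth_le (fun j => 2 ^ ks j) (hR.bst t ht.le) (hR.mem t ht)
        (fun v hv => (hM v (by rw [← hin t ht.le]; exact hv)).trans_le hNK)
        (by simp [ks]) (fun j => by positivity)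
    refine (Finset.sum_le_sum h4).trans ?_
    rw [Finset.sum_add_distrib, Finset.sum_comm]
    exact Nat.add_le_add (Finset.sum_le_sum hlev) htop
  refine hsum.trans ?_
  rw [Finset.sum_const, Finset.card_range, smul_eq_mul]
  have h12 : 320 * K * (cells K m X).card ≤ 362 * c * (m + 2 * n) := by
    have h13 := hcell K hKpos
    have h14 : 320 * K * (cells K m X).card ≤ 320 * (c * (m + 2 * n)) := by
      rw [mul_assoc]
      refine Nat.mul_le_mul_left _ (h13.trans (Nat.mul_le_mul_left _ (by omega)))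
    refine h14.trans ?_
    nlinarith [Nat.zero_le (c * (m + 2 * n))]
  have h15 : 10 * (N * K) + 28 * m + 4 ≤ 32 * (m + n) := by omega
  have h16 : l + 1 ≤ 2 * (1 + Nat.log 2 (Nat.log 2 n + 1)) := by omega
  calc l * (362 * c * (m + 2 * n)) + (10 * (N * K) + 28 * m + 4 + 320 * K * (cells K m X).card)
      ≤ l * (362 * c * (m + 2 * n)) + (32 * (m + n) + 362 * c * (m + 2 * n)) := by omega
    _ = (l + 1) * (362 * c * (m + 2 * n)) + 32 * (m + n) := by ring
    _ ≤ (l + 1) * (362 * c * (2 * (m + n))) + (l + 1) * (32 * (m + n)) := by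
        refine Nat.add_le_add (Nat.mul_le_mul_left _ (Nat.mul_le_mul_left _ (by omega))) ?_
        exact Nat.le_mul_of_pos_left _ (by omega)
    _ = (l + 1) * ((724 * c + 32) * (m + n)) := by ring
    _ ≤ 2 * (1 + Nat.log 2 (Nat.log 2 n + 1)) * ((724 * c + 32) * (m + n)) :=
        Nat.mul_le_mul_right _ h16
    _ = 2 * (724 * c + 32) * (m + n) * (1 + Nat.log 2 (Nat.log 2 n + 1)) := by ring

end Pool.Agent.SplPat
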